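import Pool.Agent.Q122.TF.Gz

/-! All monic polynomials of bounded height. -/

set_option autoImplicit false

namespace Pool.Agent.Q122.TF

open Polynomial Finset NumberField Filter Topology
open scoped Classical

/-- the bound for the fields generated by a root of a polynomial -/
def TorBound (n : ℕ) (C ε : ℝ) (H : ℕ) (P : ℤ[X]) : Prop :=
  ∀ (K : Type) [Field K] [NumberField K], Module.finrank ℚ K = n → ∀ α : K,
    IntermediateField.adjoin ℚ {α} = ⊤ → aeval α P = 0 → ∀ l : ℕ, 1 ≤ l →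
    (Nat.card {c : ClassGroup (𝓞 K) // c ^ l = 1} : ℝ) ≤
      C * |(discr K : ℝ)| ^ (1 / 2 - 1 / (2 * l * (n - 1)) : ℝ) * (H : ℝ) ^ ε

theorem TorBound.mono {n : ℕ} {C C' ε : ℝ} {H H' : ℕ} {P : ℤ[X]} (h : TorBound n C ε H P)
    (hC : C * (H : ℝ) ^ ε ≤ C' * (H' : ℝ) ^ ε) : TorBound n C' ε H' P := by
  intro K _ _ hK α hα h0 l hl
  refine (h K hK α hα h0 l hl).trans ?_
  have h1 : 0 ≤ |(discr K : ℝ)| ^ (1 / 2 - 1 / (2 * l * (n - 1)) : ℝ) := by positivity
  calc C * |(discr K : ℝ)| ^ (1 / 2 - 1 / (2 * l * (n - 1)) : ℝ) * (H : ℝ) ^ ε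
      = (C * (H : ℝ) ^ ε) * |(discr K : ℝ)| ^ (1 / 2 - 1 / (2 * l * (n - 1)) : ℝ) := by ring
    _ ≤ (C' * (H' : ℝ) ^ ε) * |(discr K : ℝ)| ^ (1 / 2 - 1 / (2 * l * (n - 1)) : ℝ) := by gcongr
    _ = _ := by ring

theorem gz2 (n : ℕ) (hn : 2 ≤ n) (ε : ℝ) (hε : 0 < ε) : ∃ B : ℝ, 0 < B ∧ ∀ H : ℕ, 1 ≤ H →
    ∀ f g : ℤ[X], f.natDegree ≤ n → g.natDegree ≤ n →
    (∀ i, |f.coeff i| ≤ (H : ℤ)) → (∀ i, |g.coeff i| ≤ (H : ℤ)) →
    (∃ i j, f.coeff i * g.coeff j ≠ f.coeff j * g.coeff i) →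
    ∀ (A : ℤ) (T : ℕ), 1 ≤ T → |A| ≤ (H : ℤ) → T ≤ H →
    ∃ E ⊆ Ioc A (A + T), (E.card : ℝ) ≤ B * √T * (H : ℝ) ^ ε ∧
      ∀ t ∈ Ioc A (A + T), t ∉ E → TorBound n B ε H (f - C t * g) := by
  obtain ⟨B, hC0, hC⟩ := gz n hn ε hε
  refine ⟨B, hC0, fun H hH f g hf hg hfH hgH hfg A T hT hA hTH => ?_⟩
  obtain ⟨E, hE1, hE2, hE3⟩ := hC H hH f g hf hg hfH hgH hfg A T hT hA hTH
  refine ⟨E, hE1, hE2, fun t ht htE K _ _ hK α hα h0 l hl => ?_⟩
  refine hE3 t ht htE K hK α hα ?_ l hl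
  rw [map_sub, map_mul, aeval_C, sub_eq_zero] at h0
  rw [h0]
  simp

/-- the monic polynomial with given lower coefficients -/
noncomputable def mon (n : ℕ) (a : Fin n → ℤ) : ℤ[X] := X ^ n + ∑ i : Fin n, C (a i) * X ^ (i : ℕ)

theorem box (n : ℕ) (hn : 2 ≤ n) (ε : ℝ) (hε : 0 < ε) : ∃ B : ℝ, 0 < B ∧ ∀ H : ℕ, 1 ≤ H →
    ∃ E : Finset (Fin n → ℤ), (E.card : ℝ) ≤ B * (H : ℝ) ^ (n - 1 / 2 + ε : ℝ) ∧
      ∀ a : Fin n → ℤ, (∀ i, |a i| ≤ (H : ℤ)) → a ∉ E → TorBound n B ε H (mon n a) := by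
  obtain ⟨B, hC0, hC⟩ := gz2 n hn ε hε
  obtain ⟨m, rfl⟩ : ∃ m, n = m + 1 := ⟨n - 1, by omega⟩
  refine ⟨B * 3 ^ ((m : ℝ) + 1 / 2 + ε), by positivity, fun H hH => ?_⟩
  set H' : ℕ := 2 * H + 1 with hH'
  -- the lines
  set ff : (Fin m → ℤ) → ℤ[X] := fun b => X ^ (m + 1) + ∑ i : Fin m, C (b i) * X ^ ((i : ℕ) + 1)
    with hff
  have hmon : ∀ (t : ℤ) (b : Fin m → ℤ), mon (m + 1) (Fin.cons t b) = ff b - C t * (C (-1)) := by
    intro t b
    rw [mon, hff, Fin.sum_univ_succ]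
    simp only [Fin.cons_zero, Fin.val_zero, pow_zero, mul_one, Fin.cons_succ, Fin.val_succ, map_neg,
      map_one, mul_neg]
    ring
  have hcoef : ∀ (b : Fin m → ℤ) (k : ℕ), (ff b).coeff k =
      if k = m + 1 then 1 else (if h : k - 1 < m ∧ 1 ≤ k then b ⟨k - 1, h.1⟩ else 0) := by
    intro b k
    rw [hff]
    simp only [coeff_add, coeff_X_pow, finsetSum_coeff, coeff_C_mul, mul_ite, mul_one, mul_zero]
    by_cases h1 : k = m + 1
    · rw [if_pos h1, if_pos h1]
      rw [sum_eq_zero, add_zero]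
      intro i _
      rw [if_neg]
      have := i.2
      omega
    · rw [if_neg h1, if_neg h1, zero_add]
      split_ifs with h2
      · rw [sum_eq_single ⟨k - 1, h2.1⟩]
        · rw [if_pos]
          simp only
          omega
        · intro i _ hi
          rw [if_neg]
          intro h
          apply hi
          apply Fin.ext
          simp only
          omega
        · intro h
          exact absurd (mem_univ _) h
      · apply sum_eq_zero
        intro i _
        rw [if_neg]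
        intro h
        apply h2
        have := i.2
        constructor <;> omega
  have hline : ∀ b : Fin m → ℤ, ∃ E : Finset ℤ, (∀ i, |b i| ≤ (H : ℤ)) →
      ((E.card : ℝ) ≤ B * √(H' : ℝ) * (H' : ℝ) ^ ε ∧
        ∀ t : ℤ, |t| ≤ H → t ∉ E → TorBound (m + 1) B ε H' (mon (m + 1) (Fin.cons t b))) := by
    intro b
    by_cases hb : ∀ i, |b i| ≤ (H : ℤ)
    · obtain ⟨E, hE1, hE2, hE3⟩ := hC H' (by omega) (ff b) (C (-1)) (by
          rw [natDegree_le_iff_coeff_eq_zero]
          intro k hk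
          rw [hcoef, if_neg (by omega), dif_neg (by omega)]) (by simp) (by
          intro k
          rw [hcoef]
          split_ifs with h1 h2
          · simp only [abs_one]; push_cast [hH']; omega
          · have := hb ⟨k - 1, h2.1⟩
            push_cast [hH']
            omega
          · simp only [abs_zero]; positivity) (by
          intro k
          rw [coeff_C]
          split_ifs
          · simp only [abs_neg, abs_one]; push_cast [hH']; omega
          · simp only [abs_zero]; positivity) (by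
          refine ⟨m + 1, 0, ?_⟩
          rw [hcoef, if_pos rfl, coeff_C_zero, coeff_C_ne_zero (by omega)]
          simp) (-(H : ℤ) - 1) (2 * H + 1) (by omega) (by
          rw [abs_le]
          push_cast [hH']
          constructor <;> omega) (by omega)
      refine ⟨E, fun _ => ⟨?_, ?_⟩⟩
      · exact hE2
      · intro t ht htE
        rw [hmon]
        apply hE3 t _ htE
        rw [mem_Ioc]
        rw [abs_le] at ht
        push_cast
        constructor <;> omega
    · exact ⟨∅, fun h => absurd h hb⟩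
  choose EE hEE using hline
  set box : Finset (Fin m → ℤ) := Fintype.piFinset (fun _ => Icc (-(H : ℤ)) H) with hbox
  have hboxc : box.card = H' ^ m := by
    rw [hbox, Fintype.card_piFinset]
    simp only [Int.card_Icc, prod_const, card_univ, Fintype.card_fin]
    congr 1
    omega
  have hmem : ∀ b, b ∈ box ↔ ∀ i, |b i| ≤ (H : ℤ) := by
    intro b
    rw [hbox, Fintype.mem_piFinset]
    constructor
    · intro h i
      have := h i
      rw [mem_Icc] at this
      rw [abs_le]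
      exact this
    · intro h i
      rw [mem_Icc, ← abs_le]
      exact h i
  refine ⟨box.biUnion (fun b => (EE b).image (fun t => (Fin.cons t b : Fin (m + 1) → ℤ))), ?_, ?_⟩
  · have h1 : ((box.biUnion (fun b => (EE b).image
        (fun t => (Fin.cons t b : Fin (m + 1) → ℤ)))).card : ℝ) ≤
        ∑ b ∈ box, B * √(H' : ℝ) * (H' : ℝ) ^ ε := by
      have h2 : (box.biUnion (fun b => (EE b).image
          (fun t => (Fin.cons t b : Fin (m + 1) → ℤ)))).card ≤ ∑ b ∈ box, (EE b).card :=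
        card_biUnion_le.trans (sum_le_sum fun b _ => card_image_le)
      calc _ ≤ ((∑ b ∈ box, (EE b).card : ℕ) : ℝ) := by exact_mod_cast h2
        _ = ∑ b ∈ box, ((EE b).card : ℝ) := by push_cast; rfl
        _ ≤ _ := sum_le_sum fun b hb => (hEE b ((hmem b).1 hb)).1
    refine h1.trans ?_
    rw [sum_const, hboxc, nsmul_eq_mul]
    have hH0 : (0 : ℝ) < H := by exact_mod_cast hH
    have hH'0 : (0 : ℝ) < H' := by rw [hH']; positivity
    have h3 : (H' : ℝ) ≤ 3 * H := by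
      rw [hH']
      push_cast
      have : (1 : ℝ) ≤ H := by exact_mod_cast hH
      linarith
    have h4 : ((H' ^ m : ℕ) : ℝ) * (B * √(H' : ℝ) * (H' : ℝ) ^ ε) =
        B * (H' : ℝ) ^ ((m : ℝ) + 1 / 2 + ε) := by
      rw [Real.rpow_add hH'0, Real.rpow_add hH'0, Real.rpow_natCast, Real.sqrt_eq_rpow]
      push_cast
      ring
    rw [h4]
    have h5 : (((m + 1 : ℕ) : ℝ) - 1 / 2 + ε) = (m : ℝ) + 1 / 2 + ε := by push_cast; ring
    rw [h5]
    calc B * (H' : ℝ) ^ ((m : ℝ) + 1 / 2 + ε) ≤ B * (3 * H) ^ ((m : ℝ) + 1 / 2 + ε) := by gcongr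
      _ = _ := by rw [Real.mul_rpow (by norm_num) hH0.le]; ring
  · intro a ha hna
    have h1 : a = Fin.cons (a 0) (Fin.tail a) := (Fin.cons_self_tail a).symm
    have h2 := hEE (Fin.tail a) (fun i => ha i.succ)
    have h3 : a 0 ∉ EE (Fin.tail a) := by
      intro h
      apply hna
      rw [mem_biUnion]
      refine ⟨Fin.tail a, (hmem _).2 fun i => ha i.succ, ?_⟩
      rw [mem_image]
      exact ⟨a 0, h, h1.symm⟩
    have h4 := h2.2 (a 0) (ha 0) h3
    rw [← h1] at h4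
    refine h4.mono ?_
    have hH0 : (0 : ℝ) < H := by exact_mod_cast hH
    have h5 : (H' : ℝ) ≤ 3 * H := by
      rw [hH']
      push_cast
      have : (1 : ℝ) ≤ H := by exact_mod_cast hH
      linarith
    calc B * (H' : ℝ) ^ ε ≤ B * (3 * H) ^ ε := by gcongr
      _ = B * 3 ^ ε * (H : ℝ) ^ ε := by rw [Real.mul_rpow (by norm_num) hH0.le]; ring
      _ ≤ B * 3 ^ ((m : ℝ) + 1 / 2 + ε) * (H : ℝ) ^ ε := by
          gcongr
          · norm_num
          · have : (0 : ℝ) ≤ m := by positivity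
            linarith

end Pool.Agent.Q122.TF
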