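import Pool.Agent.Q122.TF.Poly
import Pool.Agent.H341R2.WeilSharp

/-! The quadratic characters of the values of a polynomial. -/

set_option autoImplicit false

namespace Pool.Agent.Q122.TF

open Finset Polynomial

/-- the Legendre symbol of the value of the polynomial -/
noncomputable def GG (f : ℤ[X]) (p : ℕ) (n : ℤ) : ℂ := ((jacobiSym (f.eval n) p : ℤ) : ℂ)

theorem GG_per (f : ℤ[X]) (p : ℕ) (n : ℤ) : GG f p (n + p) = GG f p n := by
  unfold GG
  have h1 : (p : ℤ) ∣ f.eval (n + p) - f.eval n := by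
    have := sub_dvd_eval_sub (n + p) n f
    rwa [add_sub_cancel_left] at this
  have h2 : f.eval (n + p) % p = f.eval n % p :=
    Int.emod_eq_emod_iff_emod_sub_eq_zero.2 (Int.emod_eq_zero_of_dvd h1)
  rw [jacobiSym.mod_left (f.eval (n + p)) p, h2, ← jacobiSym.mod_left]

theorem jac_abs (a : ℤ) (n : ℕ) : |jacobiSym a n| ≤ 1 := by
  rcases jacobiSym.trichotomy a n with h | h | h <;> rw [h] <;> simp

theorem GG_norm (f : ℤ[X]) (p : ℕ) (n : ℤ) : ‖GG f p n‖ ≤ 1 := by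
  unfold GG
  rw [Complex.norm_intCast]
  exact_mod_cast jac_abs _ _

theorem sum_eq_quad (f : ℤ[X]) (p : ℕ) [Fact p.Prime] :
    (∑ x ∈ range p, ((jacobiSym (f.eval (x : ℤ)) p : ℤ) : ℝ)) =
      ∑ x : ZMod p, (quadraticChar (ZMod p)
        ((f.map (Int.castRingHom (ZMod p))).eval x) : ℝ) := by
  have hp : p.Prime := Fact.out
  have hterm : ∀ x : ℕ, ((jacobiSym (f.eval (x : ℤ)) p : ℤ) : ℝ) =
      (quadraticChar (ZMod p) ((f.map (Int.castRingHom (ZMod p))).eval (x : ZMod p)) : ℝ) := by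
    intro x
    rw [← jacobiSym.legendreSym.to_jacobiSym, legendreSym]
    have : ((f.eval (x : ℤ) : ℤ) : ZMod p) =
        (f.map (Int.castRingHom (ZMod p))).eval (x : ZMod p) := by
      rw [eval_map, ← Int.cast_natCast (R := ZMod p) x, ← eq_intCast (Int.castRingHom (ZMod p)) (x : ℤ),
        eval₂_at_apply]
      simp
    rw [this]
  simp_rw [hterm]
  refine sum_bij (fun x _ => (x : ZMod p)) (fun x _ => mem_univ _) ?_ ?_ (fun _ _ => rfl)
  · intro a ha b hb hab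
    rw [mem_range] at ha hb
    have := (ZMod.natCast_eq_natCast_iff' a b p).1 hab
    rwa [Nat.mod_eq_of_lt ha, Nat.mod_eq_of_lt hb] at this
  · intro b _
    exact ⟨b.val, mem_range.2 (ZMod.val_lt b), ZMod.natCast_zmod_val b⟩

/-- Weil's bound for the polynomial modulo large primes. -/
theorem GG_sum (f : ℤ[X])
    (hf : ∀ (c : ℚ) (g : ℚ[X]), f.map (Int.castRingHom ℚ) ≠ C c * g ^ 2) :
    ∃ P0 : ℕ, 2 ≤ P0 ∧ ∀ p : ℕ, p.Prime → P0 < p →
      ‖∑ x ∈ range p, GG f p x‖ ≤ (f.natDegree : ℝ) * √p := by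
  obtain ⟨P0, hP0⟩ := good_primes f hf
  refine ⟨P0 + 2, by omega, fun p hp hlt => ?_⟩
  haveI : Fact p.Prime := ⟨hp⟩
  have hns := hP0 p (by omega)
  set fp := f.map (Int.castRingHom (ZMod p)) with hfp
  have hchar : ringChar (ZMod p) ≠ 2 := by
    rw [ZMod.ringChar_zmod_n]
    omega
  have hd : 1 ≤ fp.natDegree := by
    by_contra h
    have h1 : fp.natDegree = 0 := by omega
    obtain ⟨c, hc⟩ := natDegree_eq_zero.1 h1
    exact hns c 1 (by rw [← hc]; simp)
  have hW := Pool.Agent.H341R2.Sharp.weil_sharp hchar fp hd hns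
  rw [ZMod.card, hfp, ← sum_eq_quad] at hW
  have e1 : ‖∑ x ∈ range p, GG f p x‖ = |∑ x ∈ range p, ((jacobiSym (f.eval (x : ℤ)) p : ℤ) : ℝ)| := by
    unfold GG
    have : (∑ x ∈ range p, ((jacobiSym (f.eval (x : ℤ)) p : ℤ) : ℂ)) =
        ((∑ x ∈ range p, ((jacobiSym (f.eval (x : ℤ)) p : ℤ) : ℝ) : ℝ) : ℂ) := by
      push_cast
      rfl
    rw [this, Complex.norm_real, Real.norm_eq_abs]
  rw [e1]
  refine hW.trans ?_
  have h1 : (f.map (Int.castRingHom (ZMod p))).natDegree ≤ f.natDegree := natDegree_map_le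
  have h2 : ((f.map (Int.castRingHom (ZMod p))).natDegree : ℝ) ≤ f.natDegree := by
    exact_mod_cast h1
  have h3 : 0 ≤ √(p : ℝ) := Real.sqrt_nonneg _
  nlinarith

end Pool.Agent.Q122.TF
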