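import Pool.Agent.Q122.TF.Except2
import Pool.Agent.TH869.EVF.Sp

/-! Split primes and sums of symbols, for sets of primes. -/

set_option autoImplicit false

namespace Pool.Agent.Q122.TF

open Finset Polynomial
open scoped Classical

/-- the condition for a split prime -/
def Spp (d : ℤ) (p : ℕ) : Prop := ¬ (p : ℤ) ∣ d ∧ ∃ x : ℤ, (4 * (p : ℤ)) ∣ x ^ 2 - d

theorem conv1 (d : ℤ) (hd : d % 4 = 0 ∨ d % 4 = 1) (hd0 : d ≠ 0) (P : Finset ℕ)
    (hP : ∀ p ∈ P, p.Prime) :
    |2 * ((P.filter (fun p => Spp d p)).card : ℝ) - P.card| ≤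
      |∑ p ∈ P, (jacobiSym d p : ℝ)| + 2 + 2 * Real.log |(d : ℝ)| := by
  have h1 : ((P.filter (fun p => Spp d p)).card : ℝ) = ∑ p ∈ P, (if Spp d p then (1 : ℝ) else 0) := by
    rw [← sum_filter, sum_const, nsmul_eq_mul, mul_one]
  have h2 : ∀ p ∈ P, |2 * (if Spp d p then (1 : ℝ) else 0) - 1 - (jacobiSym d p : ℝ)| ≤
      (if p = 2 then (2 : ℝ) else 0) + (if (p : ℤ) ∣ d then (1 : ℝ) else 0) := by
    intro p hp
    have hpp := hP p hp
    by_cases hp2 : p = 2
    · rw [if_pos hp2]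
      have h3 : (0 : ℝ) ≤ (if (p : ℤ) ∣ d then (1 : ℝ) else 0) := by split_ifs <;> norm_num
      have h4 : |2 * (if Spp d p then (1 : ℝ) else 0) - 1 - (jacobiSym d p : ℝ)| ≤ 2 := by
        rcases jacobiSym.trichotomy d p with h | h | h <;> rw [h] <;> split_ifs <;> norm_num
      linarith
    · rw [if_neg hp2, zero_add]
      have hiff : Spp d p ↔ jacobiSym d p = 1 :=
        Pool.Agent.TH869.EVF.split_iff d hd p hpp hp2
      have : Fact p.Prime := ⟨hpp⟩
      rcases jacobiSym.trichotomy d p with h | h | h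
      · have h3 : (p : ℤ) ∣ d := by
          rw [← jacobiSym.legendreSym.to_jacobiSym, legendreSym.eq_zero_iff,
            ZMod.intCast_zmod_eq_zero_iff_dvd] at h
          exact h
        have h4 : ¬ Spp d p := fun h5 => h5.1 h3
        rw [if_neg h4, if_pos h3, h]
        norm_num
      · have h4 : Spp d p := hiff.mpr h
        rw [if_pos h4, h, if_neg h4.1]
        norm_num
      · have h4 : ¬ Spp d p := fun h5 => by
          rw [hiff.mp h5] at h
          norm_num at h
        rw [if_neg h4, h]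
        have h3 : (0 : ℝ) ≤ (if (p : ℤ) ∣ d then (1 : ℝ) else 0) := by
          split_ifs <;> norm_num
        norm_num
        split_ifs <;> norm_num
  have h3 : 2 * ((P.filter (fun p => Spp d p)).card : ℝ) - P.card =
      ∑ p ∈ P, (2 * (if Spp d p then (1 : ℝ) else 0) - 1 - (jacobiSym d p : ℝ)) +
        ∑ p ∈ P, (jacobiSym d p : ℝ) := by
    rw [h1, sum_sub_distrib, sum_sub_distrib, sum_const, nsmul_eq_mul, ← mul_sum]
    ring
  have h4 : |∑ p ∈ P, (2 * (if Spp d p then (1 : ℝ) else 0) - 1 - (jacobiSym d p : ℝ))| ≤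
      2 + 2 * Real.log |(d : ℝ)| := by
    refine (abs_sum_le_sum_abs _ _).trans ((sum_le_sum h2).trans ?_)
    rw [sum_add_distrib, ← sum_filter, ← sum_filter, sum_const, sum_const,
      nsmul_eq_mul, nsmul_eq_mul, mul_one]
    have h5 : ((P.filter (fun p => p = 2)).card : ℝ) ≤ 1 := by
      have h6 : P.filter (fun p => p = 2) ⊆ {2} := by
        intro p hp
        rw [mem_filter] at hp
        exact mem_singleton.mpr hp.2
      have := card_le_card h6
      rw [card_singleton] at this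
      exact_mod_cast this
    have h7 := card_dvd_le P hP d hd0
    linarith
  rw [h3]
  refine (abs_add_le _ _).trans ?_
  linarith

/-- passing from the value `v` to `d` when their product is a square -/
theorem conv2 (v d z : ℤ) (hz : v * d = z * z) (hz0 : z ≠ 0) (P S : Finset ℕ)
    (hP : ∀ p ∈ P, p.Prime) (hSP : S ⊆ P) :
    |∑ p ∈ P, (jacobiSym d p : ℝ)| ≤
      |∑ p ∈ S, (jacobiSym v p : ℝ)| + 4 * Real.log |(z : ℝ)| + ((P \ S).card : ℝ) := by
  have h1 : ∀ p ∈ S, |(jacobiSym d p : ℝ) - (jacobiSym v p : ℝ)| ≤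
      2 * (if (p : ℤ) ∣ z then (1 : ℝ) else 0) := by
    intro p hp
    have hpp := hP p (hSP hp)
    by_cases h : (p : ℤ) ∣ z
    · rw [if_pos h]
      have h2 : |(jacobiSym d p : ℝ)| ≤ 1 := by
        rcases jacobiSym.trichotomy d p with h | h | h <;> rw [h] <;> simp
      have h3 : |(jacobiSym v p : ℝ)| ≤ 1 := by
        rcases jacobiSym.trichotomy v p with h | h | h <;> rw [h] <;> simp
      have h4 := abs_sub (jacobiSym d p : ℝ) (jacobiSym v p : ℝ)
      linarith
    · rw [if_neg h, mul_zero]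
      have hc : Int.gcd z p = 1 := by
        rw [Int.gcd_eq_natAbs, Int.natAbs_natCast]
        exact ((Nat.Prime.coprime_iff_not_dvd hpp).mpr (fun h' => h (Int.natCast_dvd.2 h'))).symm
      have h2 := jacobiSym.sq_one hc
      have h3 : jacobiSym v p * jacobiSym d p = 1 := by
        rw [← jacobiSym.mul_left, hz, jacobiSym.mul_left, ← sq, h2]
      have h4 : (jacobiSym d p : ℝ) = (jacobiSym v p : ℝ) := by
        rcases jacobiSym.trichotomy d p with h | h | h <;>
          rcases jacobiSym.trichotomy v p with h' | h' | h' <;>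
          rw [h, h'] at h3 <;> rw [h, h'] <;> norm_num at h3
      rw [h4, sub_self, abs_zero]
  have h2 : |∑ p ∈ S, (jacobiSym d p : ℝ) - ∑ p ∈ S, (jacobiSym v p : ℝ)| ≤
      4 * Real.log |(z : ℝ)| := by
    rw [← sum_sub_distrib]
    refine (abs_sum_le_sum_abs _ _).trans ((sum_le_sum h1).trans ?_)
    rw [← mul_sum, ← sum_filter, sum_const, nsmul_eq_mul, mul_one]
    have h7 := card_dvd_le S (fun p hp => hP p (hSP hp)) z hz0
    linarith
  have h3 := abs_sub_abs_le_abs_sub (∑ p ∈ S, (jacobiSym d p : ℝ)) (∑ p ∈ S, (jacobiSym v p : ℝ))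
  have h4 : |∑ p ∈ P \ S, (jacobiSym d p : ℝ)| ≤ ((P \ S).card : ℝ) := by
    refine (abs_sum_le_sum_abs _ _).trans ?_
    calc ∑ p ∈ P \ S, |(jacobiSym d p : ℝ)| ≤ ∑ p ∈ P \ S, (1 : ℝ) := by
          refine sum_le_sum fun p _ => ?_
          rcases jacobiSym.trichotomy d p with h | h | h <;> rw [h] <;> simp
      _ = _ := by simp
  have h5 : ∑ p ∈ P, (jacobiSym d p : ℝ) = ∑ p ∈ P \ S, (jacobiSym d p : ℝ) +
      ∑ p ∈ S, (jacobiSym d p : ℝ) := (sum_sdiff hSP).symm
  rw [h5]
  refine (abs_add_le _ _).trans ?_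
  linarith

end Pool.Agent.Q122.TF
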