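import Pool.Agent.Q122.TF.MV
import Pool.Agent.Q122.TF.Char

/-! The number of `t` for which few primes of each class split. -/

set_option autoImplicit false

namespace Pool.Agent.Q122.TF

open Finset Polynomial

/-- the primes of the set modulo which `v` is a nonzero square -/
def sp (S : Finset ℕ) (v : ℤ) : Finset ℕ := S.filter (fun p => jacobiSym v p = 1)

theorem zeros_le (S : Finset ℕ) (hS : ∀ p ∈ S, p.Prime) (v : ℤ) (hv : v ≠ 0) (h : ℕ)
    (hh : v.natAbs ≤ 2 ^ h) : (S.filter (fun p => jacobiSym v p = 0)).card ≤ h := by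
  set Z := S.filter (fun p => jacobiSym v p = 0) with hZ
  have h1 : ∏ p ∈ Z, p ∣ v.natAbs := by
    apply Finset.prod_primes_dvd
    · intro p hp
      exact (hS p (mem_filter.1 hp).1).prime
    · intro p hp
      rw [mem_filter] at hp
      have hpp := hS p hp.1
      have : Fact p.Prime := ⟨hpp⟩
      have h2 := hp.2
      rw [← jacobiSym.legendreSym.to_jacobiSym, legendreSym.eq_zero_iff,
        ZMod.intCast_zmod_eq_zero_iff_dvd] at h2
      exact Int.natCast_dvd.1 h2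
  have h2 : 2 ^ Z.card ≤ ∏ p ∈ Z, p := by
    rw [← prod_const]
    exact prod_le_prod' fun p hp => (hS p (mem_filter.1 hp).1).two_le
  have h3 : 2 ^ Z.card ≤ 2 ^ h :=
    h2.trans ((Nat.le_of_dvd (Int.natAbs_pos.2 hv) h1).trans hh)
  exact (Nat.pow_le_pow_iff_right (by norm_num)).1 h3

theorem sum_le_of_few (S : Finset ℕ) (hS : ∀ p ∈ S, p.Prime) (v : ℤ) (hv : v ≠ 0) (h m : ℕ)
    (hh : v.natAbs ≤ 2 ^ h) (hm : S.card = m) (h4 : 4 * h ≤ m) (hsp : 4 * (sp S v).card < m) :
    (m : ℝ) / 4 ≤ |∑ p ∈ S, ((jacobiSym v p : ℤ) : ℝ)| := by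
  have e1 : ∑ p ∈ S, jacobiSym v p = 2 * ((sp S v).card : ℤ) +
      ((S.filter (fun p => jacobiSym v p = 0)).card : ℤ) - m := by
    have h1 : ∀ p ∈ S, jacobiSym v p = 2 * (if jacobiSym v p = 1 then 1 else 0) +
        (if jacobiSym v p = 0 then 1 else 0) - 1 := by
      intro p _
      rcases jacobiSym.trichotomy v p with h | h | h <;> rw [h] <;> simp
    rw [sum_congr rfl h1, sum_sub_distrib, sum_add_distrib, ← mul_sum, sum_boole, sum_boole,
      sum_const, ← hm]
    simp [sp]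
  have hz := zeros_le S hS v hv h hh
  have e2 : (∑ p ∈ S, jacobiSym v p) * 4 ≤ -(m : ℤ) := by
    rw [e1]
    omega
  have e3 : (∑ p ∈ S, ((jacobiSym v p : ℤ) : ℝ)) * 4 ≤ -(m : ℝ) := by
    exact_mod_cast e2
  have hm0 : (0 : ℝ) ≤ m := by positivity
  rw [abs_of_nonpos (by linarith)]
  linarith

/-- the number of exceptions -/
theorem bad_count (f : ℤ[X]) (P0 : ℕ)
    (hP0 : ∀ p : ℕ, p.Prime → P0 < p → ‖∑ x ∈ range p, GG f p x‖ ≤ (f.natDegree : ℝ) * √p)
    (k N m h A T : ℕ) (P : Fin k → Finset ℕ) (hN : 1 ≤ N)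
    (hprime : ∀ i, ∀ p ∈ P i, p.Prime ∧ P0 < p ∧ p ≤ N)
    (hdisj : ∀ i j, i ≠ j → Disjoint (P i) (P j)) (hcard : ∀ i, (P i).card = m)
    (h4 : 4 * h ≤ m) (hv : ∀ n ∈ Icc 1 T, (f.eval ((A : ℤ) + n)).natAbs ≤ 2 ^ h) :
    (((Icc 1 T).filter (fun n : ℕ => f.eval ((A : ℤ) + n) ≠ 0 ∧
      ∀ i, 4 * (sp (P i) (f.eval ((A : ℤ) + n))).card < m)).card : ℝ) * ((m : ℝ) / 4) ^ (2 * k) ≤
      6 * ((T : ℝ) + (N : ℝ) ^ (2 * k)) * ((4 * (f.natDegree : ℝ) ^ 2 + 1) * N) ^ k := by
  have hmv := mv P (GG f) N (f.natDegree : ℝ) hN (by positivity)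
    (fun i p hp => ⟨(hprime i p hp).1, (hprime i p hp).2.2⟩) hdisj
    (fun _ _ _ n => GG_per f _ n) (fun _ _ _ n => GG_norm f _ n)
    (fun i p hp => hP0 p (hprime i p hp).1 (hprime i p hp).2.1) A T
  refine le_trans ?_ hmv
  set B := (Icc 1 T).filter (fun n : ℕ => f.eval ((A : ℤ) + n) ≠ 0 ∧
      ∀ i, 4 * (sp (P i) (f.eval ((A : ℤ) + n))).card < m) with hB
  calc (B.card : ℝ) * ((m : ℝ) / 4) ^ (2 * k) = ∑ n ∈ B, ((m : ℝ) / 4) ^ (2 * k) := by
        rw [sum_const, nsmul_eq_mul]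
    _ ≤ ∑ n ∈ B, ∏ i, ‖∑ p ∈ P i, GG f p (A + n)‖ ^ 2 := by
        refine sum_le_sum fun n hn => ?_
        rw [mem_filter] at hn
        obtain ⟨hn1, hn0, hn2⟩ := hn
        have h1 : ∀ i ∈ (univ : Finset (Fin k)), ((m : ℝ) / 4) ^ 2 ≤
            ‖∑ p ∈ P i, GG f p (A + n)‖ ^ 2 := by
          intro i _
          apply pow_le_pow_left₀ (by positivity)
          have e1 : ‖∑ p ∈ P i, GG f p (A + n)‖ =
              |∑ p ∈ P i, ((jacobiSym (f.eval ((A : ℤ) + n)) p : ℤ) : ℝ)| := by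
            unfold GG
            have : (∑ p ∈ P i, ((jacobiSym (f.eval ((A : ℤ) + n)) p : ℤ) : ℂ)) =
                ((∑ p ∈ P i, ((jacobiSym (f.eval ((A : ℤ) + n)) p : ℤ) : ℝ) : ℝ) : ℂ) := by
              push_cast
              rfl
            rw [this, Complex.norm_real, Real.norm_eq_abs]
          rw [e1]
          exact sum_le_of_few (P i) (fun p hp => (hprime i p hp).1) _ hn0 h m (hv n hn1)
            (hcard i) h4 (hn2 i)
        calc ((m : ℝ) / 4) ^ (2 * k) = ∏ _i : Fin k, ((m : ℝ) / 4) ^ 2 := by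
              rw [prod_const, card_univ, Fintype.card_fin, ← pow_mul]
          _ ≤ _ := prod_le_prod (fun _ _ => by positivity) h1
    _ ≤ _ := sum_le_sum_of_subset_of_nonneg (filter_subset _ _)
        fun _ _ _ => prod_nonneg fun _ _ => by positivity

/-- disjoint subsets of equal size -/
theorem classes : ∀ (k m : ℕ) (S : Finset ℕ), k * m ≤ S.card →
    ∃ P : Fin k → Finset ℕ, (∀ i, P i ⊆ S ∧ (P i).card = m) ∧
      ∀ i j, i ≠ j → Disjoint (P i) (P j) := by
  intro k
  induction k with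
  | zero =>
    intro m S _
    exact ⟨fun i => i.elim0, fun i => i.elim0, fun i => i.elim0⟩
  | succ k ih =>
    intro m S hS
    have h1 : m ≤ S.card := by
      rw [Nat.succ_mul] at hS
      omega
    obtain ⟨Q, hQ, hQc⟩ := exists_subset_card_eq h1
    obtain ⟨P, hP, hd⟩ := ih m (S \ Q) (by
      rw [card_sdiff_of_subset hQ, hQc]
      rw [Nat.succ_mul] at hS
      omega)
    refine ⟨Fin.cons Q P, ?_, ?_⟩
    · intro i
      refine Fin.cases ?_ (fun j => ?_) i
      · exact ⟨hQ, hQc⟩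
      · exact ⟨(hP j).1.trans sdiff_subset, (hP j).2⟩
    · intro i j
      refine Fin.cases ?_ (fun i => ?_) i
      · refine Fin.cases ?_ (fun j => ?_) j
        · intro h; exact absurd rfl h
        · intro _
          simp only [Fin.cons_zero, Fin.cons_succ]
          rw [disjoint_left]
          intro x hx hx2
          exact (mem_sdiff.1 ((hP j).1 hx2)).2 hx
      · refine Fin.cases ?_ (fun j => ?_) j
        · intro _
          simp only [Fin.cons_zero, Fin.cons_succ]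
          rw [disjoint_left]
          intro x hx hx2
          exact (mem_sdiff.1 ((hP i).1 hx)).2 hx2
        · intro h
          simp only [Fin.cons_succ]
          exact hd i j fun he => h (by rw [he])

end Pool.Agent.Q122.TF
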