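import Pool.Agent.TH847.LG.Disc

/-! The discriminant, a generator and an ideal of denominators. -/

set_option autoImplicit false

namespace Pool.Agent.Q122.TF

open NumberField Finset IntermediateField Pool.Agent.TH847.LG
open scoped Classical nonZeroDivisors

variable {K : Type} [Field K] [NumberField K]

/-- elements of an ideal span a lattice whose index is at least the norm of the ideal -/
theorem index_ge {d : ℕ} (b : Module.Basis (Fin d) ℤ (𝓞 K)) (I : Ideal (𝓞 K)) (hI : I ≠ ⊥)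
    (v : Fin d → 𝓞 K) (hv : ∀ j, v j ∈ I) (hdet : (b.toMatrix v).det ≠ 0) :
    (Ideal.absNorm I : ℤ) ≤ |(b.toMatrix v).det| := by
  let bI : Module.Basis (Fin d) ℤ I := I.selfBasis b hI
  let w : Fin d → I := fun j => ⟨v j, hv j⟩
  have h1 : b.toMatrix v = b.toMatrix (Subtype.val ∘ bI) * bI.toMatrix w := by
    ext i j
    rw [Matrix.mul_apply, Module.Basis.toMatrix_apply]
    have h2 : v j = ∑ k, bI.repr (w j) k • ((bI k : I) : 𝓞 K) := by
      have h3 := bI.sum_repr (w j)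
      have h4 := congrArg (fun x : I => (x : 𝓞 K)) h3
      simp only [AddSubmonoidClass.coe_finsetSum] at h4
      rw [show v j = ((w j : I) : 𝓞 K) from rfl, ← h4]
      refine Finset.sum_congr rfl fun k _ => ?_
      rfl
    conv_lhs => rw [h2]
    rw [map_sum, Finsupp.finsetSum_apply]
    refine Finset.sum_congr rfl fun k _ => ?_
    rw [map_zsmul, Finsupp.smul_apply, smul_eq_mul, mul_comm, Module.Basis.toMatrix_apply,
      Module.Basis.toMatrix_apply]
    rfl
  have h2 : (b.toMatrix v).det = (b.toMatrix (Subtype.val ∘ bI)).det * (bI.toMatrix w).det := by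
    rw [h1, Matrix.det_mul]
  have h3 := Ideal.natAbs_det_basis_change b I bI
  rw [Module.Basis.det_apply] at h3
  have h4 : (bI.toMatrix w).det ≠ 0 := by
    intro h
    rw [h, mul_zero] at h2
    exact hdet h2
  have h5 : 1 ≤ |(bI.toMatrix w).det| := Int.one_le_abs h4
  rw [h2, abs_mul, ← h3, Int.natCast_natAbs]
  have h6 := abs_nonneg (b.toMatrix (Subtype.val ∘ bI)).det
  nlinarith

theorem prod_sq (n M : ℕ) : (∏ j : Fin n, M ^ (n - 1 - (j : ℕ))) ^ 2 = M ^ (n * (n - 1)) := by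
  rw [Finset.prod_pow_eq_pow_sum, ← pow_mul]
  congr 1
  rw [Fin.sum_univ_eq_sum_range (fun i => n - 1 - i) n, Finset.sum_range_reflect (fun i => i) n,
    Finset.sum_range_id_mul_two]

theorem disc_bound2 {n : ℕ} (hn : Module.finrank ℚ K = n) (z : 𝓞 K)
    (hz : ℚ⟮(z : K)⟯ = ⊤) (M : ℕ) (hM : 1 ≤ M) (J : Ideal (𝓞 K)) (hzJ : z ∈ J)
    (hMJ : (M : 𝓞 K) ∈ J) {B : ℝ} (hw : ∀ w : InfinitePlace K, w (z : K) ≤ B) :
    |(discr K : ℝ)| * (Ideal.absNorm J : ℝ) ^ (2 * (n - 1)) ≤
      (M : ℝ) ^ (n * (n - 1)) * (2 * B) ^ (n * (n - 1)) := by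
  have hint : IsIntegral ℚ (z : K) := Algebra.IsIntegral.isIntegral _
  have htop : Algebra.adjoin ℚ {(z : K)} = ⊤ := by
    rw [← IntermediateField.adjoin_simple_toSubalgebra_of_isAlgebraic hint.isAlgebraic, hz]
    rfl
  let pb : PowerBasis ℚ K := PowerBasis.ofAdjoinEqTop' hint htop
  have hgen : pb.gen = z := PowerBasis.ofAdjoinEqTop'_gen hint htop
  have hdim : pb.dim = n := by rw [← pb.finrank, hn]
  -- the integer matrix
  have hc : Fintype.card (Module.Free.ChooseBasisIndex ℤ (𝓞 K)) = pb.dim := by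
    rw [← Module.finrank_eq_card_basis (RingOfIntegers.basis K), RingOfIntegers.rank, pb.finrank]
  let e : Module.Free.ChooseBasisIndex ℤ (𝓞 K) ≃ Fin pb.dim := Fintype.equivFinOfCardEq hc
  let b : Module.Basis (Fin pb.dim) ℚ K := (integralBasis K).reindex e
  let bZ : Module.Basis (Fin pb.dim) ℤ (𝓞 K) := (RingOfIntegers.basis K).reindex e
  set Mt : Matrix (Fin pb.dim) (Fin pb.dim) ℤ := bZ.toMatrix (fun j => z ^ (j : ℕ)) with hMt
  have hM1 : b.toMatrix pb.basis = Mt.map (Int.castRingHom ℚ) := by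
    ext i j
    rw [Module.Basis.toMatrix_apply, pb.coe_basis, hgen, Matrix.map_apply, hMt,
      Module.Basis.toMatrix_apply]
    change ((integralBasis K).reindex e).repr ((z : K) ^ (j : ℕ)) i =
      (((((RingOfIntegers.basis K).reindex e).repr (z ^ (j : ℕ))) i : ℤ) : ℚ)
    rw [Module.Basis.repr_reindex_apply, Module.Basis.repr_reindex_apply]
    have h1 := integralBasis_repr_apply K (z ^ (j : ℕ)) (e.symm i)
    rw [map_pow] at h1
    exact h1
  have h1 : Algebra.discr ℚ pb.basis = (Mt.det : ℚ) ^ 2 * (discr K : ℚ) := by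
    have h2 := Algebra.discr_of_matrix_vecMul (A := ℚ) (b : Fin pb.dim → K)
      (b.toMatrix pb.basis)
    rw [Module.Basis.toMatrix_map_vecMul] at h2
    rw [h2, hM1]
    have h3 : (Mt.map (Int.castRingHom ℚ)).det = (Mt.det : ℚ) := by
      have := (RingHom.map_det (Int.castRingHom ℚ) Mt)
      rw [RingHom.mapMatrix_apply] at this
      rw [← this]
      rfl
    have h4 : Algebra.discr ℚ (b : Fin pb.dim → K) = (discr K : ℚ) := by
      rw [coe_discr]
      have := Algebra.discr_reindex ℚ (integralBasis K) e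
      rw [← this]
      congr 1
      exact Module.Basis.coe_reindex _ _
    rw [h3, h4]
  have hne : Mt.det ≠ 0 := by
    intro h0
    have h2 := Algebra.discr_not_zero_of_basis ℚ pb.basis
    rw [h1, h0] at h2
    simp at h2
  -- the lattice in the ideal
  have hlat : ((Ideal.absNorm J : ℝ)) ^ (2 * (n - 1)) ≤
      (Mt.det : ℝ) ^ 2 * (M : ℝ) ^ (n * (n - 1)) := by
    set v : Fin pb.dim → 𝓞 K := fun j => ((M ^ (n - 1 - (j : ℕ)) : ℕ) : ℤ) • z ^ (j : ℕ) with hv
    have hvm : bZ.toMatrix v =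
        Matrix.of fun (i j : Fin pb.dim) => ((M ^ (n - 1 - (j : ℕ)) : ℕ) : ℤ) * Mt i j := by
      ext i j
      rw [Module.Basis.toMatrix_apply, Matrix.of_apply, hMt, Module.Basis.toMatrix_apply, hv]
      simp only [map_zsmul, Finsupp.smul_apply, smul_eq_mul]
    have hdet : (bZ.toMatrix v).det =
        (∏ j : Fin pb.dim, ((M ^ (n - 1 - (j : ℕ)) : ℕ) : ℤ)) * Mt.det := by
      rw [hvm, Matrix.det_mul_row]
    have hprod : (∏ j : Fin pb.dim, ((M ^ (n - 1 - (j : ℕ)) : ℕ) : ℤ)) ≠ 0 := by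
      rw [Finset.prod_ne_zero_iff]
      intro j _
      have : 0 < M ^ (n - 1 - (j : ℕ)) := pow_pos (by omega) _
      exact_mod_cast this.ne'
    have hJ0 : J ≠ ⊥ := by
      rintro rfl
      rw [Ideal.mem_bot] at hMJ
      have : M = 0 := by exact_mod_cast hMJ
      omega
    have hvI : ∀ j, v j ∈ J ^ (n - 1) := by
      intro j
      have hj : (j : ℕ) ≤ n - 1 := by
        have := j.2
        omega
      have e1 : v j = (M : 𝓞 K) ^ (n - 1 - (j : ℕ)) * z ^ (j : ℕ) := by
        rw [hv]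
        simp only [zsmul_eq_mul]
        push_cast
        ring
      have e2 : J ^ (n - 1) = J ^ (n - 1 - (j : ℕ)) * J ^ (j : ℕ) := by
        rw [← pow_add]
        congr 1
        omega
      rw [e1, e2]
      exact Ideal.mul_mem_mul (Ideal.pow_mem_pow hMJ _) (Ideal.pow_mem_pow hzJ _)
    have h5 := index_ge bZ (J ^ (n - 1)) (pow_ne_zero _ hJ0) v hvI (by
      rw [hdet]
      exact mul_ne_zero hprod hne)
    rw [hdet, map_pow] at h5
    have h6 : ((Ideal.absNorm J : ℝ)) ^ (n - 1) ≤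
        |(∏ j : Fin pb.dim, ((M ^ (n - 1 - (j : ℕ)) : ℕ) : ℝ)) * (Mt.det : ℝ)| := by
      exact_mod_cast h5
    have h7 := pow_le_pow_left₀ (by positivity) h6 2
    rw [sq_abs, mul_pow, ← pow_mul, mul_comm (n - 1) 2] at h7
    have h8 : (∏ j : Fin pb.dim, ((M ^ (n - 1 - (j : ℕ)) : ℕ) : ℝ)) ^ 2 = (M : ℝ) ^ (n * (n - 1)) := by
      have := prod_sq n M
      rw [← hdim] at this ⊢
      exact_mod_cast this
    rw [h8] at h7
    linarith
  have hDp : |(discr K : ℝ)| * (Mt.det : ℝ) ^ 2 ≤ (2 * B) ^ (n * (n - 1)) := by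
    generalize Mt.det = m at h1
    have h3 : ‖algebraMap ℚ ℂ (Algebra.discr ℚ pb.basis)‖ =
        (m : ℝ) ^ 2 * |(discr K : ℝ)| := by
      rw [h1]
      have e1 : algebraMap ℚ ℂ ((m : ℚ) ^ 2 * (discr K : ℚ)) =
          (((m : ℝ) ^ 2 * (discr K : ℝ) : ℝ) : ℂ) := by
        rw [eq_ratCast]
        push_cast
        rfl
      rw [e1, Complex.norm_real, Real.norm_eq_abs, abs_mul, abs_pow, sq_abs]
    rw [mul_comm, ← h3]
    have hcard : Fintype.card (K →ₐ[ℚ] ℂ) = pb.dim := by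
      rw [AlgHom.card, pb.finrank]
    let f : Fin pb.dim ≃ (K →ₐ[ℚ] ℂ) := (Fintype.equivFinOfCardEq hcard).symm
    rw [Algebra.discr_powerBasis_eq_prod ℚ ℂ pb f, norm_prod]
    have hconj : ∀ i, ‖f i pb.gen‖ ≤ B := by
      intro i
      rw [hgen]
      have := hw (InfinitePlace.mk ((f i : K →ₐ[ℚ] ℂ) : K →+* ℂ))
      rw [InfinitePlace.apply] at this
      exact this
    calc ∏ i : Fin pb.dim, ‖∏ j ∈ Finset.Ioi i, (f j pb.gen - f i pb.gen) ^ 2‖
        ≤ ∏ i : Fin pb.dim, (2 * B) ^ (2 * (Finset.Ioi i).card) := by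
          refine Finset.prod_le_prod (fun i _ => norm_nonneg _) fun i _ => ?_
          rw [norm_prod]
          calc ∏ j ∈ Finset.Ioi i, ‖(f j pb.gen - f i pb.gen) ^ 2‖
              ≤ ∏ j ∈ Finset.Ioi i, (2 * B) ^ 2 := by
                refine Finset.prod_le_prod (fun j _ => norm_nonneg _) fun j _ => ?_
                rw [norm_pow]
                have h3 : ‖f j pb.gen - f i pb.gen‖ ≤ 2 * B := by
                  refine (norm_sub_le _ _).trans ?_
                  linarith [hconj i, hconj j]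
                exact pow_le_pow_left₀ (norm_nonneg _) h3 2
            _ = (2 * B) ^ (2 * (Finset.Ioi i).card) := by
                rw [Finset.prod_const, ← pow_mul]
      _ = (2 * B) ^ (n * (n - 1)) := by
          rw [Finset.prod_pow_eq_pow_sum, sum_card_Ioi, hdim]
  have hMp : (0 : ℝ) < (M : ℝ) ^ (n * (n - 1)) := by
    have : (0 : ℝ) < M := by exact_mod_cast hM
    positivity
  calc |(discr K : ℝ)| * (Ideal.absNorm J : ℝ) ^ (2 * (n - 1))
      ≤ |(discr K : ℝ)| * ((Mt.det : ℝ) ^ 2 * (M : ℝ) ^ (n * (n - 1))) := by gcongr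
    _ = (|(discr K : ℝ)| * (Mt.det : ℝ) ^ 2) * (M : ℝ) ^ (n * (n - 1)) := by ring
    _ ≤ (2 * B) ^ (n * (n - 1)) * (M : ℝ) ^ (n * (n - 1)) := by gcongr
    _ = _ := by ring

end Pool.Agent.Q122.TF
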