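import Mathlib

/-! An integer divisible by exactly one prime over `q`, of degree one and unramified, generates. -/

set_option autoImplicit false

namespace Pool.Agent.Q122.TF

open NumberField Finset IntermediateField
open scoped Classical nonZeroDivisors

variable {K : Type} [Field K] [NumberField K]

theorem gen_top (z : 𝓞 K) (Q R J : Ideal (𝓞 K)) {q l : ℕ} (hq : q.Prime)
    (hl : 1 ≤ l) (hQ : Ideal.absNorm Q = q)
    (hQR : Q * R = Ideal.span {((q : ℕ) : 𝓞 K)}) (hQR' : ¬ Q ∣ R)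
    (hJ : Nat.Coprime (Ideal.absNorm J) q)
    (hz : Ideal.span {z} = Q ^ l * J) : ℚ⟮(z : K)⟯ = ⊤ := by
  have hQp : Q.IsPrime := Ideal.isPrime_of_irreducible_absNorm (by rw [hQ]; exact hq)
  have hQ0 : Q ≠ ⊥ := by
    rintro rfl
    rw [Ideal.absNorm_bot] at hQ
    exact hq.ne_zero hQ.symm
  have hQm : Q.IsMaximal := hQp.isMaximal hQ0
  have hn0 : NumberField ℚ⟮(z : K)⟯ := of_intermediateField _
  have hint : IsIntegral ℤ (AdjoinSimple.gen ℚ (z : K)) := by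
    rw [← isIntegral_algebraMap_iff (algebraMap ℚ⟮(z : K)⟯ K).injective]
    exact RingOfIntegers.isIntegral_coe z
  let zF : 𝓞 ℚ⟮(z : K)⟯ := ⟨AdjoinSimple.gen ℚ (z : K), hint⟩
  have hzF : algebraMap (𝓞 ℚ⟮(z : K)⟯) (𝓞 K) zF = z := by
    apply RingOfIntegers.ext
    rfl
  set I := (Q.comap (algebraMap (𝓞 ℚ⟮(z : K)⟯) (𝓞 K))).map
    (algebraMap (𝓞 ℚ⟮(z : K)⟯) (𝓞 K)) with hI
  have hzQ : z ∈ Q := by
    have h1 : Ideal.span {z} ≤ Q := by
      rw [hz]
      exact Ideal.mul_le_left.trans (Ideal.pow_le_self (n := l) (by omega))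
    exact h1 (Ideal.mem_span_singleton_self z)
  have hzI : z ∈ I := by
    rw [← hzF]
    apply Ideal.mem_map_of_mem
    rw [Ideal.mem_comap, hzF]
    exact hzQ
  have hqQ : ((q : ℕ) : 𝓞 K) ∈ Q := by
    rw [← hQ]
    exact Ideal.absNorm_mem Q
  have hqI : ((q : ℕ) : 𝓞 K) ∈ I := by
    have h1 : algebraMap (𝓞 ℚ⟮(z : K)⟯) (𝓞 K) ((q : ℕ) : 𝓞 ℚ⟮(z : K)⟯) = ((q : ℕ) : 𝓞 K) :=
      map_natCast _ _
    rw [← h1]
    apply Ideal.mem_map_of_mem
    rw [Ideal.mem_comap, h1]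
    exact hqQ
  have hIz : I ∣ Q ^ l * J := by
    rw [← hz, Ideal.dvd_iff_le, Ideal.span_le, Set.singleton_subset_iff]
    exact hzI
  have hIq : I ∣ Q * R := by
    rw [hQR, Ideal.dvd_iff_le, Ideal.span_le, Set.singleton_subset_iff]
    exact hqI
  have hcop : IsCoprime I R := by
    rw [Ideal.isCoprime_iff_sup_eq]
    by_contra hne
    obtain ⟨M, hM, hle⟩ := Ideal.exists_le_maximal _ hne
    have hIM : I ≤ M := le_sup_left.trans hle
    have hRM : R ≤ M := le_sup_right.trans hle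
    have h1 : M ∣ Q ^ l * J := (Ideal.dvd_iff_le.mpr hIM).trans hIz
    have hqM : ((q : ℕ) : 𝓞 K) ∈ M := hIM hqI
    have hM0 : M ≠ ⊥ := by
      rintro rfl
      rw [Ideal.mem_bot] at hqM
      exact hq.ne_zero (by exact_mod_cast hqM)
    have hMp : Prime M := Ideal.prime_of_isPrime hM0 hM.isPrime
    rcases hMp.dvd_or_dvd h1 with h2 | h2
    · have h3 : Q ≤ M := Ideal.le_of_dvd (hMp.dvd_of_dvd_pow h2)
      have h4 : Q = M := hQm.eq_of_le hM.ne_top h3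
      rw [← h4] at hRM
      exact hQR' (Ideal.dvd_iff_le.mpr hRM)
    · have h4 : Ideal.absNorm M ∣ Ideal.absNorm J :=
        Ideal.absNorm_dvd_absNorm_of_le (Ideal.le_of_dvd h2)
      have h5 : Ideal.absNorm M ∣ q ^ Module.finrank ℤ (𝓞 K) := by
        rw [← Ideal.absNorm_span_natCast]
        refine Ideal.absNorm_dvd_absNorm_of_le ?_
        rw [Ideal.span_le, Set.singleton_subset_iff]
        exact hqM
      have h6 : Nat.Coprime (Ideal.absNorm J) (q ^ Module.finrank ℤ (𝓞 K)) :=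
        Nat.Coprime.pow_right _ hJ
      have h7 : Ideal.absNorm M = 1 := Nat.eq_one_of_dvd_coprimes h6 h4 h5
      exact hM.ne_top (Ideal.absNorm_eq_one_iff.mp h7)
  have hIQ : I ∣ Q := hcop.dvd_of_dvd_mul_right hIq
  have hQI : Q ∣ I := by
    rw [Ideal.dvd_iff_le]
    exact Ideal.map_comap_le
  have hIeq : I = Q := dvd_antisymm hIQ hQI
  set d := Module.finrank (𝓞 ℚ⟮(z : K)⟯) (𝓞 K) with hd
  have h1 : q = Ideal.absNorm (Q.comap (algebraMap (𝓞 ℚ⟮(z : K)⟯) (𝓞 K))) ^ d := by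
    have h0 := Ideal.absNorm_algebraMap (𝓞 ℚ⟮(z : K)⟯) (𝓞 K)
      (Q.comap (algebraMap (𝓞 ℚ⟮(z : K)⟯) (𝓞 K)))
    rw [← hI, hIeq, hQ] at h0
    exact h0
  have h2 : d = 1 := by
    have h3 : d ≠ 0 := by
      intro h0
      rw [h0, pow_zero] at h1
      exact hq.one_lt.ne' h1
    by_contra h4
    have h5 : 2 ≤ d := by omega
    rw [h1] at hq
    exact Nat.Prime.not_prime_pow h5 hq
  have h3 : (2 : ℕ) ^ Module.finrank ℚ K = 2 ^ Module.finrank ℚ ℚ⟮(z : K)⟯ := by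
    have h4 := Ideal.absNorm_algebraMap (𝓞 ℚ⟮(z : K)⟯) (𝓞 K)
      (Ideal.span {((2 : ℕ) : 𝓞 ℚ⟮(z : K)⟯)})
    rw [Ideal.map_span, Set.image_singleton, map_natCast, Ideal.absNorm_span_natCast,
      Ideal.absNorm_span_natCast, RingOfIntegers.rank, RingOfIntegers.rank, ← hd, h2, pow_one] at h4
    exact h4
  have h4 : Module.finrank ℚ K = Module.finrank ℚ ℚ⟮(z : K)⟯ := Nat.pow_right_injective le_rfl h3
  have h5 := Module.finrank_mul_finrank ℚ ℚ⟮(z : K)⟯ K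
  rw [h4] at h5
  have h6 : 0 < Module.finrank ℚ ℚ⟮(z : K)⟯ := Module.finrank_pos
  have h7 : Module.finrank ℚ⟮(z : K)⟯ K = 1 := by
    have : Module.finrank ℚ ℚ⟮(z : K)⟯ * Module.finrank ℚ⟮(z : K)⟯ K =
        Module.finrank ℚ ℚ⟮(z : K)⟯ * 1 := by rw [h5, mul_one]
    exact Nat.eq_of_mul_eq_mul_left h6 this
  exact IntermediateField.finrank_eq_one_iff_eq_top.mp h7

end Pool.Agent.Q122.TF
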