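import Pool.Agent.Q122.TF.Disc2
import Pool.Agent.Q122.TF.Gt
import Pool.Agent.TH847.LG.EV
import Pool.Agent.TH847.LS.Mer

/-! Torsion classes and products of small primes. -/

set_option autoImplicit false

namespace Pool.Agent.Q122.TF

open NumberField Finset Pool.Agent.TH847.LS Pool.Agent.TH847.LG NumberField.InfinitePlace
  IntermediateField
open scoped Classical nonZeroDivisors

variable {K : Type} [Field K] [NumberField K]

/-- the weighted count of ideals -/
noncomputable def WW (K : Type) [Field K] [NumberField K] (n N : ℕ) : ℝ :=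
  ∑ J ∈ FI K N, (1 + Real.log ((N : ℝ) / Ideal.absNorm J)) ^ n

theorem W_le (n : ℕ) (hn2 : 2 ≤ n) : ∃ C : ℝ, 0 < C ∧ ∀ (K : Type) [Field K] [NumberField K],
    Module.finrank ℚ K = n → ∃ N : ℕ, 2 ^ n * √|(discr K : ℝ)| < N ∧
    WW K n N ≤ C * √|(discr K : ℝ)| * (Real.log |(discr K : ℝ)|) ^ n := by
  obtain ⟨C1, hC10, hC1⟩ := sum_inv_card
  refine ⟨(2 * n : ℝ) ^ n * 2 ^ (n + 1) * Real.exp (3 * n) * Real.exp (n * C1) * (n + 4) ^ n,
    by positivity, ?_⟩
  intro K _ _ hn
  have hD2 : (3 : ℝ) ≤ |(discr K : ℝ)| := by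
    have := abs_discr_gt_two (K := K) (by rw [hn]; omega)
    have h3 : 3 ≤ |discr K| := by omega
    exact_mod_cast h3
  set D : ℝ := |(discr K : ℝ)| with hD
  have hs1 : 1 ≤ √D := by
    rw [Real.one_le_sqrt]; linarith
  set X : ℝ := 2 ^ n * √D with hX
  have hX1 : 1 ≤ X := by
    have : (1 : ℝ) ≤ 2 ^ n := one_le_pow₀ (by norm_num)
    nlinarith
  set N := ⌊X⌋₊ + 1 with hN
  have hN1 : X < N := by
    rw [hN]; push_cast; exact Nat.lt_floor_add_one _
  have hN2 : (N : ℝ) ≤ 2 ^ (n + 1) * √D := by
    rw [hN]; push_cast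
    have := Nat.floor_le (show 0 ≤ X by linarith)
    rw [pow_succ]
    nlinarith
  have hNr : (0 : ℝ) < N := by linarith
  refine ⟨N, hN1, ?_⟩
  have hlD : 1 ≤ Real.log D := by
    rw [Real.le_log_iff_exp_le (by linarith)]
    have := Real.exp_one_lt_d9
    linarith
  have h1 : WW K n N ≤ (2 * n : ℝ) ^ n * (N * SK K N) := by
    rw [WW, SK, Finset.mul_sum, Finset.mul_sum]
    refine Finset.sum_le_sum fun J hJ => ?_
    rw [mem_FI] at hJ
    have h4 : (0 : ℝ) < Ideal.absNorm J := by exact_mod_cast absNorm_pos hJ.2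
    have h5 : 1 ≤ (N : ℝ) / Ideal.absNorm J := by
      rw [le_div_iff₀ h4, one_mul]
      exact_mod_cast hJ.1
    refine (log_pow_le (by omega) h5).trans ?_
    refine mul_le_mul_of_nonneg_left ?_ (by positivity)
    rw [Real.sqrt_le_left (by positivity), mul_one_div]
    nlinarith
  have h2 : EE K n N ≤ Real.exp (n * C1) * ((n + 4) * Real.log D) ^ n := by
    unfold EE
    have h3 := hC1 (TT K N) (fun p hp => (mem_TT.1 hp).1.2)
    have h4 : ((TT K N).card : ℝ) ≤ N := by
      have : (TT K N).card ≤ (Finset.Icc 1 N).card := by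
        apply Finset.card_le_card
        intro p hp
        rw [mem_TT] at hp
        rw [Finset.mem_Icc]
        exact ⟨hp.1.2.one_le, hp.1.1⟩
      rw [Nat.card_Icc] at this
      exact_mod_cast this
    have h5 : Real.log ((TT K N).card + 2) ≤ (n + 4) * Real.log D := by
      have h6 : ((TT K N).card : ℝ) + 2 ≤ D ^ (n + 4) := by
        have h7 : √D ≤ D := by
          rw [Real.sqrt_le_left (by linarith)]
          nlinarith
        have h8 : (2 : ℝ) ^ (n + 1) ≤ D ^ (n + 1) := by
          apply pow_le_pow_left₀ (by norm_num); linarith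
        calc ((TT K N).card : ℝ) + 2 ≤ 2 ^ (n + 1) * √D + 2 := by linarith
          _ ≤ D ^ (n + 1) * D + 2 := by gcongr
          _ = D ^ (n + 2) + 2 := by ring
          _ ≤ D ^ (n + 2) * D ^ 2 := by
              have h9 : 1 ≤ D ^ (n + 2) := one_le_pow₀ (by linarith)
              have h10 : 9 ≤ D ^ 2 := by nlinarith
              have h11 : D ^ (n + 2) * 9 ≤ D ^ (n + 2) * D ^ 2 :=
                mul_le_mul_of_nonneg_left h10 (by linarith)
              linarith
          _ = _ := by ring
      have h7 := Real.log_le_log (by positivity) h6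
      rw [Real.log_pow] at h7
      push_cast at h7
      exact h7
    have h6 : 0 < Real.log ((TT K N).card + 2) := by
      apply Real.log_pos
      have : (0 : ℝ) ≤ (TT K N).card := by positivity
      linarith
    calc Real.exp (n * ∑ p ∈ TT K N, 1 / (p : ℝ))
        ≤ Real.exp (n * (Real.log (Real.log ((TT K N).card + 2)) + C1)) := by
          apply Real.exp_le_exp.mpr
          gcongr
      _ = Real.exp (n * C1) * (Real.log ((TT K N).card + 2)) ^ n := by
          rw [mul_add, Real.exp_add, Real.exp_nat_mul (Real.log (Real.log _)),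
            Real.exp_log h6, mul_comm]
      _ ≤ _ := by gcongr
  have h3 := SK_le hn N
  calc WW K n N ≤ (2 * n : ℝ) ^ n * (N * SK K N) := h1
    _ ≤ (2 * n : ℝ) ^ n * ((2 ^ (n + 1) * √D) * (Real.exp (3 * n) *
          (Real.exp (n * C1) * ((n + 4) * Real.log D) ^ n))) := by
        have h4 : SK K N ≤ Real.exp (3 * n) *
            (Real.exp (n * C1) * ((n + 4) * Real.log D) ^ n) :=
          h3.trans (mul_le_mul_of_nonneg_left h2 (Real.exp_pos _).le)
        have h5 : 0 ≤ SK K N := by
          unfold SK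
          exact Finset.sum_nonneg fun _ _ => by positivity
        gcongr
    _ = _ := by
        rw [mul_pow ((n : ℝ) + 4)]
        ring

/-- the trivial bound -/
theorem tor_trivial {n : ℕ} (hn : Module.finrank ℚ K = n) (N l : ℕ)
    (hN : 2 ^ n * √|(discr K : ℝ)| < N) :
    (Nat.card {c : ClassGroup (𝓞 K) // c ^ l = 1} : ℝ) ≤ WW K n N := by
  refine le_trans ?_ (class_le_n hn N hN)
  exact_mod_cast Nat.card_le_card_of_injective _ Subtype.val_injective

/-- torsion classes and products of `j` different primes from a set -/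
theorem ev2 {n : ℕ} (hn : Module.finrank ℚ K = n) (hn2 : 2 ≤ n) {l : ℕ} (hl : 1 ≤ l) (N : ℕ)
    (hN : 2 ^ n * √|(discr K : ℝ)| < N) (S : Finset ℕ) (j y : ℕ)
    (hS : ∀ p ∈ S, p.Prime ∧ ¬ p ∣ (discr K).natAbs ∧ ∃ P : Ideal (𝓞 K), Ideal.absNorm P = p)
    (hy : ∀ U ∈ S.powersetCard j, ∏ p ∈ U, p ≤ y)
    (hD : (2 * 150 ^ l) ^ (n * (n - 1)) * y ^ (2 * l * (n - 1)) < (discr K).natAbs) :
    ((S.card.choose j : ℕ) : ℝ) * (Nat.card {c : ClassGroup (𝓞 K) // c ^ l = 1} : ℝ) ≤
      WW K n N := by
  have hn0 : 0 < n := by omega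
  have hnr : (0 : ℝ) < n := by exact_mod_cast hn0
  have hlr : (1 : ℝ) ≤ l := by exact_mod_cast hl
  have hQex : ∀ p : ℕ, ∃ Q R : Ideal (𝓞 K), p ∈ S → (Q * R = Ideal.span {((p : ℕ) : 𝓞 K)} ∧
      Ideal.absNorm Q = p ∧ Ideal.absNorm R = p ^ (n - 1) ∧ ¬ Q ∣ R ∧ Q ≠ ⊥ ∧ R ≠ ⊥) := by
    intro p
    by_cases hp : p ∈ S
    · obtain ⟨hpp, hpD, P, hP⟩ := hS p hp
      obtain ⟨P', J, _, h1, h2, h3⟩ := cofactorn hn hpp hP
      refine ⟨P', J, fun _ => ⟨h1, h2, h3, ?_, nonZeroDivisors.coe_ne_zero P',
        nonZeroDivisors.coe_ne_zero J⟩⟩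
      intro hd
      exact hpD (dvd_discr_of_dvd hpp h2 h1 hd)
    · exact ⟨⊥, ⊥, fun h => absurd h hp⟩
  choose Q R hQR using hQex
  -- the products
  set PP : Finset ℕ → Ideal (𝓞 K) := fun U => ∏ p ∈ U, Q p with hPP
  set JJ : Finset ℕ → Ideal (𝓞 K) := fun U => ∏ p ∈ U, R p with hJJ
  set mm : Finset ℕ → ℕ := fun U => ∏ p ∈ U, p with hmm
  have hsub : ∀ U ∈ S.powersetCard j, U ⊆ S ∧ U.card = j := fun U hU =>
    Finset.mem_powersetCard.1 hU
  have hPPn : ∀ U, U ⊆ S → Ideal.absNorm (PP U) = mm U := by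
    intro U hU
    rw [hPP, hmm]
    simp only [map_prod]
    exact Finset.prod_congr rfl fun p hp => (hQR p (hU hp)).2.1
  have hJJn : ∀ U, U ⊆ S → Ideal.absNorm (JJ U) = mm U ^ (n - 1) := by
    intro U hU
    rw [hJJ, hmm]
    simp only [map_prod]
    rw [← Finset.prod_pow]
    exact Finset.prod_congr rfl fun p hp => (hQR p (hU hp)).2.2.1
  have hPJ : ∀ U, U ⊆ S → PP U * JJ U = Ideal.span {((mm U : ℕ) : 𝓞 K)} := by
    intro U hU
    rw [hPP, hJJ, hmm]
    simp only
    rw [← Finset.prod_mul_distrib, Finset.prod_congr rfl fun p hp => (hQR p (hU hp)).1,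
      Ideal.prod_span_singleton]
    push_cast
    rfl
  have hPP0 : ∀ U, U ⊆ S → PP U ≠ 0 := by
    intro U hU
    rw [hPP]
    simp only
    rw [Finset.prod_ne_zero_iff]
    exact fun p hp => (hQR p (hU hp)).2.2.2.2.1
  have hmm0 : ∀ U, U ⊆ S → 1 ≤ mm U := by
    intro U hU
    exact Finset.prod_pos fun p hp => (hS p (hU hp)).1.pos
  have hA : ∀ c : {c : ClassGroup (𝓞 K) // c ^ l = 1}, ∃ (A : (Ideal (𝓞 K))⁰)
      (γ : 𝓞 K), ClassGroup.mk0 A = c.1 ∧
      (A : Ideal (𝓞 K)) ^ l = Ideal.span {γ} ∧ γ ≠ 0 ∧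
      ∀ w : InfinitePlace K, |Lw w (γ : K)| ≤ 2 * l :=
    fun c => exists_rep hl c.1 c.2
  choose A γ hA1 hA2 hA3 hA4 using hA
  have key := pack hn N hN ({U // U ∈ S.powersetCard j} × {c : ClassGroup (𝓞 K) // c ^ l = 1})
    (fun i => A i.2 * ⟨PP i.1.1, mem_nonZeroDivisors_of_ne_zero
      (hPP0 i.1.1 (hsub i.1.1 i.1.2).1)⟩) (by
      rintro ⟨⟨U, hU⟩, c⟩ ⟨⟨V, hV⟩, c'⟩ a b ha hb hab hw
      obtain ⟨hU1, hU2⟩ := hsub U hU
      obtain ⟨hV1, hV2⟩ := hsub V hV
      simp only [Submonoid.coe_mul] at hab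
      have haK : (a : K) ≠ 0 := by exact_mod_cast ha
      have hbK : (b : K) ≠ 0 := by exact_mod_cast hb
      have hγK : (γ c : K) ≠ 0 := by exact_mod_cast hA3 c
      have hγK' : (γ c' : K) ≠ 0 := by exact_mod_cast hA3 c'
      set m := mm U with hm
      set m' := mm V with hm'
      have hm1 : 1 ≤ m := hmm0 U hU1
      have hm1' : 1 ≤ m' := hmm0 V hV1
      have hmy : m ≤ y := hy U hU
      have hmy' : m' ≤ y := hy V hV
      have hmK : ((m : ℕ) : K) ≠ 0 := by
        have : m ≠ 0 := by omega
        exact_mod_cast this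
      have hUV : U = V := by
        by_contra hne
        obtain ⟨q, hqV, hqU⟩ : ∃ q ∈ V, q ∉ U := by
          by_contra hcon
          push Not at hcon
          have hVU : V ⊆ U := hcon
          exact hne (Finset.eq_of_subset_of_card_le hVU (by omega)).symm
        have hqS := hV1 hqV
        have hqp := (hS q hqS).1
        -- the l-th power
        have e1 : Ideal.span {a ^ l * γ c'} * (PP V ^ l * JJ U ^ l) =
            Ideal.span {b ^ l * γ c * ((m : ℕ) : 𝓞 K) ^ l} := by
          have e2 := congrArg (fun I => I ^ l * JJ U ^ l) hab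
          simp only [mul_pow, Ideal.span_singleton_pow, hA2] at e2
          rw [← Ideal.span_singleton_mul_span_singleton, ← Ideal.span_singleton_mul_span_singleton,
            ← Ideal.span_singleton_mul_span_singleton, ← Ideal.span_singleton_pow ((m : ℕ) : 𝓞 K),
            hm, ← hPJ U hU1, mul_pow]
          calc _ = Ideal.span {a ^ l} * (Ideal.span {γ c'} * PP V ^ l) * JJ U ^ l := by ring
            _ = Ideal.span {b ^ l} * (Ideal.span {γ c} * PP U ^ l) * JJ U ^ l := e2
            _ = _ := by ring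
        have hden : a ^ l * γ c' ≠ 0 := mul_ne_zero (pow_ne_zero _ ha) (hA3 c')
        have hdvd : a ^ l * γ c' ∣ b ^ l * γ c * ((m : ℕ) : 𝓞 K) ^ l := by
          rw [← Ideal.span_singleton_le_span_singleton, ← e1]
          exact Ideal.mul_le_left
        obtain ⟨z, hz⟩ := hdvd
        have hzspan : Ideal.span {z} = PP V ^ l * JJ U ^ l := by
          rw [hz, ← Ideal.span_singleton_mul_span_singleton (a ^ l * γ c')] at e1
          have hne0 : Ideal.span {a ^ l * γ c'} ≠ (0 : Ideal (𝓞 K)) := by
            rw [Ne, Ideal.zero_eq_bot, Ideal.span_singleton_eq_bot]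
            exact hden
          exact (mul_left_cancel₀ hne0 e1).symm
        have hz0 : z ≠ 0 := by
          rintro rfl
          rw [mul_zero] at hz
          have : (b ^ l * γ c * ((m : ℕ) : 𝓞 K) ^ l) ≠ 0 := by
            refine mul_ne_zero (mul_ne_zero (pow_ne_zero _ hb) (hA3 c)) (pow_ne_zero _ ?_)
            have : m ≠ 0 := by omega
            exact_mod_cast this
          exact this hz
        have hzK : (z : K) ≠ 0 := by exact_mod_cast hz0
        -- z generates the field
        have htop : ℚ⟮(z : K)⟯ = ⊤ := by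
          obtain ⟨g1, g2, g3, g4, g5, g6⟩ := hQR q hqS
          refine gen_top z (Q q) (R q) ((∏ p ∈ V.erase q, Q p) ^ l * JJ U ^ l) hqp hl g2 g1 g4 ?_ ?_
          · rw [map_mul, map_pow, map_pow, hJJn U hU1]
            have hcop1 : Nat.Coprime (∏ p ∈ V.erase q, Ideal.absNorm (Q p)) q := by
              rw [Nat.coprime_prod_left_iff]
              intro p hp
              rw [(hQR p (hV1 (mem_of_mem_erase hp))).2.1,
                Nat.coprime_primes (hS p (hV1 (mem_of_mem_erase hp))).1 hqp]
              exact ne_of_mem_erase hp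
            have hcop2 : Nat.Coprime (mm U) q := by
              rw [hmm]
              simp only
              rw [Nat.coprime_prod_left_iff]
              intro p hp
              rw [Nat.coprime_primes (hS p (hU1 hp)).1 hqp]
              rintro rfl
              exact hqU hp
            rw [map_prod]
            exact Nat.Coprime.mul_left (hcop1.pow_left _) ((hcop2.pow_left _).pow_left _)
          · rw [hzspan, hPP]
            simp only
            rw [← Finset.mul_prod_erase V Q hqV, mul_pow, mul_assoc]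
        -- the norm of z
        have hnz : (Algebra.norm ℤ z).natAbs = m' ^ l * (m ^ (n - 1)) ^ l := by
          rw [← Ideal.absNorm_span_singleton, hzspan, map_mul, map_pow, map_pow,
            hPPn V hV1, hJJn U hU1]
        have hnz' : |((Algebra.norm ℚ (z : K) : ℚ) : ℝ)| =
            ((m' ^ l * (m ^ (n - 1)) ^ l : ℕ) : ℝ) := by
          rw [← Algebra.coe_norm_int, ← hnz, Nat.cast_natAbs]
          push_cast
          rfl
        set X : ℕ := m' ^ l * (m ^ (n - 1)) ^ l with hX
        have hX1 : 1 ≤ X := by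
          rw [hX]
          exact Nat.mul_pos (pow_pos hm1' _) (pow_pos (pow_pos hm1 _) _)
        have hXr : (0 : ℝ) < X := by exact_mod_cast hX1
        -- the size of z at the places
        have hLz : ∀ w : InfinitePlace K, Lw w (z : K) ≤ 5 * l := by
          intro w
          have h1 : Lw w ((a ^ l * γ c' * z : 𝓞 K) : K) =
              Lw w ((b ^ l * γ c * ((m : ℕ) : 𝓞 K) ^ l : 𝓞 K) : K) := by rw [hz]
          push_cast at h1
          rw [Lw_mul w (mul_ne_zero (pow_ne_zero _ haK) hγK') hzK,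
            Lw_mul w (pow_ne_zero _ haK) hγK', Lw_mul w (mul_ne_zero (pow_ne_zero _ hbK) hγK)
              (pow_ne_zero _ hmK), Lw_mul w (pow_ne_zero _ hbK) hγK, Lw_pow, Lw_pow, Lw_pow,
            Lw_natCast, mul_zero, add_zero] at h1
          have h2 := abs_lt.mp (hw w)
          have h3 := abs_le.mp (hA4 c w)
          have h4 := abs_le.mp (hA4 c' w)
          have h5 : (l : ℝ) * (Lw w (b : K) - Lw w (a : K)) ≤ l * 1 :=
            mul_le_mul_of_nonneg_left (by linarith) (by linarith)
          nlinarith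
        set B : ℝ := 150 ^ l * (X : ℝ) ^ ((n : ℝ)⁻¹) with hB
        have hB0 : 0 < B := by positivity
        have hwz : ∀ w : InfinitePlace K, w (z : K) ≤ B := by
          intro w
          have h1 := hLz w
          unfold Lw at h1
          rw [hnz', hn] at h1
          have h4 : Real.log (w (z : K)) ≤ Real.log B := by
            rw [hB, Real.log_mul (by positivity) (by positivity), Real.log_pow,
              Real.log_rpow hXr]
            have h5 : (5 : ℝ) ≤ Real.log 150 := by
              rw [Real.le_log_iff_exp_le (by norm_num)]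
              have h6 : Real.exp 1 < 2.7182818286 := Real.exp_one_lt_d9
              have h7 : Real.exp 5 = Real.exp 1 ^ 5 := by
                rw [← Real.exp_nat_mul]; norm_num
              rw [h7]
              have h8 : Real.exp 1 ^ 5 ≤ (2.7182818286 : ℝ) ^ 5 := by
                gcongr
              refine h8.trans ?_
              norm_num
            have h6 : (n : ℝ)⁻¹ * Real.log X = Real.log X / n := by
              rw [inv_mul_eq_div]
            rw [h6]
            nlinarith
          exact (Real.log_le_log_iff (w_pos w hzK) hB0).mp h4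
        have hMJ : ((m ^ l : ℕ) : 𝓞 K) ∈ JJ U ^ l := by
          push_cast
          apply Ideal.pow_mem_pow
          have : Ideal.span {((m : ℕ) : 𝓞 K)} ≤ JJ U := by
            rw [hm, ← hPJ U hU1]
            exact Ideal.mul_le_right
          exact this (Ideal.mem_span_singleton_self _)
        have hzJ : z ∈ JJ U ^ l := by
          have : Ideal.span {z} ≤ JJ U ^ l := by
            rw [hzspan]
            exact Ideal.mul_le_right
          exact this (Ideal.mem_span_singleton_self _)
        have hdb := disc_bound2 hn z htop (m ^ l) (Nat.one_le_pow _ _ hm1) (JJ U ^ l) hzJ hMJ hwz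
        rw [map_pow, hJJn U hU1, ← hm] at hdb
        -- comparison
        have hBn : (2 * B) ^ (n * (n - 1)) = (2 * 150 ^ l) ^ (n * (n - 1)) * (X : ℝ) ^ (n - 1) := by
          have e3 : ((X : ℝ) ^ ((n : ℝ)⁻¹)) ^ n = X := by
            rw [← Real.rpow_natCast, ← Real.rpow_mul hXr.le, inv_mul_cancel₀ hnr.ne',
              Real.rpow_one]
          rw [hB, ← mul_assoc, mul_pow (2 * 150 ^ l : ℝ), pow_mul ((X : ℝ) ^ ((n : ℝ)⁻¹)), e3]
        have hDr : |(discr K : ℝ)| = ((discr K).natAbs : ℝ) := by
          rw [Nat.cast_natAbs]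
          push_cast
          rfl
        rw [hBn, hDr] at hdb
        have hdb' : (discr K).natAbs * ((m ^ (n - 1)) ^ l) ^ (2 * (n - 1)) ≤
            (m ^ l) ^ (n * (n - 1)) * ((2 * 150 ^ l) ^ (n * (n - 1)) * X ^ (n - 1)) := by
          exact_mod_cast hdb
        obtain ⟨r, rfl⟩ : ∃ r, n = r + 1 := ⟨n - 1, by omega⟩
        simp only [Nat.add_sub_cancel] at hdb' hD hX
        have e4 : (m ^ l) ^ ((r + 1) * r) * ((2 * 150 ^ l) ^ ((r + 1) * r) * X ^ r) =
            ((2 * 150 ^ l) ^ ((r + 1) * r) * (m ^ (l * r) * m' ^ (l * r))) *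
              ((m ^ r) ^ l) ^ (2 * r) := by
          rw [hX, mul_pow (m' ^ l)]
          simp only [← pow_mul]
          have : (m ^ (l * ((r + 1) * r)) : ℕ) * m ^ (r * l * r) =
              m ^ (l * r) * m ^ (r * l * (2 * r)) := by
            rw [← pow_add, ← pow_add]
            congr 1
            ring
          calc _ = ((2 * 150 ^ l) ^ ((r + 1) * r) * m' ^ (l * r)) *
                (m ^ (l * ((r + 1) * r)) * m ^ (r * l * r)) := by ring
            _ = _ := by rw [this]; ring
        rw [e4] at hdb'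
        have h5 : (discr K).natAbs ≤ (2 * 150 ^ l) ^ ((r + 1) * r) * (m ^ (l * r) * m' ^ (l * r)) :=
          Nat.le_of_mul_le_mul_right hdb' (pow_pos (pow_pos (pow_pos hm1 _) _) _)
        have h6 : m ^ (l * r) * m' ^ (l * r) ≤ y ^ (2 * l * r) := by
          calc m ^ (l * r) * m' ^ (l * r) ≤ y ^ (l * r) * y ^ (l * r) := by gcongr
            _ = y ^ (2 * l * r) := by rw [← pow_add]; congr 1; ring
        have h7 := Nat.mul_le_mul_left ((2 * 150 ^ l) ^ ((r + 1) * r)) h6
        omega
      subst hUV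
      have hc : c = c' := by
        have hP0 : PP U ≠ 0 := hPP0 U hU1
        have e1 : Ideal.span {a} * (A c' : Ideal (𝓞 K)) =
            Ideal.span {b} * (A c : Ideal (𝓞 K)) := by
          rw [← mul_assoc, ← mul_assoc] at hab
          exact mul_right_cancel₀ hP0 hab
        have e2 : ClassGroup.mk0 (A c') = ClassGroup.mk0 (A c) := by
          rw [ClassGroup.mk0_eq_mk0_iff]
          exact ⟨a, b, ha, hb, e1⟩
        rw [hA1, hA1] at e2
        exact Subtype.ext e2.symm
      rw [hc])
  rw [Fintype.card_prod, Fintype.card_coe, Finset.card_powersetCard] at key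
  rw [Nat.card_eq_fintype_card]
  push_cast at key
  exact key

end Pool.Agent.Q122.TF
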