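import Pool.Agent.Q122.TF.MV2
import Pool.Agent.Q122.TF.Count

/-! The exceptional set: a large sum over the primes is large on many blocks. -/

set_option autoImplicit false

namespace Pool.Agent.Q122.TF

open Finset

theorem many_large {K : ℕ} (P : Fin K → Finset ℕ) (S : Finset ℕ) (m : ℕ) (η : ℝ)
    (hη : 0 < η) (hP : ∀ i, P i ⊆ S ∧ (P i).card = m)
    (hdisj : ∀ i j, i ≠ j → Disjoint (P i) (P j)) (hleft : S.card < K * m + K)
    (hK : 4 * (K : ℝ) ≤ η * S.card) (g : ℕ → ℂ) (hg : ∀ p ∈ S, ‖g p‖ ≤ 1)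
    (hbig : η * S.card ≤ ‖∑ p ∈ S, g p‖) :
    η / 2 * (K : ℝ) ≤ ((univ.filter (fun i : Fin K => η / 4 * m ≤ ‖∑ p ∈ P i, g p‖)).card : ℝ) := by
  classical
  set L := univ.filter (fun i : Fin K => η / 4 * m ≤ ‖∑ p ∈ P i, g p‖) with hL
  set U := univ.biUnion P with hU
  have hUS : U ⊆ S := by
    rw [hU, biUnion_subset]
    exact fun i _ => (hP i).1
  have hUc : U.card = K * m := by
    rw [hU, card_biUnion (fun i _ j _ hij => hdisj i j hij), sum_congr rfl fun i _ => (hP i).2,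
      sum_const, card_univ, Fintype.card_fin, smul_eq_mul]
  have hsum : ∑ p ∈ S, g p = ∑ i, ∑ p ∈ P i, g p + ∑ p ∈ S \ U, g p := by
    rw [← sum_sdiff hUS, add_comm, hU,
      sum_biUnion (fun i _ j _ hij => hdisj i j hij)]
  have hR : ‖∑ p ∈ S \ U, g p‖ ≤ K := by
    calc ‖∑ p ∈ S \ U, g p‖ ≤ ∑ p ∈ S \ U, (1 : ℝ) :=
          (norm_sum_le _ _).trans (sum_le_sum fun p hp => hg p (mem_sdiff.1 hp).1)
      _ = ((S \ U).card : ℝ) := by simp
      _ ≤ K := by
          rw [card_sdiff_of_subset hUS, hUc]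
          exact_mod_cast (by omega)
  have hm : ∀ i, ‖∑ p ∈ P i, g p‖ ≤ (if i ∈ L then (m : ℝ) else 0) + η / 4 * m := by
    intro i
    by_cases h : i ∈ L
    · rw [if_pos h]
      calc ‖∑ p ∈ P i, g p‖ ≤ ∑ p ∈ P i, (1 : ℝ) :=
            (norm_sum_le _ _).trans (sum_le_sum fun p hp => hg p ((hP i).1 hp))
        _ = ((P i).card : ℝ) := by simp
        _ = m := by rw [(hP i).2]
        _ ≤ _ := by
            have : 0 ≤ η / 4 * m := by positivity
            linarith
    · rw [if_neg h, zero_add]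
      rw [hL, mem_filter] at h
      have : ¬ (η / 4 * m ≤ ‖∑ p ∈ P i, g p‖) := fun h' => h ⟨mem_univ _, h'⟩
      exact (not_le.1 this).le
  have h1 : ‖∑ i, ∑ p ∈ P i, g p‖ ≤ L.card * m + K * (η / 4 * m) := by
    calc ‖∑ i, ∑ p ∈ P i, g p‖ ≤ ∑ i, ((if i ∈ L then (m : ℝ) else 0) + η / 4 * m) :=
          (norm_sum_le _ _).trans (sum_le_sum fun i _ => hm i)
      _ = _ := by
          rw [sum_add_distrib, ← sum_filter, sum_const, sum_const, card_univ, Fintype.card_fin,
            nsmul_eq_mul, nsmul_eq_mul]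
          congr 3
          simp
  have hKm : (K : ℝ) * m ≤ S.card := by
    have h0 := card_le_card hUS
    rw [hUc] at h0
    exact_mod_cast h0
  have h2 : η * S.card ≤ L.card * m + K * (η / 4 * m) + K := by
    calc η * S.card ≤ ‖∑ p ∈ S, g p‖ := hbig
      _ ≤ ‖∑ i, ∑ p ∈ P i, g p‖ + ‖∑ p ∈ S \ U, g p‖ := by
          rw [hsum]
          exact norm_add_le _ _
      _ ≤ _ := by linarith
  have hmr : (0 : ℝ) ≤ m := by positivity
  rcases Nat.eq_zero_or_pos m with h0 | h0
  · -- impossible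
    have h3 : S.card < K := by
      rw [h0] at hleft
      simpa using hleft
    have h4 : (S.card : ℝ) < K := by exact_mod_cast h3
    have h5 : η * S.card ≤ K := by
      rw [h0] at h2
      simpa using h2
    have h6 : (0 : ℝ) < K := by
      have : (0 : ℝ) ≤ S.card := by positivity
      linarith
    linarith
  · have hm0 : (0 : ℝ) < m := by exact_mod_cast h0
    have h3 : η * (K * m) ≤ η * S.card := mul_le_mul_of_nonneg_left hKm hη.le
    have h4 : (η / 2 * K) * m ≤ L.card * m := by nlinarith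
    exact le_of_mul_le_mul_right h4 hm0

/-- the exceptional set -/
theorem exc4 (G : ℕ → ℤ → ℂ) (D η Λ : ℝ) (N T k : ℕ) (A : ℤ) (S : Finset ℕ) (hN : 1 ≤ N)
    (hk : 1 ≤ k) (hη : 0 < η) (hη1 : η ≤ 1) (hΛ0 : 0 ≤ Λ) (hNT : N ^ (2 * k) ≤ T)
    (hS : ∀ p ∈ S, p.Prime ∧ p ≤ N) (hΛ : ∑ p ∈ S, 1 / (p : ℝ) ≤ Λ)
    (hper : ∀ p ∈ S, ∀ n : ℤ, G p (n + p) = G p n)
    (hb : ∀ p ∈ S, ∀ n, ‖G p n‖ ≤ 1)
    (hs : ∀ p ∈ S, ‖∑ x ∈ range p, G p x‖ ≤ D * √p)
    (hcard : 12 * (k : ℝ) ≤ η ^ 2 * S.card) :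
    (((Ioc A (A + T)).filter (fun t => η * S.card ≤ ‖∑ p ∈ S, G p t‖)).card : ℝ) ≤
      12 * T * (96 * 2 ^ (3 / η) / η ^ 3 * (D ^ 2 * Λ + 1) * (k / S.card)) ^ k := by
  classical
  have hkr : (1 : ℝ) ≤ k := by exact_mod_cast hk
  set K : ℕ := ⌈2 * k / η⌉₊ with hK
  have hK1 : 2 * k / η ≤ K := Nat.le_ceil _
  have hK2 : (K : ℝ) ≤ 3 * k / η := by
    have h1 : (K : ℝ) < 2 * k / η + 1 := Nat.ceil_lt_add_one (by positivity)
    have h2 : (1 : ℝ) ≤ k / η := by
      rw [le_div_iff₀ hη]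
      linarith
    have h3 : 3 * (k : ℝ) / η = 2 * k / η + k / η := by ring
    linarith
  have hK0 : (0 : ℝ) < K := lt_of_lt_of_le (by positivity) hK1
  have hKn : 0 < K := by exact_mod_cast hK0
  set s := S.card with hsdef
  set m := s / K with hm
  have hKs : 4 * (K : ℝ) ≤ η * s := by
    have h1 : 4 * (K : ℝ) ≤ 12 * k / η := by
      calc 4 * (K : ℝ) ≤ 4 * (3 * k / η) := by linarith
        _ = _ := by ring
    refine h1.trans ?_
    rw [div_le_iff₀ hη]
    calc 12 * (k : ℝ) ≤ η ^ 2 * s := hcard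
      _ = _ := by ring
  have hs0 : (0 : ℝ) < s := by
    by_contra h
    have : η * s ≤ 0 := mul_nonpos_of_nonneg_of_nonpos hη.le (not_lt.1 h)
    linarith
  have hleft : s < K * m + K := by
    have h1 := Nat.div_add_mod s K
    have h2 := Nat.mod_lt s hKn
    rw [← hm] at h1
    linarith
  have hmlow : (s : ℝ) ≤ 2 * K * m := by
    have h1 : (s : ℝ) < K * m + K := by exact_mod_cast hleft
    have h2 : 4 * (K : ℝ) ≤ s := by
      have h3 : (0 : ℝ) ≤ s := hs0.le
      nlinarith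
    have h3 : (1 : ℝ) ≤ m := by
      by_contra h
      have h4 : (m : ℝ) = 0 := by
        have h5 : m = 0 := Nat.lt_one_iff.1 (by exact_mod_cast (not_le.1 h))
        rw [h5]; simp
      rw [h4, mul_zero, zero_add] at h1
      linarith
    nlinarith
  have hm0 : (0 : ℝ) < m := by
    by_contra h
    have h1 : (m : ℝ) ≤ 0 := not_lt.1 h
    have h2 : 2 * (K : ℝ) * m ≤ 0 := mul_nonpos_of_nonneg_of_nonpos (by positivity) h1
    linarith
  have hkm : K * m ≤ S.card := by
    rw [hm, ← hsdef]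
    exact Nat.mul_div_le _ _
  obtain ⟨P, hP, hd⟩ := classes K m S hkm
  set W : ℝ := D ^ 2 * Λ + 1 with hW
  have hW0 : 0 < W := by positivity
  have hTr : (N : ℝ) ^ (2 * k) ≤ T := by exact_mod_cast hNT
  set F := (Ioc A (A + T)).filter (fun t => η * s ≤ ‖∑ p ∈ S, G p t‖) with hF
  set FI : Finset (Fin K) → Finset ℤ := fun I => (Ioc A (A + T)).filter
    (fun t => ∀ i ∈ I, η / 4 * m ≤ ‖∑ p ∈ P i, G p t‖) with hFI
  have hcover : F ⊆ (powersetCard k (univ : Finset (Fin K))).biUnion FI := by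
    intro t ht
    rw [hF, mem_filter] at ht
    have h1 := many_large P S m η hη hP hd hleft hKs (fun p => G p t) (fun p hp => hb p hp t) ht.2
    have h2 : k ≤ (univ.filter (fun i : Fin K => η / 4 * m ≤ ‖∑ p ∈ P i, G p t‖)).card := by
      have h3 : (k : ℝ) ≤ ((univ.filter
          (fun i : Fin K => η / 4 * m ≤ ‖∑ p ∈ P i, G p t‖)).card : ℝ) := by
        refine le_trans ?_ h1
        have h4 : η / 2 * (2 * k / η) ≤ η / 2 * K := mul_le_mul_of_nonneg_left hK1 (by positivity)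
        have h5 : η / 2 * (2 * k / η) = k := by field_simp
        linarith
      exact_mod_cast h3
    obtain ⟨I, hI, hIc⟩ := exists_subset_card_eq h2
    rw [mem_biUnion]
    refine ⟨I, mem_powersetCard.2 ⟨subset_univ _, hIc⟩, ?_⟩
    rw [hFI, mem_filter]
    exact ⟨ht.1, fun i hi => (mem_filter.1 (hI hi)).2⟩
  have hone : ∀ I ∈ powersetCard k (univ : Finset (Fin K)),
      ((FI I).card : ℝ) ≤ 12 * T * (16 * W / (η ^ 2 * m)) ^ k := by
    intro I hI
    have hIc := (mem_powersetCard.1 hI).2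
    set e := I.orderEmbOfFin hIc with he
    have heI : ∀ j, e j ∈ I := fun j => orderEmbOfFin_mem I hIc j
    have hmv := mv2 (k := k) (fun j => P (e j)) G N m D Λ hN
      (fun j p hp => hS p ((hP (e j)).1 hp)) (fun j => (hP (e j)).2)
      (fun i j hij => hd _ _ (fun h => hij (e.injective h)))
      (fun j p hp => hper p ((hP (e j)).1 hp)) (fun j p hp => hb p ((hP (e j)).1 hp))
      (fun j p hp => hs p ((hP (e j)).1 hp))
      (fun j => (sum_le_sum_of_subset_of_nonneg (hP (e j)).1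
        fun _ _ _ => by positivity).trans hΛ) A T
    have h1 : ((FI I).card : ℝ) * (η / 4 * m) ^ (2 * k) ≤
        ∑ n ∈ Icc 1 T, ∏ j, ‖∑ p ∈ P (e j), G p (A + n)‖ ^ 2 := by
      set F' := (Icc 1 T).filter (fun n : ℕ => ∀ i ∈ I, η / 4 * m ≤ ‖∑ p ∈ P i, G p (A + n)‖)
        with hF'
      have hcardF : (FI I).card ≤ F'.card := by
        refine card_le_card_of_injOn (fun t => (t - A).toNat) ?_ ?_
        · intro t ht
          rw [Finset.mem_coe, hFI, mem_filter, mem_Ioc] at ht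
          rw [Finset.mem_coe, hF', mem_filter, mem_Icc]
          have ht1 := ht.1.1
          have ht2 := ht.1.2
          have ht3 : 1 ≤ (t - A).toNat := by omega
          have ht4 : (t - A).toNat ≤ T := by omega
          refine ⟨⟨ht3, ht4⟩, ?_⟩
          have e3 : A + (((t - A).toNat : ℕ) : ℤ) = t := by omega
          rw [e3]
          exact ht.2
        · intro a ha b hb hab
          rw [Finset.mem_coe, hFI, mem_filter, mem_Ioc] at ha hb
          simp only at hab
          omega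
      calc ((FI I).card : ℝ) * (η / 4 * m) ^ (2 * k)
          ≤ (F'.card : ℝ) * (η / 4 * m) ^ (2 * k) := by
            gcongr
        _ = ∑ n ∈ F', (η / 4 * m) ^ (2 * k) := by rw [sum_const, nsmul_eq_mul]
        _ ≤ ∑ n ∈ F', ∏ j, ‖∑ p ∈ P (e j), G p (A + n)‖ ^ 2 := by
            refine sum_le_sum fun n hn => ?_
            rw [hF', mem_filter] at hn
            calc (η / 4 * m) ^ (2 * k) = ∏ _j : Fin k, (η / 4 * m) ^ 2 := by
                  rw [prod_const, card_univ, Fintype.card_fin, ← pow_mul]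
              _ ≤ _ := prod_le_prod (fun _ _ => by positivity)
                  fun j _ => pow_le_pow_left₀ (by positivity) (hn.2 _ (heI j)) 2
        _ ≤ _ := sum_le_sum_of_subset_of_nonneg (filter_subset _ _)
            fun _ _ _ => prod_nonneg fun _ _ => by positivity
    have h2 : ((FI I).card : ℝ) * (η / 4 * m) ^ (2 * k) ≤ 12 * T * (W * m) ^ k := by
      refine h1.trans (hmv.trans ?_)
      have h3 : 6 * ((T : ℝ) + (N : ℝ) ^ (2 * k)) ≤ 12 * T := by linarith
      exact mul_le_mul_of_nonneg_right h3 (by positivity)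
    have h3 : (0 : ℝ) < (η / 4 * m) ^ (2 * k) := by positivity
    rw [← le_div_iff₀ h3] at h2
    refine h2.trans (le_of_eq ?_)
    rw [pow_mul, mul_div_assoc, ← div_pow]
    congr 2
    field_simp
    ring
  have hcardK : ((powersetCard k (univ : Finset (Fin K))).card : ℝ) ≤ 2 ^ K := by
    rw [card_powersetCard, card_univ, Fintype.card_fin]
    exact_mod_cast Nat.choose_le_two_pow K k
  have h2K : (2 : ℝ) ^ K ≤ (2 ^ (3 / η)) ^ k := by
    rw [← Real.rpow_natCast, ← Real.rpow_natCast, ← Real.rpow_mul (by norm_num)]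
    apply Real.rpow_le_rpow_of_exponent_le (by norm_num)
    calc (K : ℝ) ≤ 3 * k / η := hK2
      _ = _ := by ring
  have hbase : 16 * W / (η ^ 2 * m) ≤ 96 / η ^ 3 * W * (k / s) := by
    have h1 : 1 / (m : ℝ) ≤ 6 / η * (k / s) := by
      rw [div_le_iff₀ hm0]
      have h2 : (s : ℝ) ≤ 6 * k / η * m := by
        calc (s : ℝ) ≤ 2 * K * m := hmlow
          _ ≤ 2 * (3 * k / η) * m := by gcongr
          _ = _ := by ring
      calc (1 : ℝ) = s / s := (div_self hs0.ne').symm
        _ ≤ (6 * k / η * m) / s := by gcongr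
        _ = _ := by ring
    calc 16 * W / (η ^ 2 * m) = 16 * W / η ^ 2 * (1 / m) := by field_simp
      _ ≤ 16 * W / η ^ 2 * (6 / η * (k / s)) := by gcongr
      _ = _ := by field_simp; norm_num
  calc (F.card : ℝ) ≤ (((powersetCard k (univ : Finset (Fin K))).biUnion FI).card : ℝ) := by
        exact_mod_cast card_le_card hcover
    _ ≤ ∑ I ∈ powersetCard k (univ : Finset (Fin K)), ((FI I).card : ℝ) := by
        exact_mod_cast card_biUnion_le
    _ ≤ ∑ I ∈ powersetCard k (univ : Finset (Fin K)), 12 * T * (16 * W / (η ^ 2 * m)) ^ k :=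
        sum_le_sum hone
    _ = ((powersetCard k (univ : Finset (Fin K))).card : ℝ) *
          (12 * T * (16 * W / (η ^ 2 * m)) ^ k) := by rw [sum_const, nsmul_eq_mul]
    _ ≤ (2 ^ (3 / η)) ^ k * (12 * T * (96 / η ^ 3 * W * (k / s)) ^ k) := by
        have := hcardK.trans h2K
        gcongr
    _ = 12 * T * ((2 ^ (3 / η)) ^ k * (96 / η ^ 3 * W * (k / s)) ^ k) := by ring
    _ = _ := by
        rw [← mul_pow]
        congr 2
        ring

end Pool.Agent.Q122.TF
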