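import Mathlib

/-! Lower bounds for the number of primes. -/

set_option autoImplicit false

namespace Pool.Agent.Q122.TF

open Finset Filter Topology

theorem many_primes (δ L : ℝ) (hδ : 0 < δ) :
    ∀ᶠ N : ℕ in atTop, L * (N : ℝ) ^ (1 - δ) ≤ (Nat.primeCounting N : ℝ) := by
  have h1 : ∀ᶠ x : ℝ in atTop, ‖Real.log x‖ ≤ 1 / (4 * (|L| + 1)) * ‖x ^ δ‖ :=
    (isLittleO_log_rpow_atTop hδ).bound (by positivity)
  have h2 : ∀ᶠ x : ℝ in atTop, ‖Real.log x‖ ≤ (1 / 16) * ‖x ^ (1 : ℝ)‖ :=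
    (isLittleO_log_rpow_atTop one_pos).bound (by positivity)
  have h1' := tendsto_natCast_atTop_atTop (R := ℝ) |>.eventually h1
  have h2' := tendsto_natCast_atTop_atTop (R := ℝ) |>.eventually h2
  filter_upwards [h1', h2', eventually_ge_atTop 16] with N a1 a2 hN
  have hN0 : (16 : ℝ) ≤ N := by exact_mod_cast hN
  have hlog : 0 < Real.log N := Real.log_pos (by linarith)
  rw [Real.norm_of_nonneg hlog.le, Real.norm_of_nonneg (by positivity)] at a1 a2
  rw [Real.rpow_one] at a2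
  have h3 := Chebyshev.psi_ge N
  have h4 := Chebyshev.psi_le_primeCounting_mul_log N
  have h5 : Real.log ((N : ℝ) + 1) ≤ Real.log N + 1 := by
    have : Real.log ((N : ℝ) + 1) ≤ Real.log (N * Real.exp 1) := by
      apply Real.log_le_log (by positivity)
      have := Real.add_one_le_exp 1
      nlinarith
    rw [Real.log_mul (by positivity) (by positivity), Real.log_exp] at this
    exact this
  have h6 : (1 / 2 : ℝ) < Real.log 2 := by
    have := Real.log_two_gt_d9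
    linarith
  have h7 : (N : ℝ) / 4 ≤ (Nat.primeCounting N : ℝ) * Real.log N := by
    have : (N : ℝ) * (1 / 2) ≤ N * Real.log 2 := by gcongr
    linarith
  have h8 : L * (N : ℝ) ^ (1 - δ) * Real.log N ≤ N / 4 := by
    have e1 : (N : ℝ) ^ (1 - δ) * (N : ℝ) ^ δ = N := by
      rw [← Real.rpow_add (by linarith)]
      simp
    calc L * (N : ℝ) ^ (1 - δ) * Real.log N ≤ (|L| + 1) * (N : ℝ) ^ (1 - δ) * Real.log N := by
          gcongr
          have := le_abs_self L
          linarith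
      _ ≤ (|L| + 1) * (N : ℝ) ^ (1 - δ) * (1 / (4 * (|L| + 1)) * (N : ℝ) ^ δ) := by gcongr
      _ = ((N : ℝ) ^ (1 - δ) * (N : ℝ) ^ δ) / 4 := by
          have : |L| + 1 ≠ 0 := by positivity
          field_simp
      _ = _ := by rw [e1]
  have h9 : L * (N : ℝ) ^ (1 - δ) * Real.log N ≤ (Nat.primeCounting N : ℝ) * Real.log N :=
    h8.trans h7
  exact le_of_mul_le_mul_right h9 hlog

/-- the primes in `(P0, N]` -/
def SS (P0 N : ℕ) : Finset ℕ := (Icc 1 N).filter (fun p => p.Prime ∧ P0 < p)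

theorem mem_SS {P0 N p : ℕ} : p ∈ SS P0 N ↔ p.Prime ∧ P0 < p ∧ p ≤ N := by
  unfold SS
  rw [mem_filter, mem_Icc]
  constructor
  · rintro ⟨⟨_, h1⟩, h2, h3⟩
    exact ⟨h2, h3, h1⟩
  · rintro ⟨h1, h2, h3⟩
    exact ⟨⟨h1.one_le, h3⟩, h1, h2⟩

theorem SS_card (P0 N : ℕ) : Nat.primeCounting N ≤ (SS P0 N).card + (P0 + 1) := by
  have h1 : Nat.primeCounting N = ((range (N + 1)).filter Nat.Prime).card := by
    rw [Nat.primeCounting, Nat.primeCounting', Nat.count_eq_card_filter_range]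
  rw [h1]
  have h2 : (range (N + 1)).filter Nat.Prime ⊆ SS P0 N ∪ range (P0 + 1) := by
    intro p hp
    rw [mem_filter, mem_range] at hp
    rw [mem_union, mem_SS, mem_range]
    by_cases h : P0 < p
    · exact Or.inl ⟨hp.2, h, by omega⟩
    · exact Or.inr (by omega)
  refine (card_le_card h2).trans ((card_union_le _ _).trans ?_)
  rw [card_range]

theorem m_large (P0 K : ℕ) (hK : 1 ≤ K) (δ : ℝ) (hδ : 0 < δ) (hδ1 : δ < 1) :
    ∀ᶠ N : ℕ in atTop, 4 * (N : ℝ) ^ (1 - δ) ≤ (((SS P0 N).card / K : ℕ) : ℝ) := by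
  filter_upwards [many_primes δ (4 * K + K + P0 + 1) hδ, eventually_ge_atTop 1] with N h1 hN
  have hNr : (1 : ℝ) ≤ N := by exact_mod_cast hN
  have hKr : (1 : ℝ) ≤ K := by exact_mod_cast hK
  have h2 : ((SS P0 N).card : ℝ) + (P0 + 1) ≥ Nat.primeCounting N := by
    exact_mod_cast SS_card P0 N
  have h3 : ((SS P0 N).card : ℝ) < ((((SS P0 N).card / K : ℕ) : ℝ) + 1) * K := by
    have := Nat.lt_succ_self ((SS P0 N).card / K)
    have h4 := (Nat.div_lt_iff_lt_mul (by omega : 0 < K)).1 this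
    exact_mod_cast h4
  have h5 : 1 ≤ (N : ℝ) ^ (1 - δ) := Real.one_le_rpow hNr (by linarith)
  have h6 : 4 * K * (N : ℝ) ^ (1 - δ) + K + P0 + 1 ≤ (4 * K + K + P0 + 1) * (N : ℝ) ^ (1 - δ) := by
    have hP : (0 : ℝ) ≤ P0 := by positivity
    nlinarith
  have h7 : (4 * (N : ℝ) ^ (1 - δ)) * K < (((SS P0 N).card / K : ℕ) : ℝ) * K := by
    nlinarith
  exact (lt_of_mul_lt_mul_right h7 (by linarith)).le

end Pool.Agent.Q122.TF
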