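import Pool.Agent.Q122.TF.Count
import Pool.Agent.Q122.TF.Primes

/-! The exceptional set: for all other `t` one of the classes of primes is balanced. -/

set_option autoImplicit false

namespace Pool.Agent.Q122.TF

open Finset

theorem bad_gen (G : ℕ → ℤ → ℂ) (B c : ℝ) (k N m : ℕ) (A : ℤ) (T : ℕ) (P : Fin k → Finset ℕ)
    (hN : 1 ≤ N) (hB : 0 ≤ B) (hc : 0 < c)
    (hprime : ∀ i, ∀ p ∈ P i, p.Prime ∧ p ≤ N)
    (hdisj : ∀ i j, i ≠ j → Disjoint (P i) (P j))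
    (hper : ∀ i, ∀ p ∈ P i, ∀ n : ℤ, G p (n + p) = G p n)
    (hb : ∀ i, ∀ p ∈ P i, ∀ n, ‖G p n‖ ≤ 1)
    (hs : ∀ i, ∀ p ∈ P i, ‖∑ x ∈ range p, G p x‖ ≤ B * √p)
    (F : Finset ℕ) (hF : F ⊆ Icc 1 T)
    (hbad : ∀ n ∈ F, ∀ i, c * m ≤ ‖∑ p ∈ P i, G p (A + n)‖) :
    (F.card : ℝ) * (c * m) ^ (2 * k) ≤
      6 * ((T : ℝ) + (N : ℝ) ^ (2 * k)) * ((4 * B ^ 2 + 1) * N) ^ k := by
  have hmv := mv P G N B hN hB hprime hdisj hper hb hs A T
  refine le_trans ?_ hmv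
  calc (F.card : ℝ) * (c * m) ^ (2 * k) = ∑ n ∈ F, (c * m) ^ (2 * k) := by
        rw [sum_const, nsmul_eq_mul]
    _ ≤ ∑ n ∈ F, ∏ i, ‖∑ p ∈ P i, G p (A + n)‖ ^ 2 := by
        refine sum_le_sum fun n hn => ?_
        calc (c * m) ^ (2 * k) = ∏ _i : Fin k, (c * m) ^ 2 := by
              rw [prod_const, card_univ, Fintype.card_fin, ← pow_mul]
          _ ≤ _ := prod_le_prod (fun _ _ => by positivity)
              fun i _ => pow_le_pow_left₀ (by positivity) (hbad n hn i) 2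
    _ ≤ _ := sum_le_sum_of_subset_of_nonneg hF fun _ _ _ => prod_nonneg fun _ _ => by positivity

/-- the exceptional set -/
theorem except (G : ℕ → ℤ → ℂ) (B c δ : ℝ) (N T K : ℕ) (A : ℤ) (S : Finset ℕ) (hN : 2 ≤ N)
    (hT : 1 ≤ T) (hB : 0 ≤ B) (hc : 0 < c) (hδ : 0 ≤ δ) (hK : Nat.log N T / 2 ≤ K)
    (hS : ∀ p ∈ S, p.Prime ∧ p ≤ N) (hm : 4 * (N : ℝ) ^ (1 - δ) ≤ ((S.card / K : ℕ) : ℝ))
    (hper : ∀ p ∈ S, ∀ n : ℤ, G p (n + p) = G p n)
    (hb : ∀ p ∈ S, ∀ n, ‖G p n‖ ≤ 1)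
    (hs : ∀ p ∈ S, ‖∑ x ∈ range p, G p x‖ ≤ B * √p) :
    ∃ E ⊆ Ioc A (A + T), (E.card : ℝ) ≤
      12 * (max 1 ((4 * B ^ 2 + 1) / (16 * c ^ 2))) ^ K * √T * N * (T : ℝ) ^ δ ∧
      ∀ t ∈ Ioc A (A + T), t ∉ E → ∃ Q ⊆ S, Q.card = S.card / K ∧
        ‖∑ p ∈ Q, G p t‖ < c * ((S.card / K : ℕ) : ℝ) := by
  classical
  set k := Nat.log N T / 2 with hk
  set m := S.card / K with hmdef
  have hkm : k * m ≤ S.card := by
    calc k * m ≤ K * m := Nat.mul_le_mul_right _ hK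
      _ ≤ S.card := Nat.mul_div_le _ _
  obtain ⟨P, hP, hd⟩ := classes k m S hkm
  have hNr : (2 : ℝ) ≤ N := by exact_mod_cast hN
  have hN0 : (0 : ℝ) < N := by linarith
  have hTr : (1 : ℝ) ≤ T := by exact_mod_cast hT
  set F := (Icc 1 T).filter (fun n : ℕ => ∀ i, c * m ≤ ‖∑ p ∈ P i, G p (A + n)‖) with hF
  have hmain := bad_gen G B c k N m A T P (by omega) hB hc
    (fun i p hp => hS p ((hP i).1 hp)) hd (fun i p hp => hper p ((hP i).1 hp))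
    (fun i p hp => hb p ((hP i).1 hp)) (fun i p hp => hs p ((hP i).1 hp)) F (filter_subset _ _)
    (fun n hn => (mem_filter.1 hn).2)
  -- sizes
  have h2k : N ^ (2 * k) ≤ T := by
    calc N ^ (2 * k) ≤ N ^ (Nat.log N T) := by
          apply Nat.pow_le_pow_right (by omega)
          rw [hk]; omega
      _ ≤ T := Nat.pow_log_le_self N (by omega)
  have h2k' : T < N ^ (2 * k + 2) := by
    calc T < N ^ (Nat.log N T + 1) := Nat.lt_pow_succ_log_self (by omega) T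
      _ ≤ N ^ (2 * k + 2) := by
          apply Nat.pow_le_pow_right (by omega)
          rw [hk]; omega
  have h2kr : (N : ℝ) ^ (2 * k) ≤ T := by exact_mod_cast h2k
  have hsq : √(T : ℝ) ≤ (N : ℝ) ^ (k + 1) := by
    rw [Real.sqrt_le_left (by positivity), ← pow_mul]
    have : (k + 1) * 2 = 2 * k + 2 := by ring
    rw [this]
    exact_mod_cast h2k'.le
  set a : ℝ := max 1 ((4 * B ^ 2 + 1) / (16 * c ^ 2)) with ha
  have ha1 : 1 ≤ a := le_max_left _ _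
  have hNd : (0 : ℝ) < (N : ℝ) ^ (1 - δ) := Real.rpow_pos_of_pos hN0 _
  -- the count
  have hcount : (F.card : ℝ) ≤ 12 * a ^ K * √T * N * (T : ℝ) ^ δ := by
    have h1 : (F.card : ℝ) * (16 * c ^ 2 * ((N : ℝ) ^ (1 - δ)) ^ 2) ^ k ≤
        12 * T * ((4 * B ^ 2 + 1) * N) ^ k := by
      calc (F.card : ℝ) * (16 * c ^ 2 * ((N : ℝ) ^ (1 - δ)) ^ 2) ^ k
          = (F.card : ℝ) * (c * (4 * (N : ℝ) ^ (1 - δ))) ^ (2 * k) := by
            rw [pow_mul (c * (4 * (N : ℝ) ^ (1 - δ)))]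
            congr 2
            ring
        _ ≤ (F.card : ℝ) * (c * m) ^ (2 * k) := by gcongr
        _ ≤ 6 * ((T : ℝ) + (N : ℝ) ^ (2 * k)) * ((4 * B ^ 2 + 1) * N) ^ k := hmain
        _ ≤ 6 * ((T : ℝ) + T) * ((4 * B ^ 2 + 1) * N) ^ k := by gcongr
        _ = _ := by ring
    have hpos : 0 < (16 * c ^ 2 * ((N : ℝ) ^ (1 - δ)) ^ 2) ^ k := by positivity
    have h2 : (F.card : ℝ) ≤ 12 * T * ((4 * B ^ 2 + 1) * N) ^ k /
        (16 * c ^ 2 * ((N : ℝ) ^ (1 - δ)) ^ 2) ^ k := by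
      rw [le_div_iff₀ hpos]
      exact h1
    refine h2.trans ?_
    have h3 : 12 * T * ((4 * B ^ 2 + 1) * N) ^ k / (16 * c ^ 2 * ((N : ℝ) ^ (1 - δ)) ^ 2) ^ k =
        12 * T * (((4 * B ^ 2 + 1) / (16 * c ^ 2)) ^ k * (N / ((N : ℝ) ^ (1 - δ)) ^ 2) ^ k) := by
      rw [mul_div_assoc, ← div_pow, ← mul_pow]
      congr 2
      field_simp
    rw [h3]
    have h4 : ((N : ℝ) / ((N : ℝ) ^ (1 - δ)) ^ 2) ^ k ≤ (T : ℝ) ^ δ / (N : ℝ) ^ k := by
      have e1 : (N : ℝ) / ((N : ℝ) ^ (1 - δ)) ^ 2 = (N : ℝ) ^ (2 * δ) / N := by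
        rw [← Real.rpow_natCast ((N : ℝ) ^ (1 - δ)), ← Real.rpow_mul hN0.le]
        rw [div_eq_div_iff (by positivity) (by positivity), ← Real.rpow_add hN0, ← sq]
        rw [← Real.rpow_natCast]
        congr 1
        push_cast
        ring
      rw [e1, div_pow]
      gcongr
      rw [← Real.rpow_natCast ((N : ℝ) ^ (2 * δ)), ← Real.rpow_mul hN0.le]
      calc (N : ℝ) ^ (2 * δ * k) = ((N : ℝ) ^ (2 * k)) ^ δ := by
            rw [← Real.rpow_natCast, ← Real.rpow_mul hN0.le]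
            congr 1
            push_cast
            ring
        _ ≤ (T : ℝ) ^ δ := Real.rpow_le_rpow (by positivity) h2kr hδ
    have h5 : ((4 * B ^ 2 + 1) / (16 * c ^ 2)) ^ k ≤ a ^ K := by
      calc ((4 * B ^ 2 + 1) / (16 * c ^ 2)) ^ k ≤ a ^ k := by
            apply pow_le_pow_left₀ (by positivity)
            exact le_max_right _ _
        _ ≤ a ^ K := pow_le_pow_right₀ ha1 hK
    have h6 : (T : ℝ) / (N : ℝ) ^ k ≤ √T * N := by
      rw [div_le_iff₀ (by positivity)]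
      calc (T : ℝ) = √T * √T := (Real.mul_self_sqrt (by linarith)).symm
        _ ≤ √T * (N : ℝ) ^ (k + 1) := by gcongr
        _ = √T * N * (N : ℝ) ^ k := by ring
    calc 12 * (T : ℝ) * (((4 * B ^ 2 + 1) / (16 * c ^ 2)) ^ k * (N / ((N : ℝ) ^ (1 - δ)) ^ 2) ^ k)
        ≤ 12 * T * (a ^ K * ((T : ℝ) ^ δ / (N : ℝ) ^ k)) := by gcongr
      _ = 12 * a ^ K * (T : ℝ) ^ δ * (T / (N : ℝ) ^ k) := by ring
      _ ≤ 12 * a ^ K * (T : ℝ) ^ δ * (√T * N) := by gcongr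
      _ = _ := by ring
  refine ⟨F.image (fun n : ℕ => A + n), ?_, ?_, ?_⟩
  · intro t ht
    rw [mem_image] at ht
    obtain ⟨n, hn, rfl⟩ := ht
    rw [hF, mem_filter, mem_Icc] at hn
    rw [mem_Ioc]
    omega
  · refine le_trans ?_ hcount
    exact_mod_cast card_image_le
  · intro t ht htE
    rw [mem_Ioc] at ht
    have hn : A + ((t - A).toNat : ℤ) = t := by
      rw [Int.toNat_of_nonneg (by omega)]
      ring
    have hnF : (t - A).toNat ∉ F := by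
      intro h
      apply htE
      rw [mem_image]
      exact ⟨_, h, hn⟩
    rw [hF, mem_filter, mem_Icc] at hnF
    push Not at hnF
    obtain ⟨i, hi⟩ := hnF (by omega)
    rw [hn] at hi
    exact ⟨P i, (hP i).1, (hP i).2, hi⟩

end Pool.Agent.Q122.TF
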