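import Pool.Agent.Q122.TF.Except

/-! The exceptional set, uniformly in the family. -/

set_option autoImplicit false

namespace Pool.Agent.Q122.TF

open Finset Filter Topology

/-- the number of prime divisors in a set -/
theorem card_dvd_le (S : Finset ℕ) (hS : ∀ p ∈ S, p.Prime) (v : ℤ) (hv : v ≠ 0) :
    ((S.filter (fun p : ℕ => (p : ℤ) ∣ v)).card : ℝ) ≤ 2 * Real.log |(v : ℝ)| := by
  set Z := S.filter (fun p : ℕ => (p : ℤ) ∣ v) with hZ
  have h1 : ∏ p ∈ Z, p ∣ v.natAbs := by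
    apply Finset.prod_primes_dvd
    · intro p hp
      exact (hS p (mem_filter.1 hp).1).prime
    · intro p hp
      exact Int.natCast_dvd.1 (mem_filter.1 hp).2
  have h2 : 2 ^ Z.card ≤ ∏ p ∈ Z, p := by
    rw [← prod_const]
    exact prod_le_prod' fun p hp => (hS p (mem_filter.1 hp).1).two_le
  have h3 : 2 ^ Z.card ≤ v.natAbs := h2.trans (Nat.le_of_dvd (Int.natAbs_pos.2 hv) h1)
  have h4 : (2 : ℝ) ^ Z.card ≤ |(v : ℝ)| := by
    have : ((2 ^ Z.card : ℕ) : ℝ) ≤ ((v.natAbs : ℕ) : ℝ) := by exact_mod_cast h3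
    rw [Nat.cast_natAbs] at this
    push_cast at this
    exact this
  have h5 := Real.log_le_log (by positivity) h4
  rw [Real.log_pow] at h5
  have h6 := Real.log_two_gt_d9
  have h7 : (0 : ℝ) ≤ Z.card := by positivity
  nlinarith

theorem except2 (B c a η δ : ℝ) (P0 : ℕ) (hB : 0 ≤ B) (hc : 0 < c) (ha : 0 < a) (hη : 0 < η)
    (hδ : 0 < δ) (hδ1 : δ < 1) : ∃ C : ℝ, 0 < C ∧ ∀ᶠ M : ℝ in atTop,
    ∀ (G : ℕ → ℤ → ℂ) (w : ℤ), w ≠ 0 → |(w : ℝ)| ≤ M ^ a →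
    (∀ p : ℕ, p.Prime → P0 < p → ¬ (p : ℤ) ∣ w → (∀ n : ℤ, G p (n + p) = G p n) ∧
      (∀ n, ‖G p n‖ ≤ 1) ∧ ‖∑ x ∈ range p, G p x‖ ≤ B * √p) →
    ∀ (A : ℤ) (T : ℕ), 1 ≤ T → (T : ℝ) ≤ M → ∃ E ⊆ Ioc A (A + T),
      (E.card : ℝ) ≤ C * √T * M ^ (η + δ) ∧ ∀ t ∈ Ioc A (A + T), t ∉ E →
      ∃ Q : Finset ℕ, (∀ p ∈ Q, p.Prime ∧ P0 < p ∧ (p : ℝ) ≤ M ^ η ∧ ¬ (p : ℤ) ∣ w) ∧
        2 * M ^ (η * (1 - δ)) ≤ Q.card ∧ ‖∑ p ∈ Q, G p t‖ < c * Q.card := by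
  set K : ℕ := ⌈1 / η⌉₊ with hK
  have hK1 : 1 ≤ K := Nat.one_le_iff_ne_zero.2 (by
    rw [hK, Ne, Nat.ceil_eq_zero, not_le]
    positivity)
  have hKr : (1 : ℝ) ≤ K := by exact_mod_cast hK1
  refine ⟨12 * (max 1 ((4 * B ^ 2 + 1) / (16 * c ^ 2))) ^ K, by positivity, ?_⟩
  have ev1 : ∀ᶠ M : ℝ in atTop, (2 : ℝ) ≤ M ^ (η / 2) :=
    (tendsto_rpow_atTop (by positivity)).eventually_ge_atTop _
  have htend : Tendsto (fun M : ℝ => ⌊M ^ η⌋₊) atTop atTop :=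
    tendsto_nat_floor_atTop.comp (tendsto_rpow_atTop hη)
  have ev2 := htend.eventually (many_primes δ (5 * K + P0 + 2) hδ)
  have ev3 : ∀ᶠ M : ℝ in atTop, ‖Real.log M‖ ≤ 1 / (4 * a) * ‖M ^ (η * (1 - δ))‖ :=
    (isLittleO_log_rpow_atTop (mul_pos hη (by linarith))).bound (by positivity)
  filter_upwards [ev1, ev2, ev3, eventually_ge_atTop 2] with M hM1 hM2 hM3 hM
  intro G w hw hwM hG A T hT hTM
  have hM0 : 0 < M := by linarith
  have hlM : 0 < Real.log M := Real.log_pos (by linarith)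
  set Y : ℝ := M ^ η with hY
  have hY0 : 0 < Y := by positivity
  have hY2 : Y = M ^ (η / 2) * M ^ (η / 2) := by
    rw [hY, ← Real.rpow_add hM0]; congr 1; ring
  have hY4 : 4 ≤ Y := by
    rw [hY2]
    nlinarith
  set N : ℕ := ⌊Y⌋₊ with hN
  have hN4 : 4 ≤ N := Nat.le_floor (by exact_mod_cast hY4)
  have hNY : (N : ℝ) ≤ Y := Nat.floor_le hY0.le
  have hNr : (4 : ℝ) ≤ N := by exact_mod_cast hN4
  have hN0 : (0 : ℝ) < N := by linarith
  have hYN : Y < N + 1 := Nat.lt_floor_add_one Y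
  have hNlow : M ^ (η / 2) ≤ N := by nlinarith
  -- powers
  have hpow : M ^ (η * (1 - δ)) ≤ 2 * (N : ℝ) ^ (1 - δ) := by
    have h1 : Y ≤ 2 * N := by linarith
    calc M ^ (η * (1 - δ)) = Y ^ (1 - δ) := by rw [Real.rpow_mul hM0.le]
      _ ≤ (2 * N) ^ (1 - δ) := Real.rpow_le_rpow hY0.le h1 (by linarith)
      _ = 2 ^ (1 - δ) * (N : ℝ) ^ (1 - δ) := Real.mul_rpow (by norm_num) hN0.le
      _ ≤ 2 ^ (1 : ℝ) * (N : ℝ) ^ (1 - δ) := by
          gcongr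
          · norm_num
          · linarith
      _ = _ := by rw [Real.rpow_one]
  have hN1 : 1 ≤ (N : ℝ) ^ (1 - δ) := Real.one_le_rpow (by linarith) (by linarith)
  -- the prime divisors of w
  set S : Finset ℕ := (SS P0 N).filter (fun p : ℕ => ¬ (p : ℤ) ∣ w) with hS
  have hSc : ((SS P0 N).card : ℝ) ≤ S.card + (N : ℝ) ^ (1 - δ) := by
    have h1 := card_dvd_le (SS P0 N) (fun p hp => (mem_SS.1 hp).1) w hw
    have h2 := card_filter_add_card_filter_not (s := SS P0 N) (fun p : ℕ => (p : ℤ) ∣ w)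
    have h3 : (((SS P0 N).filter (fun p : ℕ => (p : ℤ) ∣ w)).card : ℝ) + S.card =
        (SS P0 N).card := by exact_mod_cast h2
    have h4 : Real.log |(w : ℝ)| ≤ a * Real.log M := by
      have h5 : 0 < |(w : ℝ)| := abs_pos.2 (by exact_mod_cast hw)
      have h6 := Real.log_le_log h5 hwM
      rwa [Real.log_rpow hM0] at h6
    rw [Real.norm_of_nonneg hlM.le, Real.norm_of_nonneg (by positivity)] at hM3
    have h5 : a * Real.log M ≤ M ^ (η * (1 - δ)) / 4 := by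
      calc a * Real.log M ≤ a * (1 / (4 * a) * M ^ (η * (1 - δ))) := by gcongr
        _ = _ := by field_simp
    linarith
  have hScard : 5 * K * (N : ℝ) ^ (1 - δ) ≤ S.card := by
    have h1 : (Nat.primeCounting N : ℝ) ≤ (SS P0 N).card + (P0 + 1) := by
      exact_mod_cast SS_card P0 N
    have h2 : (0 : ℝ) ≤ P0 := by positivity
    nlinarith
  have hm : 4 * (N : ℝ) ^ (1 - δ) ≤ ((S.card / K : ℕ) : ℝ) := by
    have h3 : (S.card : ℝ) < (((S.card / K : ℕ) : ℝ) + 1) * K := by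
      have := Nat.lt_succ_self (S.card / K)
      have h4 := (Nat.div_lt_iff_lt_mul (by omega : 0 < K)).1 this
      exact_mod_cast h4
    have h4 : (5 * (N : ℝ) ^ (1 - δ)) * K < (((S.card / K : ℕ) : ℝ) + 1) * K := by
      calc (5 * (N : ℝ) ^ (1 - δ)) * K = 5 * K * (N : ℝ) ^ (1 - δ) := by ring
        _ ≤ S.card := hScard
        _ < _ := h3
    have h5 := lt_of_mul_lt_mul_right h4 (by linarith)
    linarith
  have hKlog : Nat.log N T / 2 ≤ K := by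
    set k := Nat.log N T with hk
    have h1 : M ^ (η / 2 * k) ≤ M ^ (1 : ℝ) := by
      calc M ^ (η / 2 * k) = (M ^ (η / 2)) ^ k := by
            rw [Real.rpow_mul hM0.le, Real.rpow_natCast]
        _ ≤ (N : ℝ) ^ k := by gcongr
        _ ≤ T := by exact_mod_cast Nat.pow_log_le_self N (by omega)
        _ ≤ M := hTM
        _ = M ^ (1 : ℝ) := (Real.rpow_one M).symm
    have h2 := (Real.rpow_le_rpow_left_iff (by linarith : 1 < M)).1 h1
    have h3 : (k : ℝ) ≤ 2 * (1 / η) := by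
      rw [mul_one_div, le_div_iff₀ hη]
      linarith
    have h4 : (k : ℝ) ≤ 2 * K := h3.trans (by
      have := Nat.le_ceil (1 / η)
      rw [← hK] at this
      linarith)
    have h5 : k ≤ 2 * K := by exact_mod_cast h4
    omega
  have hSp : ∀ p ∈ S, p.Prime ∧ P0 < p ∧ p ≤ N ∧ ¬ (p : ℤ) ∣ w := by
    intro p hp
    rw [hS, mem_filter, mem_SS] at hp
    exact ⟨hp.1.1, hp.1.2.1, hp.1.2.2, hp.2⟩
  obtain ⟨E, hE1, hE2, hE3⟩ := except G B c δ N T K A S (by omega) hT hB hc hδ.le hKlog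
    (fun p hp => ⟨(hSp p hp).1, (hSp p hp).2.2.1⟩) hm
    (fun p hp => (hG p (hSp p hp).1 (hSp p hp).2.1 (hSp p hp).2.2.2).1)
    (fun p hp => (hG p (hSp p hp).1 (hSp p hp).2.1 (hSp p hp).2.2.2).2.1)
    (fun p hp => (hG p (hSp p hp).1 (hSp p hp).2.1 (hSp p hp).2.2.2).2.2)
  refine ⟨E, hE1, ?_, ?_⟩
  · refine hE2.trans ?_
    rw [Real.rpow_add hM0, ← hY]
    have h1 : (T : ℝ) ^ δ ≤ M ^ δ := Real.rpow_le_rpow (by positivity) hTM hδ.le
    calc 12 * (max 1 ((4 * B ^ 2 + 1) / (16 * c ^ 2))) ^ K * √T * N * (T : ℝ) ^ δ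
        ≤ 12 * (max 1 ((4 * B ^ 2 + 1) / (16 * c ^ 2))) ^ K * √T * Y * M ^ δ := by gcongr
      _ = _ := by ring
  · intro t ht htE
    obtain ⟨Q, hQ1, hQ2, hQ3⟩ := hE3 t ht htE
    refine ⟨Q, ?_, ?_, ?_⟩
    · intro p hp
      have h1 := hSp p (hQ1 hp)
      refine ⟨h1.1, h1.2.1, ?_, h1.2.2.2⟩
      have : (p : ℝ) ≤ N := by exact_mod_cast h1.2.2.1
      exact this.trans hNY
    · rw [hQ2]
      linarith
    · rw [hQ2]
      exact hQ3

end Pool.Agent.Q122.TF
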