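import Mathlib

/-! Simple zeros of `f - t g` modulo primes. -/

set_option autoImplicit false

namespace Pool.Agent.Q122.TF

open Polynomial Finset

/-- simple zeros of `f - t g` modulo `p` which are not zeros of `g` -/
noncomputable def Sz (f g : ℤ[X]) (p : ℕ) (t : ℤ) : Finset ℕ := by
  classical
  exact (range p).filter (fun x : ℕ => ¬ (p : ℤ) ∣ g.eval (x : ℤ) ∧
    (p : ℤ) ∣ f.eval (x : ℤ) - t * g.eval (x : ℤ) ∧
    ¬ (p : ℤ) ∣ (derivative f).eval (x : ℤ) - t * (derivative g).eval (x : ℤ))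

theorem mem_Sz {f g : ℤ[X]} {p : ℕ} {t : ℤ} {x : ℕ} : x ∈ Sz f g p t ↔ x < p ∧
    ¬ (p : ℤ) ∣ g.eval (x : ℤ) ∧ (p : ℤ) ∣ f.eval (x : ℤ) - t * g.eval (x : ℤ) ∧
    ¬ (p : ℤ) ∣ (derivative f).eval (x : ℤ) - t * (derivative g).eval (x : ℤ) := by
  classical
  unfold Sz
  rw [mem_filter, mem_range]

/-- the function of the mean value theorem -/
noncomputable def GR (f g : ℤ[X]) (n p : ℕ) (t : ℤ) : ℂ := (((Sz f g p t).card : ℂ) - 1) / n

theorem Sz_per (f g : ℤ[X]) (p : ℕ) (t : ℤ) : Sz f g p (t + p) = Sz f g p t := by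
  ext x
  rw [mem_Sz, mem_Sz]
  have h1 : ∀ a b : ℤ, (p : ℤ) ∣ a - (t + p) * b ↔ (p : ℤ) ∣ a - t * b := by
    intro a b
    have : a - (t + p) * b = a - t * b - p * b := by ring
    rw [this, dvd_sub_left (dvd_mul_right _ _)]
  rw [h1, h1]

theorem GR_per (f g : ℤ[X]) (n p : ℕ) (t : ℤ) : GR f g n p (t + p) = GR f g n p t := by
  unfold GR
  rw [Sz_per]

/-- the Wronskian -/
noncomputable def Wr (f g : ℤ[X]) : ℤ[X] := derivative f * g - f * derivative g

theorem roots_le (p : ℕ) [Fact p.Prime] (h : ℤ[X])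
    (hh : h.map (Int.castRingHom (ZMod p)) ≠ 0) :
    ((range p).filter (fun x : ℕ => (p : ℤ) ∣ h.eval (x : ℤ))).card ≤ h.natDegree := by
  classical
  have h1 : ((range p).filter (fun x : ℕ => (p : ℤ) ∣ h.eval (x : ℤ))).card ≤
      (h.map (Int.castRingHom (ZMod p))).roots.toFinset.card := by
    refine card_le_card_of_injOn (fun x : ℕ => (x : ZMod p)) ?_ ?_
    · intro x hx
      rw [Finset.mem_coe, mem_filter] at hx
      rw [Finset.mem_coe, Multiset.mem_toFinset, mem_roots hh, IsRoot.def, eval_map]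
      change eval₂ (Int.castRingHom (ZMod p)) ((x : ℕ) : ZMod p) h = 0
      rw [← Int.cast_natCast (R := ZMod p) x, ← eq_intCast (Int.castRingHom (ZMod p)) (x : ℤ),
        eval₂_at_apply]
      exact (ZMod.intCast_zmod_eq_zero_iff_dvd _ _).2 hx.2
    · intro a ha b hb hab
      rw [Finset.mem_coe, mem_filter, mem_range] at ha hb
      have := (ZMod.natCast_eq_natCast_iff' a b p).1 hab
      rwa [Nat.mod_eq_of_lt ha.1, Nat.mod_eq_of_lt hb.1] at this
  refine h1.trans ((Multiset.toFinset_card_le _).trans ((card_roots' _).trans ?_))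
  exact natDegree_map_le

theorem Wr_map (p : ℕ) (f g : ℤ[X]) : (Wr f g).map (Int.castRingHom (ZMod p)) =
    derivative (f.map (Int.castRingHom (ZMod p))) * g.map (Int.castRingHom (ZMod p)) -
      f.map (Int.castRingHom (ZMod p)) * derivative (g.map (Int.castRingHom (ZMod p))) := by
  unfold Wr
  rw [Polynomial.map_sub, Polynomial.map_mul, Polynomial.map_mul, derivative_map, derivative_map]

theorem card_Sz_le (p : ℕ) [Fact p.Prime] (f g : ℤ[X]) (n : ℕ) (hf : f.natDegree ≤ n)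
    (hg : g.natDegree ≤ n) (hW : (Wr f g).map (Int.castRingHom (ZMod p)) ≠ 0) (t : ℤ) :
    (Sz f g p t).card ≤ n := by
  classical
  set P : ℤ[X] := f - C t * g with hP
  have hP0 : P.map (Int.castRingHom (ZMod p)) ≠ 0 := by
    intro h
    apply hW
    rw [hP, Polynomial.map_sub, Polynomial.map_mul, map_C, sub_eq_zero] at h
    rw [Wr_map, h, derivative_mul, derivative_C]
    ring
  have h1 := roots_le p P hP0
  have h2 : P.natDegree ≤ n := by
    rw [hP]
    refine (natDegree_sub_le _ _).trans (max_le hf ?_)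
    exact (natDegree_C_mul_le _ _).trans hg
  refine le_trans (card_le_card ?_) (h1.trans h2)
  intro x hx
  rw [mem_Sz] at hx
  rw [mem_filter, mem_range]
  refine ⟨hx.1, ?_⟩
  rw [hP, eval_sub, eval_mul, eval_C]
  exact hx.2.2.1

theorem GR_norm (p : ℕ) [Fact p.Prime] (f g : ℤ[X]) (n : ℕ) (hn : 2 ≤ n) (hf : f.natDegree ≤ n)
    (hg : g.natDegree ≤ n) (hW : (Wr f g).map (Int.castRingHom (ZMod p)) ≠ 0) (t : ℤ) :
    ‖GR f g n p t‖ ≤ 1 := by
  have h1 := card_Sz_le p f g n hf hg hW t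
  have hnr : (0 : ℝ) < n := by
    have : 0 < n := by omega
    exact_mod_cast this
  have e1 : GR f g n p t = (((((Sz f g p t).card : ℝ) - 1) / n : ℝ) : ℂ) := by
    unfold GR
    push_cast
    rfl
  rw [e1, Complex.norm_real, Real.norm_eq_abs, abs_div, abs_of_pos hnr, div_le_one hnr, abs_le]
  have h2 : ((Sz f g p t).card : ℝ) ≤ n := by exact_mod_cast h1
  have h3 : (0 : ℝ) ≤ (Sz f g p t).card := by positivity
  have h4 : (2 : ℝ) ≤ n := by exact_mod_cast hn
  constructor <;> linarith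

theorem sum_Sz (p : ℕ) [Fact p.Prime] (f g : ℤ[X]) :
    ∑ t ∈ range p, (Sz f g p (t : ℤ)).card =
      ((range p).filter (fun x : ℕ => ¬ (p : ℤ) ∣ g.eval (x : ℤ) ∧
        ¬ (p : ℤ) ∣ (Wr f g).eval (x : ℤ))).card := by
  classical
  have hp : p.Prime := Fact.out
  have e1 : ∀ t : ℕ, (Sz f g p (t : ℤ)).card = ∑ x ∈ range p,
      if (¬ (p : ℤ) ∣ g.eval (x : ℤ) ∧ (p : ℤ) ∣ f.eval (x : ℤ) - t * g.eval (x : ℤ) ∧
        ¬ (p : ℤ) ∣ (derivative f).eval (x : ℤ) - t * (derivative g).eval (x : ℤ)) then 1 else 0 := by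
    intro t
    unfold Sz
    rw [Finset.card_filter]
  simp_rw [e1]
  rw [sum_comm, Finset.card_filter]
  refine sum_congr rfl fun x _ => ?_
  by_cases hgx : (p : ℤ) ∣ g.eval (x : ℤ)
  · rw [if_neg (by tauto)]
    apply sum_eq_zero
    intro t _
    rw [if_neg (by tauto)]
  · have hg0 : ((g.eval (x : ℤ) : ℤ) : ZMod p) ≠ 0 := by
      rw [Ne, ZMod.intCast_zmod_eq_zero_iff_dvd]
      exact hgx
    set t0 : ℕ := (((f.eval (x : ℤ) : ℤ) : ZMod p) / ((g.eval (x : ℤ) : ℤ) : ZMod p)).val with ht0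
    have ht0p : t0 < p := ZMod.val_lt _
    have hcast : ((t0 : ℕ) : ZMod p) =
        ((f.eval (x : ℤ) : ℤ) : ZMod p) / ((g.eval (x : ℤ) : ℤ) : ZMod p) := by
      rw [ht0, ZMod.natCast_zmod_val]
    have hdiv : ∀ t : ℕ, (p : ℤ) ∣ f.eval (x : ℤ) - t * g.eval (x : ℤ) ↔
        ((t : ℕ) : ZMod p) = ((t0 : ℕ) : ZMod p) := by
      intro t
      rw [← ZMod.intCast_zmod_eq_zero_iff_dvd, hcast, eq_div_iff hg0]
      push_cast
      rw [sub_eq_zero, eq_comm]
    have hW : ∀ t : ℕ, (p : ℤ) ∣ f.eval (x : ℤ) - t * g.eval (x : ℤ) →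
        ((p : ℤ) ∣ (derivative f).eval (x : ℤ) - t * (derivative g).eval (x : ℤ) ↔
          (p : ℤ) ∣ (Wr f g).eval (x : ℤ)) := by
      intro t ht
      have hpi : Prime (p : ℤ) := Nat.prime_iff_prime_int.1 hp
      have e2 : (Wr f g).eval (x : ℤ) = g.eval (x : ℤ) *
          ((derivative f).eval (x : ℤ) - t * (derivative g).eval (x : ℤ)) -
          (derivative g).eval (x : ℤ) * (f.eval (x : ℤ) - t * g.eval (x : ℤ)) := by
        unfold Wr
        rw [eval_sub, eval_mul, eval_mul]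
        ring
      rw [e2, dvd_sub_left (Dvd.dvd.mul_left ht _), hpi.dvd_mul]
      tauto
    rw [sum_eq_single t0]
    · have h1 : (p : ℤ) ∣ f.eval (x : ℤ) - t0 * g.eval (x : ℤ) := (hdiv t0).2 rfl
      have h2 := hW t0 h1
      by_cases h3 : (p : ℤ) ∣ (Wr f g).eval (x : ℤ)
      · rw [if_neg (by tauto), if_neg (by tauto)]
      · rw [if_pos (by tauto), if_pos (by tauto)]
    · intro t ht hne
      rw [if_neg]
      rintro ⟨_, h2, _⟩
      apply hne
      rw [mem_range] at ht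
      have h3 := (hdiv t).1 h2
      have h4 := (ZMod.natCast_eq_natCast_iff' t t0 p).1 h3
      rwa [Nat.mod_eq_of_lt ht, Nat.mod_eq_of_lt ht0p] at h4
    · intro h
      exact absurd (mem_range.2 ht0p) h

theorem GR_sum (p : ℕ) [Fact p.Prime] (f g : ℤ[X]) (n : ℕ) (hn : 2 ≤ n) (hf : f.natDegree ≤ n)
    (hg : g.natDegree ≤ n) (hW : (Wr f g).map (Int.castRingHom (ZMod p)) ≠ 0) :
    ‖∑ t ∈ range p, GR f g n p t‖ ≤ 3 * √(p : ℝ) := by
  classical
  have hp : p.Prime := Fact.out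
  have hnr : (0 : ℝ) < n := by
    have : 0 < n := by omega
    exact_mod_cast this
  have hg0 : g.map (Int.castRingHom (ZMod p)) ≠ 0 := by
    intro h
    apply hW
    rw [Wr_map, h, derivative_zero, mul_zero, mul_zero, sub_zero]
  have hs := sum_Sz p f g
  set U := (range p).filter (fun x : ℕ => ¬ (p : ℤ) ∣ g.eval (x : ℤ) ∧
        ¬ (p : ℤ) ∣ (Wr f g).eval (x : ℤ)) with hU
  have hWd : (Wr f g).natDegree ≤ 2 * n := by
    unfold Wr
    refine (natDegree_sub_le _ _).trans (max_le ?_ ?_)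
    · refine natDegree_mul_le.trans ?_
      have := natDegree_derivative_le f
      omega
    · refine natDegree_mul_le.trans ?_
      have := natDegree_derivative_le g
      omega
  have h1 := roots_le p g hg0
  have h2 := roots_le p (Wr f g) hW
  have h3 : p ≤ U.card + 3 * n := by
    have h4 : range p ⊆ U ∪ ((range p).filter (fun x : ℕ => (p : ℤ) ∣ g.eval (x : ℤ)) ∪
        (range p).filter (fun x : ℕ => (p : ℤ) ∣ (Wr f g).eval (x : ℤ))) := by
      intro x hx
      rw [mem_union, mem_union, hU, mem_filter, mem_filter, mem_filter]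
      tauto
    have h5 := card_le_card h4
    rw [card_range] at h5
    have h6 := card_union_le U ((range p).filter (fun x : ℕ => (p : ℤ) ∣ g.eval (x : ℤ)) ∪
        (range p).filter (fun x : ℕ => (p : ℤ) ∣ (Wr f g).eval (x : ℤ)))
    have h7 := card_union_le ((range p).filter (fun x : ℕ => (p : ℤ) ∣ g.eval (x : ℤ)))
        ((range p).filter (fun x : ℕ => (p : ℤ) ∣ (Wr f g).eval (x : ℤ)))
    omega
  have h4 : U.card ≤ p := by
    have := card_filter_le (range p) (fun x : ℕ => ¬ (p : ℤ) ∣ g.eval (x : ℤ) ∧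
        ¬ (p : ℤ) ∣ (Wr f g).eval (x : ℤ))
    rw [card_range] at this
    exact this
  have e1 : ∑ t ∈ range p, GR f g n p t = ((((U.card : ℝ) - p) / n : ℝ) : ℂ) := by
    unfold GR
    rw [← sum_div, sum_sub_distrib, sum_const, card_range, nsmul_eq_mul, mul_one]
    rw [← Nat.cast_sum, hs]
    push_cast
    rfl
  rw [e1, Complex.norm_real, Real.norm_eq_abs, abs_div, abs_of_pos hnr, div_le_iff₀ hnr, abs_le]
  have h5 : (p : ℝ) ≤ U.card + 3 * n := by exact_mod_cast h3
  have h6 : (U.card : ℝ) ≤ p := by exact_mod_cast h4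
  have h7 : 1 ≤ √(p : ℝ) := by
    rw [Real.one_le_sqrt]
    exact_mod_cast hp.one_le
  constructor <;> nlinarith

/-- many primes with a simple zero -/
theorem many_Sz (f g : ℤ[X]) (n : ℕ) (hn : 2 ≤ n) (Q : Finset ℕ) (t : ℤ)
    (hQ : ∀ p ∈ Q, (Sz f g p t).card ≤ n)
    (h : ‖∑ p ∈ Q, GR f g n p t‖ < 1 / (4 * n) * (Q.card : ℝ)) :
    3 * Q.card ≤ 4 * n * (Q.filter (fun p => (Sz f g p t).Nonempty)).card := by
  classical
  have hnr : (0 : ℝ) < n := by
    have : 0 < n := by omega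
    exact_mod_cast this
  have e1 : ∑ p ∈ Q, GR f g n p t =
      ((((∑ p ∈ Q, (Sz f g p t).card : ℕ) : ℝ) - Q.card) / n : ℝ) := by
    unfold GR
    rw [← sum_div, sum_sub_distrib, sum_const, nsmul_eq_mul, mul_one]
    push_cast
    rfl
  rw [e1, Complex.norm_real, Real.norm_eq_abs, abs_div, abs_of_pos hnr, div_lt_iff₀ hnr] at h
  have h1 : 1 / (4 * (n : ℝ)) * (Q.card : ℝ) * n = Q.card / 4 := by field_simp
  rw [h1] at h
  have h2 := (abs_lt.1 h).1
  have h3 : ∑ p ∈ Q, (Sz f g p t).card ≤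
      n * (Q.filter (fun p => (Sz f g p t).Nonempty)).card := by
    calc ∑ p ∈ Q, (Sz f g p t).card = ∑ p ∈ Q.filter (fun p => (Sz f g p t).Nonempty),
          (Sz f g p t).card := by
          rw [sum_filter]
          refine sum_congr rfl fun p _ => ?_
          split_ifs with h
          · rfl
          · rw [Finset.not_nonempty_iff_eq_empty] at h
            rw [h, card_empty]
      _ ≤ ∑ p ∈ Q.filter (fun p => (Sz f g p t).Nonempty), n :=
          sum_le_sum fun p hp => hQ p (mem_filter.1 hp).1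
      _ = _ := by rw [sum_const, smul_eq_mul, mul_comm]
  have h4 : ((∑ p ∈ Q, (Sz f g p t).card : ℕ) : ℝ) ≤
      n * (Q.filter (fun p => (Sz f g p t).Nonempty)).card := by exact_mod_cast h3
  have h5 : 3 * (Q.card : ℝ) ≤ 4 * (n * (Q.filter (fun p => (Sz f g p t).Nonempty)).card) := by
    linarith
  have h6 : 3 * Q.card ≤ 4 * (n * (Q.filter (fun p => (Sz f g p t).Nonempty)).card) := by
    exact_mod_cast h5
  linarith

end Pool.Agent.Q122.TF
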