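import Pool.Agent.Helper112.LS

/-! Fourier coefficients of periodic functions on the integers. -/

set_option autoImplicit false

namespace Pool.Agent.Q122.TF

open Finset Pool.Agent.Helper112

/-- Fourier coefficient of a function on the integers of period `p` -/
noncomputable def fc (g : ℤ → ℂ) (p a : ℕ) : ℂ :=
  (1 / (p : ℂ)) * ∑ x ∈ range p, g x * ee ((a : ℝ) * (-(x : ℝ) / p))

theorem geo (p : ℕ) (hp : 1 ≤ p) (m : ℤ) :
    ∑ a ∈ range p, ee ((a : ℝ) * ((m : ℝ) / p)) = if (p : ℤ) ∣ m then (p : ℂ) else 0 := by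
  have hp0 : (p : ℝ) ≠ 0 := by positivity
  split_ifs with h
  · obtain ⟨k, rfl⟩ := h
    rw [sum_congr rfl (g := fun _ => (1 : ℂ))]
    · simp
    · intro a _
      have : (a : ℝ) * (((p * k : ℤ) : ℝ) / p) = ((a * k : ℤ) : ℝ) := by
        push_cast
        field_simp
      rw [this, ls_ee_int]
  · simp_rw [ls_ee_nat_mul]
    have h1 : ee ((m : ℝ) / p) ≠ 1 := by
      intro h1
      obtain ⟨n, hn⟩ := ls_ee_eq_one h1
      apply h
      refine ⟨n, ?_⟩
      rw [div_eq_iff hp0] at hn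
      have : m = n * p := by exact_mod_cast hn
      rw [this, mul_comm]
    rw [geom_sum_eq h1, ← ls_ee_nat_mul]
    have : (p : ℝ) * ((m : ℝ) / p) = ((m : ℤ) : ℝ) := by field_simp
    rw [this, ls_ee_int, sub_self, zero_div]

theorem per_mod (g : ℤ → ℂ) (p : ℕ) (hper : ∀ n, g (n + p) = g n) (n : ℤ) :
    g (n % p) = g n := by
  have h1 : Function.Periodic g (p : ℤ) := hper
  have h2 := h1.int_mul (n / p)
  have h3 := h2 (n % p)
  rw [← h3]
  congr 1
  have := Int.emod_add_mul_ediv n p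
  simp only [Int.cast_id]
  linarith

theorem finv (g : ℤ → ℂ) (p : ℕ) (hp : 1 ≤ p) (hper : ∀ n, g (n + p) = g n) (n : ℤ) :
    ∑ a ∈ range p, fc g p a * ee ((n : ℝ) * ((a : ℝ) / p)) = g n := by
  have hp0 : (p : ℂ) ≠ 0 := by
    exact_mod_cast (by omega : p ≠ 0)
  have e1 : ∀ a ∈ range p, fc g p a * ee ((n : ℝ) * ((a : ℝ) / p)) =
      ∑ x ∈ range p, (1 / (p : ℂ)) * g x * ee ((a : ℝ) * (((n - x : ℤ) : ℝ) / p)) := by
    intro a _
    unfold fc
    rw [mul_assoc, sum_mul, mul_sum]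
    refine sum_congr rfl fun x _ => ?_
    have : (a : ℝ) * (((n - x : ℤ) : ℝ) / p) = (a : ℝ) * (-(x : ℝ) / p) + (n : ℝ) * ((a : ℝ) / p) := by
      push_cast
      ring
    rw [this, ls_ee_add]
    ring
  rw [sum_congr rfl e1, sum_comm]
  have e2 : ∀ x ∈ range p, ∑ a ∈ range p, (1 / (p : ℂ)) * g x * ee ((a : ℝ) * (((n - x : ℤ) : ℝ) / p)) =
      if (p : ℤ) ∣ n - x then g x else 0 := by
    intro x _
    rw [← mul_sum, geo p hp]
    split_ifs
    · field_simp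
    · simp
  rw [sum_congr rfl e2]
  have hnn : 0 ≤ n % (p : ℤ) := Int.emod_nonneg _ (by omega)
  have hlt : n % (p : ℤ) < p := Int.emod_lt_of_pos _ (by omega)
  rw [sum_eq_single (n % p).toNat]
  · rw [if_pos]
    · rw [Int.toNat_of_nonneg hnn, per_mod g p hper]
    · rw [Int.toNat_of_nonneg hnn]
      exact Int.dvd_self_sub_emod
  · intro x hx hne
    rw [if_neg]
    intro hd
    apply hne
    rw [mem_range] at hx
    have h1 : n % p = (x : ℤ) % p :=
      Int.emod_eq_emod_iff_emod_sub_eq_zero.2 (Int.emod_eq_zero_of_dvd hd)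
    rw [Int.emod_eq_of_lt (a := (x : ℤ)) (by omega) (by omega)] at h1
    omega
  · intro h
    exfalso
    apply h
    rw [mem_range]
    omega

theorem pars (g : ℤ → ℂ) (p : ℕ) (hp : 1 ≤ p) (hb : ∀ n, ‖g n‖ ≤ 1) :
    ∑ a ∈ range p, ‖fc g p a‖ ^ 2 ≤ 1 := by
  have hp0 : (p : ℂ) ≠ 0 := by
    exact_mod_cast (by omega : p ≠ 0)
  have hpr : (0 : ℝ) < p := by exact_mod_cast hp
  have key : ((∑ a ∈ range p, ‖fc g p a‖ ^ 2 : ℝ) : ℂ) =
      (1 / (p : ℂ)) * ∑ x ∈ range p, ((‖g x‖ ^ 2 : ℝ) : ℂ) := by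
    have e1 : ∀ a ∈ range p, ((‖fc g p a‖ ^ 2 : ℝ) : ℂ) =
        ∑ x ∈ range p, ∑ y ∈ range p, (1 / (p : ℂ)) ^ 2 * (g x * (starRingEnd ℂ) (g y)) *
          ee ((a : ℝ) * (((y - x : ℤ) : ℝ) / p)) := by
      intro a _
      rw [Complex.ofReal_pow, ← Complex.mul_conj']
      unfold fc
      rw [map_mul, map_sum, map_div₀, map_one, Complex.conj_natCast]
      have : ∀ u v : ℂ, 1 / (p : ℂ) * u * (1 / (p : ℂ) * v) = (1 / (p : ℂ)) ^ 2 * (u * v) := by
        intro u v; ring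
      rw [this, sum_mul_sum, mul_sum]
      refine sum_congr rfl fun x _ => ?_
      rw [mul_sum]
      refine sum_congr rfl fun y _ => ?_
      rw [map_mul, ls_conj_ee]
      have h2 : (a : ℝ) * (((y - x : ℤ) : ℝ) / p) =
          (a : ℝ) * (-(x : ℝ) / p) + -((a : ℝ) * (-(y : ℝ) / p)) := by
        push_cast
        ring
      rw [h2, ls_ee_add]
      ring
    rw [Complex.ofReal_sum, sum_congr rfl e1, sum_comm, mul_sum]
    refine sum_congr rfl fun x hx => ?_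
    rw [sum_comm]
    have e2 : ∀ y ∈ range p, ∑ a ∈ range p, (1 / (p : ℂ)) ^ 2 * (g x * (starRingEnd ℂ) (g y)) *
          ee ((a : ℝ) * (((y - x : ℤ) : ℝ) / p)) =
        if y = x then (1 / (p : ℂ)) * ((‖g x‖ ^ 2 : ℝ) : ℂ) else 0 := by
      intro y hy
      rw [← mul_sum, geo p hp]
      rw [mem_range] at hx hy
      by_cases hyx : y = x
      · subst hyx
        simp only [sub_self, dvd_zero, if_true]
        rw [Complex.mul_conj', Complex.ofReal_pow]
        field_simp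
      · rw [if_neg hyx, if_neg, mul_zero]
        intro hd
        apply hyx
        have := Int.eq_zero_of_abs_lt_dvd hd (by rw [abs_lt]; constructor <;> omega)
        omega
    rw [sum_congr rfl e2, sum_ite_eq', if_pos hx]
  have h1 : (∑ a ∈ range p, ‖fc g p a‖ ^ 2 : ℝ) = (1 / (p : ℝ)) * ∑ x ∈ range p, ‖g x‖ ^ 2 := by
    have : ((∑ a ∈ range p, ‖fc g p a‖ ^ 2 : ℝ) : ℂ) =
        (((1 / (p : ℝ)) * ∑ x ∈ range p, ‖g x‖ ^ 2 : ℝ) : ℂ) := by
      rw [key]
      push_cast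
      rfl
    exact_mod_cast this
  rw [h1]
  have h2 : ∑ x ∈ range p, ‖g x‖ ^ 2 ≤ ∑ x ∈ range p, (1 : ℝ) :=
    sum_le_sum fun x _ => by
      have := hb x
      have := norm_nonneg (g x)
      nlinarith
  rw [sum_const, card_range, nsmul_eq_mul, mul_one] at h2
  rw [one_div, inv_mul_le_iff₀ hpr, mul_one]
  exact h2

theorem fc_zero (g : ℤ → ℂ) (p : ℕ) (hp : 1 ≤ p) (D : ℝ)
    (hs : ‖∑ x ∈ range p, g x‖ ≤ D * √p) : ‖fc g p 0‖ ≤ D / √p := by
  have hpr : (0 : ℝ) < p := by exact_mod_cast hp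
  unfold fc
  simp only [Nat.cast_zero, zero_mul, ls_ee_zero, mul_one]
  rw [norm_mul, norm_div, norm_one, Complex.norm_natCast]
  calc 1 / (p : ℝ) * ‖∑ x ∈ range p, g x‖ ≤ 1 / (p : ℝ) * (D * √p) := by gcongr
    _ = D / √p := by
      have h3 : (p : ℝ) = √p * √p := (Real.mul_self_sqrt hpr.le).symm
      have h4 : √(p : ℝ) ≠ 0 := (Real.sqrt_pos.2 hpr).ne'
      field_simp
      rw [Real.sq_sqrt hpr.le]
      ring

end Pool.Agent.Q122.TF
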