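import Pool.Agent.Q122.TF.Fam
import Pool.Agent.TH847.LG.Disc
import Pool.Agent.TH869.EVF.Gen

/-! The fields of the equation `f(x) = t g(x)`. -/

set_option autoImplicit false

namespace Pool.Agent.Q122.TF

open Polynomial Finset NumberField IntermediateField
open scoped Classical

/-- the leading coefficient of the integral normalization -/
theorem comp_eq (P : ℤ[X]) (h : 1 ≤ P.natDegree) :
    (integralNormalization P).comp (C P.leadingCoeff * X) =
      C (P.leadingCoeff ^ (P.natDegree - 1)) * P := by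
  have h1 := integralNormalization_eval₂_leadingCoeff_mul h (C : ℤ →+* ℤ[X]) X
  rw [eval₂_C_X] at h1
  rw [comp, h1, map_pow]

/-- a simple zero modulo `p` gives an ideal of norm `p` -/
theorem norm_of_simple {K : Type} [Field K] [NumberField K] (P : ℤ[X])
    (hdeg : P.natDegree = Module.finrank ℚ K) (hn : 2 ≤ P.natDegree) (α : K)
    (hα : IntermediateField.adjoin ℚ {α} = ⊤) (h0 : aeval α P = 0) (p : ℕ) (hp : p.Prime)
    (ha : ¬ (p : ℤ) ∣ P.leadingCoeff) (x : ℤ) (hx : (p : ℤ) ∣ P.eval x)
    (hx' : ¬ (p : ℤ) ∣ (derivative P).eval x) :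
    ∃ I : Ideal (𝓞 K), Ideal.absNorm I = p := by
  haveI : Fact p.Prime := ⟨hp⟩
  set a := P.leadingCoeff with haa
  set n := P.natDegree with hnn
  have hP0 : P ≠ 0 := by
    rintro rfl
    rw [hnn, natDegree_zero] at hn
    omega
  have ha0 : a ≠ 0 := leadingCoeff_ne_zero.2 hP0
  set Q := integralNormalization P with hQ
  have hcomp : Q.comp (C a * X) = C (a ^ (n - 1)) * P := comp_eq P (by omega)
  have haK : ((a : ℤ) : K) ≠ 0 := by exact_mod_cast ha0
  set β : K := (a : K) * α with hβ
  have hβ0 : aeval β Q = 0 := by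
    have h1 := integralNormalization_eval₂_leadingCoeff_mul (p := P) (by omega)
      (algebraMap ℤ K) α
    rw [aeval_def, hβ]
    have h2 : algebraMap ℤ K P.leadingCoeff = (a : K) := by
      rw [← haa]; exact eq_intCast _ _
    rw [h2, ← aeval_def α P, h0, mul_zero] at h1
    exact h1
  have hβt : IntermediateField.adjoin ℚ {β} = ⊤ := by
    rw [eq_top_iff, ← hα, IntermediateField.adjoin_simple_le_iff]
    have h1 : α = (a : K)⁻¹ * β := by rw [hβ]; field_simp
    rw [h1]
    apply mul_mem
    · apply inv_mem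
      exact intCast_mem _ a
    · exact IntermediateField.mem_adjoin_simple_self ℚ β
  have hev : ∀ (R : ℤ[X]) (z : ℤ), R.eval₂ (Int.castRingHom (ZMod p)) ((z : ℤ) : ZMod p) =
      ((R.eval z : ℤ) : ZMod p) := by
    intro R z
    rw [← eq_intCast (Int.castRingHom (ZMod p)) z, eval₂_at_apply]
    simp
  have e1 : Q.eval (a * x) = a ^ (n - 1) * P.eval x := by
    have h1 := congrArg (eval x) hcomp
    rw [eval_comp, eval_mul, eval_C, eval_X, eval_mul, eval_C] at h1
    exact h1
  have e2 : a * (derivative Q).eval (a * x) = a ^ (n - 1) * (derivative P).eval x := by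
    have h1 := congrArg (fun R : ℤ[X] => eval x (derivative R)) hcomp
    simp only [derivative_comp, derivative_mul, derivative_C, derivative_X, eval_mul, eval_comp,
      eval_C, eval_X, eval_add, zero_mul, mul_one, zero_add] at h1
    linarith
  refine Pool.Agent.TH869.EVF.norm_of_root Q (monic_integralNormalization hP0)
    (by rw [hQ, natDegree_integralNormalization]; exact hdeg) β hβt hβ0 p hp
    ((a * x : ℤ) : ZMod p) ?_ ?_
  · rw [hev, ZMod.intCast_zmod_eq_zero_iff_dvd, e1]
    exact Dvd.dvd.mul_left hx _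
  · rw [hev, Ne, ZMod.intCast_zmod_eq_zero_iff_dvd]
    intro h
    have hpi : Prime (p : ℤ) := Nat.prime_iff_prime_int.1 hp
    have h2 : (p : ℤ) ∣ a ^ (n - 1) * (derivative P).eval x := by
      rw [← e2]
      exact Dvd.dvd.mul_left h _
    rcases hpi.dvd_or_dvd h2 with h3 | h3
    · exact ha (hpi.dvd_of_dvd_pow h3)
    · exact hx' h3

/-- a zero of an integer polynomial with small coefficients: the discriminant is small -/
theorem disc_le_of_root {K : Type} [Field K] [NumberField K] (P : ℤ[X])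
    (hdeg : P.natDegree = Module.finrank ℚ K) (hn : 2 ≤ P.natDegree) (α : K)
    (hα : IntermediateField.adjoin ℚ {α} = ⊤) (h0 : aeval α P = 0) (B : ℝ)
    (hB : ∀ i, |(P.coeff i : ℝ)| ≤ B) :
    |(discr K : ℝ)| ≤ (2 * (P.natDegree * B)) ^ (P.natDegree * (P.natDegree - 1)) := by
  set a := P.leadingCoeff with haa
  set n := P.natDegree with hnn
  have hP0 : P ≠ 0 := by
    rintro rfl
    rw [hnn, natDegree_zero] at hn
    omega
  have ha0 : a ≠ 0 := leadingCoeff_ne_zero.2 hP0
  have haK : ((a : ℤ) : K) ≠ 0 := by exact_mod_cast ha0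
  have hB0 : 0 ≤ B := (abs_nonneg _).trans (hB 0)
  set β : K := (a : K) * α with hβ
  have hβi : IsIntegral ℤ β := by
    refine ⟨integralNormalization P, monic_integralNormalization hP0, ?_⟩
    have h1 := integralNormalization_eval₂_leadingCoeff_mul (p := P) (by omega)
      (algebraMap ℤ K) α
    have h2 : algebraMap ℤ K P.leadingCoeff = (a : K) := by
      rw [← haa]; exact eq_intCast _ _
    rw [h2, ← aeval_def α P, h0, mul_zero] at h1
    exact h1
  have hβt : IntermediateField.adjoin ℚ {β} = ⊤ := by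
    rw [eq_top_iff, ← hα, IntermediateField.adjoin_simple_le_iff]
    have h1 : α = (a : K)⁻¹ * β := by rw [hβ]; field_simp
    rw [h1]
    apply mul_mem
    · apply inv_mem
      exact intCast_mem _ a
    · exact IntermediateField.mem_adjoin_simple_self ℚ β
  refine Pool.Agent.TH847.LG.disc_bound hdeg.symm (⟨β, hβi⟩ : 𝓞 K) hβt fun w => ?_
  change w β ≤ n * B
  have hwint : ∀ m : ℤ, w ((m : ℤ) : K) = |(m : ℝ)| := by
    intro m
    rw [← InfinitePlace.norm_embedding_eq, map_intCast, Complex.norm_intCast]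
  have haB : |(a : ℝ)| ≤ B := hB n
  have hnr : (1 : ℝ) ≤ n := by
    have : 1 ≤ n := by omega
    exact_mod_cast this
  rw [hβ, map_mul, hwint]
  rcases le_or_gt (w α) 1 with hw | hw
  · calc |(a : ℝ)| * w α ≤ B * 1 := by
          apply mul_le_mul haB hw (apply_nonneg _ _) hB0
      _ ≤ n * B := by nlinarith
  · have h1 : aeval α P = ∑ i ∈ range (n + 1), ((P.coeff i : ℤ) : K) * α ^ i := by
      rw [aeval_eq_sum_range]
      refine sum_congr rfl fun i _ => ?_
      rw [zsmul_eq_mul]
    rw [h0, sum_range_succ] at h1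
    have h2 : (a : K) * α ^ n = -∑ i ∈ range n, ((P.coeff i : ℤ) : K) * α ^ i := by
      have : (a : K) = ((P.coeff n : ℤ) : K) := rfl
      rw [this]
      linear_combination -h1
    have h3 : w ((a : K) * α ^ n) ≤ ∑ i ∈ range n, B * w α ^ (n - 1) := by
      rw [h2]
      have e1 : w (-∑ i ∈ range n, ((P.coeff i : ℤ) : K) * α ^ i) =
          w (∑ i ∈ range n, ((P.coeff i : ℤ) : K) * α ^ i) := by
        rw [← InfinitePlace.norm_embedding_eq, ← InfinitePlace.norm_embedding_eq, map_neg, norm_neg]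
      rw [e1, ← InfinitePlace.norm_embedding_eq, map_sum]
      refine (norm_sum_le _ _).trans (sum_le_sum fun i hi => ?_)
      rw [InfinitePlace.norm_embedding_eq, map_mul, map_pow, hwint]
      rw [mem_range] at hi
      apply mul_le_mul (hB i) _ (by positivity) hB0
      exact pow_le_pow_right₀ hw.le (by omega)
    rw [map_mul, map_pow, hwint, sum_const, card_range, nsmul_eq_mul] at h3
    have h4 : 0 < w α ^ (n - 1) := by positivity
    have h5 : w α ^ n = w α ^ (n - 1) * w α := by
      rw [← pow_succ]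
      congr 1
      omega
    rw [h5] at h3
    have h6 : (|(a : ℝ)| * w α) * w α ^ (n - 1) ≤ (n * B) * w α ^ (n - 1) := by
      calc (|(a : ℝ)| * w α) * w α ^ (n - 1) = |(a : ℝ)| * (w α ^ (n - 1) * w α) := by ring
        _ ≤ n * (B * w α ^ (n - 1)) := h3
        _ = _ := by ring
    exact le_of_mul_le_mul_right h6 h4

/-- the fields of the equation `f(x) = t g(x)` -/
theorem side {K : Type} [Field K] [NumberField K] {n : ℕ} (hn2 : 2 ≤ n)
    (hK : Module.finrank ℚ K = n) (f g : ℤ[X]) (hf : f.natDegree ≤ n) (hg : g.natDegree ≤ n)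
    (hW : Wr f g ≠ 0) (t : ℤ) (H : ℝ) (hH : 1 ≤ H) (hfH : ∀ i, |(f.coeff i : ℝ)| ≤ H)
    (hgH : ∀ i, |(g.coeff i : ℝ)| ≤ H) (htH : |(t : ℝ)| ≤ H) (α : K)
    (hα : IntermediateField.adjoin ℚ {α} = ⊤) (h0 : aeval α f = (t : K) * aeval α g) :
    f.coeff n - t * g.coeff n ≠ 0 ∧ |((f.coeff n - t * g.coeff n : ℤ) : ℝ)| ≤ 2 * H ^ 2 ∧
    |(discr K : ℝ)| ≤ (2 * (n * (2 * H ^ 2))) ^ (n * (n - 1)) ∧
    ∀ p : ℕ, p.Prime → ¬ (p : ℤ) ∣ f.coeff n - t * g.coeff n → (Sz f g p t).Nonempty →
      ∃ I : Ideal (𝓞 K), Ideal.absNorm I = p := by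
  set P : ℤ[X] := f - C t * g with hP
  have hP0 : P ≠ 0 := by
    intro h
    apply hW
    rw [hP, sub_eq_zero] at h
    unfold Wr
    rw [h, derivative_mul, derivative_C]
    ring
  have hPα : aeval α P = 0 := by
    rw [hP, map_sub, map_mul, aeval_C, h0]
    simp
  have hPn : P.natDegree ≤ n := by
    rw [hP]
    refine (natDegree_sub_le _ _).trans (max_le hf ?_)
    exact (natDegree_C_mul_le _ _).trans hg
  have hint : IsIntegral ℚ α := Algebra.IsIntegral.isIntegral α
  have hmin : (minpoly ℚ α).natDegree = n := by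
    rw [← IntermediateField.adjoin.finrank hint, hα, IntermediateField.finrank_top', hK]
  have hPn' : n ≤ P.natDegree := by
    rw [← hmin, ← natDegree_map_eq_of_injective (RingHom.injective_int (algebraMap ℤ ℚ)) P]
    apply natDegree_le_of_dvd
    · apply minpoly.dvd
      rw [aeval_map_algebraMap]
      exact hPα
    · exact (Polynomial.map_ne_zero_iff (RingHom.injective_int (algebraMap ℤ ℚ))).2 hP0
  have hPd : P.natDegree = n := le_antisymm hPn hPn'
  have hcoef : ∀ i, P.coeff i = f.coeff i - t * g.coeff i := by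
    intro i
    rw [hP, coeff_sub, coeff_C_mul]
  have hlead : P.leadingCoeff = f.coeff n - t * g.coeff n := by
    rw [leadingCoeff, hPd, hcoef]
  have hcB : ∀ i, |(P.coeff i : ℝ)| ≤ 2 * H ^ 2 := by
    intro i
    rw [hcoef]
    push_cast
    calc |(f.coeff i : ℝ) - t * g.coeff i| ≤ |(f.coeff i : ℝ)| + |(t : ℝ) * g.coeff i| := abs_sub _ _
      _ ≤ H + H * H := by
          rw [abs_mul]
          have := hfH i
          have := hgH i
          gcongr
      _ ≤ 2 * H ^ 2 := by nlinarith
  refine ⟨?_, ?_, ?_, ?_⟩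
  · rw [← hlead]
    exact leadingCoeff_ne_zero.2 hP0
  · rw [← hcoef]
    exact hcB n
  · have h1 := disc_le_of_root P (by rw [hPd, hK]) (by omega) α hα hPα (2 * H ^ 2) hcB
    rwa [hPd] at h1
  · intro p hp hpa hne
    obtain ⟨x, hx⟩ := hne
    rw [mem_Sz] at hx
    refine norm_of_simple P (by rw [hPd, hK]) (by omega) α hα hPα p hp (by rw [hlead]; exact hpa)
      (x : ℤ) ?_ ?_
    · rw [hP, eval_sub, eval_mul, eval_C]
      exact hx.2.2.1
    · rw [hP, derivative_sub, derivative_C_mul, eval_sub, eval_mul, eval_C]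
      exact hx.2.2.2

end Pool.Agent.Q122.TF
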