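import Pool.Agent.Q122.TF.Ev2

/-! Many small primes of degree one give the bound for the torsion. -/

set_option autoImplicit false

namespace Pool.Agent.Q122.TF

open NumberField Finset Filter Topology
open scoped Classical Nat

theorem tor_main (n : ℕ) (hn2 : 2 ≤ n) (a κ η δ : ℝ) (ha : 0 < a) (hκ : 0 < κ) (hκ1 : κ ≤ 1)
    (hη : 0 < η) (hδ : 0 < δ) (hδ1 : δ < 1) : ∃ C : ℝ, 0 < C ∧ ∀ᶠ M : ℝ in atTop,
    ∀ (K : Type) [Field K] [NumberField K], Module.finrank ℚ K = n →
    |(discr K : ℝ)| ≤ M ^ a → ∀ S : Finset ℕ,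
    (∀ p ∈ S, p.Prime ∧ ¬ p ∣ (discr K).natAbs ∧ ∃ P : Ideal (𝓞 K), Ideal.absNorm P = p) →
    (∀ p ∈ S, (p : ℝ) ≤ M ^ η) → κ * M ^ (η * (1 - δ)) ≤ S.card → ∀ l : ℕ, 1 ≤ l →
    (Nat.card {c : ClassGroup (𝓞 K) // c ^ l = 1} : ℝ) ≤
      C * |(discr K : ℝ)| ^ (1 / 2 - 1 / (2 * l * (n - 1)) : ℝ) * M ^ (η + 2 * a * δ) := by
  obtain ⟨C1, hC10, hC1⟩ := W_le n hn2
  set A : ℝ := 300 ^ n with hA
  have hA1 : 1 ≤ A := one_le_pow₀ (by norm_num)
  set J : ℕ := ⌈2 * a / η⌉₊ with hJ
  set τ : ℝ := δ / n with hτ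
  have hnr : (2 : ℝ) ≤ n := by exact_mod_cast hn2
  have hτ0 : 0 < τ := by positivity
  refine ⟨C1 * (1 / τ) ^ n * (2 * A) * ((J ! : ℕ) : ℝ) * (2 / κ) ^ J, by positivity, ?_⟩
  have ev1 : ∀ᶠ M : ℝ in atTop, (2 : ℝ) ≤ M ^ (η / 2) :=
    (tendsto_rpow_atTop (by positivity)).eventually_ge_atTop _
  have ev2' : ∀ᶠ M : ℝ in atTop, (2 * J / κ : ℝ) ≤ M ^ (η * (1 - δ)) :=
    (tendsto_rpow_atTop (mul_pos hη (by linarith))).eventually_ge_atTop _
  filter_upwards [ev1, ev2', eventually_ge_atTop 1] with M hM1 hM2 hM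
  intro K _ _ hn hDM S hS hSM hScard l hl
  obtain ⟨N0, hN0, hW⟩ := hC1 K hn
  have hM0 : 0 < M := by linarith
  have hD3 : (3 : ℝ) ≤ |(discr K : ℝ)| := by
    have := abs_discr_gt_two (K := K) (by rw [hn]; omega)
    have h3 : 3 ≤ |discr K| := by omega
    exact_mod_cast h3
  have hDn : |(discr K : ℝ)| = ((discr K).natAbs : ℝ) := by
    rw [Nat.cast_natAbs]
    push_cast
    rfl
  set D : ℝ := |(discr K : ℝ)| with hD
  have hD0 : 0 < D := by linarith
  have hlr : (1 : ℝ) ≤ l := by exact_mod_cast hl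
  set T : ℝ := (Nat.card {c : ClassGroup (𝓞 K) // c ^ l = 1} : ℝ) with hT
  have hT0 : 0 ≤ T := by positivity
  -- the exponent
  set θ : ℝ := 1 / (2 * l * (n - 1)) with hθ
  have hn1 : (1 : ℝ) ≤ (n : ℝ) - 1 := by linarith
  have hden : (2 : ℝ) ≤ 2 * l * (n - 1) := by nlinarith
  have hθ0 : 0 < θ := by positivity
  have hθ1 : θ ≤ 1 := by
    rw [hθ, div_le_one (by linarith)]
    linarith
  set x : ℝ := D ^ θ with hx
  have hx1 : 1 ≤ x := Real.one_le_rpow (by linarith) hθ0.le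
  have hxD : x ≤ D := by
    calc x ≤ D ^ (1 : ℝ) := Real.rpow_le_rpow_of_exponent_le (by linarith) hθ1
      _ = D := Real.rpow_one D
  have hsq : D ^ (1 / 2 - θ) = √D / x := by
    rw [Real.rpow_sub hD0, Real.sqrt_eq_rpow]
  rw [hsq]
  -- the logarithm
  have hlog : (Real.log D) ^ n ≤ (1 / τ) ^ n * M ^ (a * δ) := by
    have h1 : Real.log D ≤ D ^ τ / τ := Real.log_le_rpow_div hD0.le hτ0
    have h0 : 0 ≤ Real.log D := Real.log_nonneg (by linarith)
    calc (Real.log D) ^ n ≤ (D ^ τ / τ) ^ n := pow_le_pow_left₀ h0 h1 n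
      _ = (1 / τ) ^ n * D ^ δ := by
          rw [div_eq_mul_one_div, mul_pow, mul_comm, ← Real.rpow_natCast (D ^ τ),
            ← Real.rpow_mul hD0.le]
          congr 2
          rw [hτ]
          field_simp
      _ ≤ (1 / τ) ^ n * (M ^ a) ^ δ := by gcongr
      _ = _ := by rw [← Real.rpow_mul hM0.le]
  set L : ℝ := (1 / τ) ^ n * M ^ (a * δ) with hL
  have hL0 : 0 < L := by positivity
  have hW' : WW K n N0 ≤ C1 * √D * L := hW.trans (by gcongr)
  -- the primes
  set Y : ℝ := M ^ η with hY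
  have hY0 : 0 < Y := by positivity
  have hY4 : 4 ≤ Y := by
    have : Y = M ^ (η / 2) * M ^ (η / 2) := by
      rw [hY, ← Real.rpow_add hM0]; congr 1; ring
    rw [this]
    nlinarith
  set N : ℕ := ⌊Y⌋₊ with hN
  have hN4 : 4 ≤ N := Nat.le_floor (by exact_mod_cast hY4)
  have hNY : (N : ℝ) ≤ Y := Nat.floor_le hY0.le
  have hNr : (4 : ℝ) ≤ N := by exact_mod_cast hN4
  have hNlow : M ^ (η / 2) ≤ N := by
    have h1 : Y < N + 1 := Nat.lt_floor_add_one Y
    have h2 : Y = M ^ (η / 2) * M ^ (η / 2) := by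
      rw [hY, ← Real.rpow_add hM0]; congr 1; ring
    nlinarith
  set y : ℕ := ⌊x / A⌋₊ with hy
  have hyx : (y : ℝ) ≤ x / A := Nat.floor_le (by positivity)
  have hMe : M ^ (η + 2 * a * δ) = Y * (M ^ (a * δ) * M ^ (a * δ)) := by
    rw [hY, ← Real.rpow_add hM0, ← Real.rpow_add hM0]
    congr 1
    ring
  have hMad : 1 ≤ M ^ (a * δ) := Real.one_le_rpow hM (by positivity)
  have hJ1 : (1 : ℝ) ≤ ((J ! : ℕ) : ℝ) := by exact_mod_cast Nat.one_le_of_lt (Nat.factorial_pos J)
  have hκJ : 1 ≤ (2 / κ) ^ J := one_le_pow₀ (by rw [le_div_iff₀ hκ]; linarith)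
  rcases lt_or_ge y N with hyN | hyN
  · -- the trivial bound
    have h1 : T ≤ C1 * √D * L := (tor_trivial hn N0 l hN0).trans hW'
    have h2 : x ≤ A * Y := by
      have h3 : x / A < y + 1 := Nat.lt_floor_add_one _
      have h4 : ((y : ℝ) + 1) ≤ N := by exact_mod_cast hyN
      rw [div_lt_iff₀ (by linarith)] at h3
      nlinarith
    calc T ≤ C1 * √D * L := h1
      _ = C1 * (1 / τ) ^ n * (√D / x) * x * M ^ (a * δ) := by
          rw [hL]; field_simp
      _ ≤ C1 * (1 / τ) ^ n * (√D / x) * (A * Y) * M ^ (a * δ) := by gcongr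
      _ = C1 * (1 / τ) ^ n * (1 * A) * 1 * 1 * (√D / x) * (Y * (1 * M ^ (a * δ))) := by ring
      _ ≤ C1 * (1 / τ) ^ n * (2 * A) * ((J ! : ℕ) : ℝ) * (2 / κ) ^ J * (√D / x) *
            (Y * (M ^ (a * δ) * M ^ (a * δ))) := by
          gcongr
          norm_num
      _ = _ := by rw [hMe]
  · -- products of primes
    set j := Nat.log N y with hj
    have hy1 : 1 ≤ y := by omega
    have hNj : N ^ j ≤ y := Nat.pow_log_le_self N (by omega)
    have hNj1 : y < N ^ (j + 1) := Nat.lt_pow_succ_log_self (by omega) y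
    have hyxx : (y : ℝ) ≤ x := hyx.trans (div_le_self (by linarith) hA1)
    have hjJ : j ≤ J := by
      have h1 : M ^ (η / 2 * j) ≤ M ^ a := by
        calc M ^ (η / 2 * j) = (M ^ (η / 2)) ^ j := by
              rw [Real.rpow_mul hM0.le, Real.rpow_natCast]
          _ ≤ (N : ℝ) ^ j := by gcongr
          _ ≤ y := by exact_mod_cast hNj
          _ ≤ x := hyxx
          _ ≤ D := hxD
          _ ≤ M ^ a := hDM
      have hM1' : 1 < M := by
        by_contra hcon
        have : M = 1 := by linarith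
        rw [this, Real.one_rpow] at hM1
        linarith
      have h2 := (Real.rpow_le_rpow_left_iff hM1').1 h1
      have h3 : (j : ℝ) ≤ 2 * a / η := by
        rw [le_div_iff₀ hη]
        linarith
      have h4 : (j : ℝ) ≤ J := h3.trans (Nat.le_ceil _)
      exact_mod_cast h4
    have hcond : (2 * 150 ^ l) ^ (n * (n - 1)) * y ^ (2 * l * (n - 1)) < (discr K).natAbs := by
      obtain ⟨r, rfl⟩ : ∃ r, n = r + 1 := ⟨n - 1, by omega⟩
      simp only [Nat.add_sub_cancel]
      have hr : 1 ≤ r := by omega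
      have hlr1 : 1 ≤ l * r := Nat.mul_pos (by omega) (by omega)
      have h1 : (2 * 150 ^ l) ^ ((r + 1) * r) ≤ (300 ^ (r + 1)) ^ (l * r) := by
        calc (2 * 150 ^ l) ^ ((r + 1) * r) ≤ (300 ^ l) ^ ((r + 1) * r) := by
              apply Nat.pow_le_pow_left
              calc 2 * 150 ^ l ≤ 2 ^ l * 150 ^ l := by
                    apply Nat.mul_le_mul_right
                    exact Nat.le_self_pow (by omega) 2
                _ = 300 ^ l := by rw [← mul_pow]; norm_num
          _ = (300 ^ (r + 1)) ^ (l * r) := by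
              rw [← pow_mul, ← pow_mul]; congr 1; ring
      have h2 : (y : ℝ) ^ (2 * l * r) ≤ D / A ^ (2 * l * r) := by
        have h3 : x ^ (2 * l * r) = D := by
          rw [hx, ← Real.rpow_natCast, ← Real.rpow_mul hD0.le, hθ]
          have : (1 / (2 * (l : ℝ) * (((r + 1 : ℕ) : ℝ) - 1))) * ((2 * l * r : ℕ) : ℝ) = 1 := by
            have hr0 : (r : ℝ) ≠ 0 := by
              have : r ≠ 0 := by omega
              exact_mod_cast this
            have hl0 : (l : ℝ) ≠ 0 := by linarith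
            have hr1 : ((r + 1 : ℕ) : ℝ) - 1 = r := by push_cast; ring
            rw [hr1]
            push_cast
            field_simp
          rw [this, Real.rpow_one]
        calc (y : ℝ) ^ (2 * l * r) ≤ (x / A) ^ (2 * l * r) := by gcongr
          _ = D / A ^ (2 * l * r) := by rw [div_pow, h3]
      have h3 : (((300 ^ (r + 1)) ^ (l * r) : ℕ) : ℝ) * (y : ℝ) ^ (2 * l * r) < D := by
        have h4 : (((300 ^ (r + 1)) ^ (l * r) : ℕ) : ℝ) = A ^ (l * r) := by
          rw [hA]; push_cast; rfl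
        rw [h4]
        calc A ^ (l * r) * (y : ℝ) ^ (2 * l * r) ≤ A ^ (l * r) * (D / A ^ (2 * l * r)) := by gcongr
          _ = D / A ^ (l * r) := by
              have e : 2 * l * r = l * r + l * r := by ring
              rw [e, pow_add]
              field_simp
          _ < D := by
              apply div_lt_self hD0
              apply one_lt_pow₀ _ (by omega)
              rw [hA]
              exact one_lt_pow₀ (by norm_num) (by omega)
      have h5 : ((((2 * 150 ^ l) ^ ((r + 1) * r) * y ^ (2 * l * r) : ℕ)) : ℝ) < (discr K).natAbs := by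
        rw [← hDn]
        refine lt_of_le_of_lt ?_ h3
        have h6 : (2 * 150 ^ l) ^ ((r + 1) * r) * y ^ (2 * l * r) ≤
            (300 ^ (r + 1)) ^ (l * r) * y ^ (2 * l * r) := Nat.mul_le_mul_right _ h1
        exact_mod_cast h6
      exact_mod_cast h5
    have hprod : ∀ U ∈ S.powersetCard j, ∏ p ∈ U, p ≤ y := by
      intro U hU
      rw [mem_powersetCard] at hU
      calc ∏ p ∈ U, p ≤ ∏ _p ∈ U, N := by
            apply prod_le_prod' fun p hp => ?_
            exact Nat.le_floor (hSM p (hU.1 hp))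
        _ = N ^ j := by rw [prod_const, hU.2]
        _ ≤ y := hNj
    have hev := ev2 hn hn2 hl N0 hN0 S j y hS hprod hcond
    rw [← hT] at hev
    -- the number of products
    set s := S.card with hs
    have hs1 : κ * (N : ℝ) ^ (1 - δ) ≤ s := by
      refine le_trans ?_ hScard
      rw [Real.rpow_mul hM0.le]
      gcongr
    have hsJ : 2 * J ≤ s := by
      have h1 : (2 * J : ℝ) ≤ s := by
        refine le_trans ?_ hScard
        rw [div_le_iff₀ hκ] at hM2
        linarith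
      exact_mod_cast h1
    have hchoose : (κ / 2 * (N : ℝ) ^ (1 - δ)) ^ j ≤ ((J ! : ℕ) : ℝ) * (s.choose j : ℕ) := by
      have h1 := Nat.pow_le_choose (α := ℝ) j s
      have h2 : (κ / 2 * (N : ℝ) ^ (1 - δ)) ≤ ((s + 1 - j : ℕ) : ℝ) := by
        have h3 : (s : ℝ) / 2 ≤ ((s + 1 - j : ℕ) : ℝ) := by
          rw [div_le_iff₀ (by norm_num)]
          have : s ≤ (s + 1 - j) * 2 := by omega
          exact_mod_cast this
        linarith
      have h4 : ((j ! : ℕ) : ℝ) ≤ ((J ! : ℕ) : ℝ) := by exact_mod_cast Nat.factorial_le hjJ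
      calc (κ / 2 * (N : ℝ) ^ (1 - δ)) ^ j ≤ ((s + 1 - j : ℕ) : ℝ) ^ j := by
            apply pow_le_pow_left₀ (by positivity) h2
        _ ≤ ((j ! : ℕ) : ℝ) * (s.choose j : ℕ) := by
            have h5 : (0 : ℝ) < ((j ! : ℕ) : ℝ) := by exact_mod_cast Nat.factorial_pos j
            rw [div_le_iff₀ h5] at h1
            linarith
        _ ≤ _ := by gcongr
    have hlow : x ≤ (2 * A) * Y * M ^ (a * δ) * ((N : ℝ) ^ (1 - δ)) ^ j := by
      have h1 : x / A ≤ 2 * y := by
        have h3 : x / A < y + 1 := Nat.lt_floor_add_one _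
        have h4 : (1 : ℝ) ≤ y := by exact_mod_cast hy1
        linarith
      have h2 : (y : ℝ) ≤ Y * M ^ (a * δ) * ((N : ℝ) ^ (1 - δ)) ^ j := by
        have hy0 : (0 : ℝ) < y := by exact_mod_cast hy1
        have h3 : (y : ℝ) = (y : ℝ) ^ (1 - δ) * (y : ℝ) ^ δ := by
          rw [← Real.rpow_add hy0]
          simp
        have h4 : (y : ℝ) ^ (1 - δ) ≤ ((N : ℝ) ^ (1 - δ)) ^ j * N := by
          calc (y : ℝ) ^ (1 - δ) ≤ ((N : ℝ) ^ (j + 1)) ^ (1 - δ) := by
                apply Real.rpow_le_rpow hy0.le _ (by linarith)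
                exact_mod_cast hNj1.le
            _ = ((N : ℝ) ^ (1 - δ)) ^ (j + 1) := by
                rw [← Real.rpow_natCast, ← Real.rpow_natCast, ← Real.rpow_mul (by positivity),
                  ← Real.rpow_mul (by positivity)]
                congr 1
                ring
            _ = ((N : ℝ) ^ (1 - δ)) ^ j * (N : ℝ) ^ (1 - δ) := pow_succ _ _
            _ ≤ ((N : ℝ) ^ (1 - δ)) ^ j * N := by
                gcongr
                calc (N : ℝ) ^ (1 - δ) ≤ (N : ℝ) ^ (1 : ℝ) :=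
                      Real.rpow_le_rpow_of_exponent_le (by linarith) (by linarith)
                  _ = N := Real.rpow_one _
        have h5 : (y : ℝ) ^ δ ≤ M ^ (a * δ) := by
          calc (y : ℝ) ^ δ ≤ (M ^ a) ^ δ := by
                apply Real.rpow_le_rpow hy0.le _ hδ.le
                exact hyxx.trans (hxD.trans hDM)
            _ = _ := by rw [← Real.rpow_mul hM0.le]
        calc (y : ℝ) = (y : ℝ) ^ (1 - δ) * (y : ℝ) ^ δ := h3
          _ ≤ (((N : ℝ) ^ (1 - δ)) ^ j * N) * M ^ (a * δ) := by gcongr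
          _ ≤ (((N : ℝ) ^ (1 - δ)) ^ j * Y) * M ^ (a * δ) := by gcongr
          _ = _ := by ring
      rw [div_le_iff₀ (by linarith)] at h1
      calc x ≤ 2 * y * A := h1
        _ ≤ 2 * (Y * M ^ (a * δ) * ((N : ℝ) ^ (1 - δ)) ^ j) * A := by gcongr
        _ = _ := by ring
    -- conclusion
    have hx0 : 0 < x := by linarith
    have hmain : T * x ≤ (C1 * √D * L) * ((2 * A) * Y * M ^ (a * δ) *
        (((J ! : ℕ) : ℝ) * (2 / κ) ^ J)) := by
      have h1 : ((N : ℝ) ^ (1 - δ)) ^ j ≤ (2 / κ) ^ J * (((J ! : ℕ) : ℝ) * (s.choose j : ℕ)) := by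
        have h2 : ((N : ℝ) ^ (1 - δ)) ^ j = (2 / κ) ^ j * (κ / 2 * (N : ℝ) ^ (1 - δ)) ^ j := by
          rw [← mul_pow]
          congr 1
          field_simp
        rw [h2]
        gcongr
        rw [le_div_iff₀ hκ]
        linarith
      calc T * x ≤ T * ((2 * A) * Y * M ^ (a * δ) * ((N : ℝ) ^ (1 - δ)) ^ j) := by gcongr
        _ ≤ T * ((2 * A) * Y * M ^ (a * δ) *
              ((2 / κ) ^ J * (((J ! : ℕ) : ℝ) * (s.choose j : ℕ)))) := by gcongr
        _ = (((s.choose j : ℕ) : ℝ) * T) * ((2 * A) * Y * M ^ (a * δ) *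
              (((J ! : ℕ) : ℝ) * (2 / κ) ^ J)) := by ring
        _ ≤ (C1 * √D * L) * ((2 * A) * Y * M ^ (a * δ) *
              (((J ! : ℕ) : ℝ) * (2 / κ) ^ J)) := by
            have := hev.trans hW'
            gcongr
    rw [hMe]
    have h9 : T ≤ ((C1 * √D * L) * ((2 * A) * Y * M ^ (a * δ) *
        (((J ! : ℕ) : ℝ) * (2 / κ) ^ J))) / x := by
      rw [le_div_iff₀ hx0]
      exact hmain
    refine h9.trans (le_of_eq ?_)
    rw [hL]
    field_simp

end Pool.Agent.Q122.TF
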