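import Pool.Agent.Q122.TF.Except2
import Pool.Agent.Q122.TF.Side
import Pool.Agent.Q122.TF.Tor2

/-! Torsion in the class groups of the fields of `f(x) = t g(x)`. -/

set_option autoImplicit false

namespace Pool.Agent.Q122.TF

open Polynomial Finset NumberField Filter Topology
open scoped Classical

/-- equal degrees if the Wronskian vanishes -/
theorem deg_eq_of_Wr {f g : ℤ[X]} (hf : f ≠ 0) (hg : g ≠ 0) (hW : Wr f g = 0) :
    f.natDegree = g.natDegree := by
  have h1 : derivative f * g = f * derivative g := sub_eq_zero.1 hW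
  have hc : ∀ p q : ℤ[X], (derivative p * q).coeff (p.natDegree + q.natDegree - 1) =
      (p.natDegree : ℤ) * (p.leadingCoeff * q.leadingCoeff) := by
    intro p q
    by_cases hp : p.natDegree = 0
    · obtain ⟨c, hc⟩ := natDegree_eq_zero.1 hp
      rw [hp, ← hc, derivative_C, zero_mul, coeff_zero]
      simp
    · have h2 : p.natDegree + q.natDegree - 1 = (p.natDegree - 1) + q.natDegree := by omega
      rw [h2, coeff_mul_add_eq_of_natDegree_le (natDegree_derivative_le p) le_rfl,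
        coeff_derivative]
      have h3 : p.natDegree - 1 + 1 = p.natDegree := by omega
      have h4 : ((p.natDegree - 1 : ℕ) : ℤ) + 1 = p.natDegree := by exact_mod_cast h3
      rw [h3, h4, leadingCoeff, leadingCoeff]
      ring
  have h2 := hc f g
  have h3 := hc g f
  rw [h1, mul_comm f, add_comm, h3] at h2
  have h4 : f.leadingCoeff * g.leadingCoeff ≠ 0 :=
    mul_ne_zero (leadingCoeff_ne_zero.2 hf) (leadingCoeff_ne_zero.2 hg)
  have h5 : (g.natDegree : ℤ) = f.natDegree := by
    apply mul_right_cancel₀ h4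
    rw [← h2]
    ring
  exact_mod_cast h5.symm

/-- if the Wronskian vanishes, the polynomials are proportional -/
theorem prop_of_Wr {f g : ℤ[X]} (hW : Wr f g = 0) (i j : ℕ) :
    f.coeff i * g.coeff j = f.coeff j * g.coeff i := by
  by_cases hf : f = 0
  · simp [hf]
  by_cases hg : g = 0
  · simp [hg]
  have hd := deg_eq_of_Wr hf hg hW
  set h : ℤ[X] := C g.leadingCoeff * f - C f.leadingCoeff * g with hh
  have hWh : Wr h g = 0 := by
    have h1 : Wr h g = C g.leadingCoeff * Wr f g := by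
      unfold Wr
      rw [hh, derivative_sub, derivative_C_mul, derivative_C_mul]
      ring
    rw [h1, hW, mul_zero]
  have hh0 : h = 0 := by
    by_contra hne
    have h1 := deg_eq_of_Wr hne hg hWh
    have h2 : h.coeff g.natDegree = 0 := by
      rw [hh, coeff_sub, coeff_C_mul, coeff_C_mul]
      have : f.coeff g.natDegree = f.leadingCoeff := by rw [← hd]; rfl
      rw [this, leadingCoeff]
      have : g.coeff g.natDegree = g.leadingCoeff := rfl
      rw [this]
      ring
    rw [← h1] at h2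
    exact hne (leadingCoeff_eq_zero.1 h2)
  have hco : ∀ k, g.leadingCoeff * f.coeff k = f.leadingCoeff * g.coeff k := by
    intro k
    have h1 := congrArg (fun q : ℤ[X] => q.coeff k) hh0
    simp only [hh, coeff_sub, coeff_C_mul, coeff_zero] at h1
    linarith
  have hg0 := leadingCoeff_ne_zero.2 hg
  apply mul_left_cancel₀ hg0
  calc g.leadingCoeff * (f.coeff i * g.coeff j) = (g.leadingCoeff * f.coeff i) * g.coeff j := by ring
    _ = (f.leadingCoeff * g.coeff i) * g.coeff j := by rw [hco]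
    _ = (f.leadingCoeff * g.coeff j) * g.coeff i := by ring
    _ = (g.leadingCoeff * f.coeff j) * g.coeff i := by rw [hco]
    _ = _ := by ring

/-- the coefficients of the Wronskian -/
theorem Wr_coeff (f g : ℤ[X]) (n : ℕ) (hf : f.natDegree ≤ n) (hg : g.natDegree ≤ n) (H : ℝ)
    (hfH : ∀ i, |(f.coeff i : ℝ)| ≤ H) (hgH : ∀ i, |(g.coeff i : ℝ)| ≤ H) (k : ℕ) :
    |((Wr f g).coeff k : ℝ)| ≤ 2 * ((k + 1) * (n * H ^ 2)) := by
  have hH : 0 ≤ H := (abs_nonneg _).trans (hfH 0)
  have hd : ∀ p : ℤ[X], p.natDegree ≤ n → (∀ i, |(p.coeff i : ℝ)| ≤ H) →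
      ∀ i, |((derivative p).coeff i : ℝ)| ≤ n * H := by
    intro p hp hpH i
    rw [coeff_derivative]
    by_cases hi : i + 1 ≤ n
    · push_cast
      rw [abs_mul, mul_comm]
      have h1 : |(i : ℝ) + 1| ≤ n := by
        rw [abs_of_nonneg (by positivity)]
        exact_mod_cast hi
      exact mul_le_mul h1 (hpH _) (abs_nonneg _) (by positivity)
    · rw [coeff_eq_zero_of_natDegree_lt (by omega)]
      simp only [zero_mul, Int.cast_zero, abs_zero]
      positivity
  have hm : ∀ p q : ℤ[X], ∀ a b : ℝ, (∀ i, |(p.coeff i : ℝ)| ≤ a) → (∀ i, |(q.coeff i : ℝ)| ≤ b) →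
      |((p * q).coeff k : ℝ)| ≤ (k + 1) * (a * b) := by
    intro p q a b hp hq
    rw [coeff_mul]
    push_cast
    refine (abs_sum_le_sum_abs _ _).trans ?_
    calc ∑ x ∈ antidiagonal k, |(p.coeff x.1 : ℝ) * (q.coeff x.2 : ℝ)|
        ≤ ∑ x ∈ antidiagonal k, a * b := by
          refine sum_le_sum fun x _ => ?_
          rw [abs_mul]
          exact mul_le_mul (hp _) (hq _) (abs_nonneg _) ((abs_nonneg _).trans (hp 0))
      _ = (k + 1) * (a * b) := by
          rw [sum_const, Finset.Nat.card_antidiagonal, nsmul_eq_mul]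
          push_cast
          ring
  unfold Wr
  rw [coeff_sub]
  push_cast
  have h1 := hm (derivative f) g (n * H) H (hd f hf hfH) hgH
  have h2 := hm f (derivative g) H (n * H) hfH (hd g hg hgH)
  calc |((derivative f * g).coeff k : ℝ) - ((f * derivative g).coeff k : ℝ)|
      ≤ |((derivative f * g).coeff k : ℝ)| + |((f * derivative g).coeff k : ℝ)| := abs_sub _ _
    _ ≤ _ := by nlinarith

theorem gz (n : ℕ) (hn : 2 ≤ n) (ε : ℝ) (hε : 0 < ε) : ∃ C : ℝ, 0 < C ∧ ∀ H : ℕ, 1 ≤ H →
    ∀ f g : ℤ[X], f.natDegree ≤ n → g.natDegree ≤ n →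
    (∀ i, |f.coeff i| ≤ (H : ℤ)) → (∀ i, |g.coeff i| ≤ (H : ℤ)) →
    (∃ i j, f.coeff i * g.coeff j ≠ f.coeff j * g.coeff i) →
    ∀ (A : ℤ) (T : ℕ), 1 ≤ T → |A| ≤ (H : ℤ) → T ≤ H →
    ∃ E ⊆ Ioc A (A + T), (E.card : ℝ) ≤ C * √T * (H : ℝ) ^ ε ∧ ∀ t ∈ Ioc A (A + T), t ∉ E →
      ∀ (K : Type) [Field K] [NumberField K], Module.finrank ℚ K = n → ∀ α : K,
      IntermediateField.adjoin ℚ {α} = ⊤ → aeval α f = (t : K) * aeval α g → ∀ l : ℕ, 1 ≤ l →
      (Nat.card {c : ClassGroup (𝓞 K) // c ^ l = 1} : ℝ) ≤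
        C * |(discr K : ℝ)| ^ (1 / 2 - 1 / (2 * l * (n - 1)) : ℝ) * (H : ℝ) ^ ε := by
  have hnr : (2 : ℝ) ≤ n := by exact_mod_cast hn
  set a : ℝ := 3 * n ^ 2 with ha
  have ha0 : 0 < a := by positivity
  have ha12 : 12 ≤ a := by
    rw [ha]; nlinarith
  set δ : ℝ := min (ε / (4 * a)) (1 / 2) with hδ
  have hδ0 : 0 < δ := lt_min (by positivity) (by norm_num)
  have hδ1 : δ < 1 := (min_le_right _ _).trans_lt (by norm_num)
  have hδε : 2 * a * δ ≤ ε / 2 := by
    have h1 : δ ≤ ε / (4 * a) := min_le_left _ _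
    calc 2 * a * δ ≤ 2 * a * (ε / (4 * a)) := by gcongr
      _ = ε / 2 := by field_simp; norm_num
  have hδε' : δ ≤ ε / 2 := by nlinarith
  set η : ℝ := ε / 2 with hη
  have hη0 : 0 < η := by positivity
  have hn0 : (0 : ℝ) < n := by linarith
  obtain ⟨C1, hC10, hE⟩ := except2 3 (1 / (4 * n)) a η δ 0 (by norm_num) (by positivity) ha0 hη0
    hδ0 hδ1
  obtain ⟨C2, hC20, hT⟩ := tor_main n hn a (1 / n) η δ ha0 (by positivity)
    (by rw [div_le_one hn0]; linarith) hη0 hδ0 hδ1
  have ev3 : ∀ᶠ M : ℝ in atTop, ‖Real.log M‖ ≤ 1 / (8 * a * n) * ‖M ^ (η * (1 - δ))‖ :=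
    (isLittleO_log_rpow_atTop (mul_pos hη0 (by linarith))).bound (by positivity)
  obtain ⟨M0, hM0⟩ := eventually_atTop.1 (hE.and (hT.and (ev3.and
    (eventually_ge_atTop (12 * n ^ 2 : ℝ)))))
  set H0 : ℝ := max M0 1 with hH0
  have hH01 : 1 ≤ H0 := le_max_right _ _
  refine ⟨max (C1 * 2 ^ ε) (max (C2 * 2 ^ ε) (√H0)), by positivity, ?_⟩
  set CC : ℝ := max (C1 * 2 ^ ε) (max (C2 * 2 ^ ε) (√H0)) with hCC
  have hCC1 : C1 * 2 ^ ε ≤ CC := le_max_left _ _
  have hCC2 : C2 * 2 ^ ε ≤ CC := (le_max_left _ _).trans (le_max_right _ _)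
  have hCC3 : √H0 ≤ CC := (le_max_right _ _).trans (le_max_right _ _)
  intro H hH f g hf hg hfH hgH hfg A T hT1 hAH hTH
  have hHr : (1 : ℝ) ≤ H := by exact_mod_cast hH
  have hHε : 1 ≤ (H : ℝ) ^ ε := Real.one_le_rpow hHr hε.le
  have hTHr : (T : ℝ) ≤ H := by exact_mod_cast hTH
  rcases lt_or_ge (2 * (H : ℝ)) H0 with hsmall | hbig
  · refine ⟨Ioc A (A + T), Finset.Subset.refl _, ?_, fun t ht htE => absurd ht htE⟩
    rw [Int.card_Ioc]
    have e1 : (((A + T - A).toNat : ℕ) : ℝ) = T := by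
      have : (A + T - A).toNat = T := by omega
      rw [this]
    rw [e1]
    calc (T : ℝ) = √T * √T := (Real.mul_self_sqrt (by positivity)).symm
      _ ≤ √H0 * √T := by
          gcongr
          linarith
      _ = √H0 * √T * 1 := by ring
      _ ≤ CC * √T * (H : ℝ) ^ ε := by gcongr
  · set M : ℝ := 2 * H with hM
    obtain ⟨h1, h2, h3, h4⟩ := hM0 M ((le_max_left _ _).trans hbig)
    have hM1 : 1 ≤ M := by linarith
    have hM0' : 0 < M := by linarith
    have hMn : 12 * (n : ℝ) ^ 2 ≤ M := h4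
    -- the Wronskian
    have hW : Wr f g ≠ 0 := by
      intro h
      obtain ⟨i, j, hij⟩ := hfg
      exact hij (prop_of_Wr h i j)
    have hfR : ∀ i, |(f.coeff i : ℝ)| ≤ H := fun i => by exact_mod_cast hfH i
    have hgR : ∀ i, |(g.coeff i : ℝ)| ≤ H := fun i => by exact_mod_cast hgH i
    have hWd : (Wr f g).natDegree ≤ 2 * n := by
      unfold Wr
      refine (natDegree_sub_le _ _).trans (max_le ?_ ?_)
      · refine natDegree_mul_le.trans ?_
        have := natDegree_derivative_le f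
        omega
      · refine natDegree_mul_le.trans ?_
        have := natDegree_derivative_le g
        omega
    set w : ℤ := (Wr f g).leadingCoeff with hw
    have hw0 : w ≠ 0 := leadingCoeff_ne_zero.2 hW
    have hwM : |(w : ℝ)| ≤ M ^ a := by
      have h5 := Wr_coeff f g n hf hg H hfR hgR (Wr f g).natDegree
      have h6 : ((Wr f g).natDegree : ℝ) ≤ 2 * n := by exact_mod_cast hWd
      have h7 : |(w : ℝ)| ≤ M ^ 3 := by
        calc |(w : ℝ)| ≤ 2 * (((Wr f g).natDegree + 1) * (n * (H : ℝ) ^ 2)) := h5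
          _ ≤ 2 * ((2 * n + 1) * (n * (H : ℝ) ^ 2)) := by gcongr
          _ ≤ (12 * (n : ℝ) ^ 2) * (H : ℝ) ^ 2 := by
              have : (2 * (n : ℝ) + 1) * n ≤ 6 * n ^ 2 := by nlinarith
              nlinarith [sq_nonneg (H : ℝ)]
          _ ≤ M * M ^ 2 := by
              have : (H : ℝ) ≤ M := by linarith
              gcongr
          _ = M ^ 3 := by ring
      refine h7.trans ?_
      rw [← Real.rpow_natCast]
      apply Real.rpow_le_rpow_of_exponent_le hM1
      push_cast
      linarith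
    have hmap : ∀ p : ℕ, ¬ (p : ℤ) ∣ w → (Wr f g).map (Int.castRingHom (ZMod p)) ≠ 0 := by
      intro p hp h
      apply hp
      have h5 := congrArg (fun q : (ZMod p)[X] => q.coeff (Wr f g).natDegree) h
      simp only [coeff_map, coeff_zero] at h5
      have h6 : ((w : ℤ) : ZMod p) = 0 := h5
      exact (ZMod.intCast_zmod_eq_zero_iff_dvd _ _).1 h6
    obtain ⟨E, hE1, hE2, hE3⟩ := h1 (GR f g n) w hw0 hwM (by
      intro p hp _ hpw
      haveI : Fact p.Prime := ⟨hp⟩
      exact ⟨GR_per f g n p, GR_norm p f g n hn hf hg (hmap p hpw),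
        GR_sum p f g n hn hf hg (hmap p hpw)⟩) A T hT1 (by linarith)
    have hM2 : M ^ ε = 2 ^ ε * (H : ℝ) ^ ε := Real.mul_rpow (by norm_num) (by linarith)
    refine ⟨E, hE1, ?_, ?_⟩
    · refine hE2.trans ?_
      have h5 : M ^ (η + δ) ≤ M ^ ε := Real.rpow_le_rpow_of_exponent_le hM1 (by linarith)
      calc C1 * √T * M ^ (η + δ) ≤ C1 * √T * M ^ ε := by gcongr
        _ = (C1 * 2 ^ ε) * √T * (H : ℝ) ^ ε := by rw [hM2]; ring
        _ ≤ CC * √T * (H : ℝ) ^ ε := by gcongr
    · intro t ht htE K _ _ hK α hα h0 l hl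
      obtain ⟨Q, hQ1, hQ2, hQ3⟩ := hE3 t ht htE
      rw [mem_Ioc] at ht
      have htH : |(t : ℝ)| ≤ M := by
        have h5 : |t| ≤ 2 * (H : ℤ) := by
          rw [abs_le] at hAH ⊢
          constructor <;> omega
        have h6 : |(t : ℝ)| ≤ 2 * (H : ℝ) := by exact_mod_cast h5
        exact h6
      obtain ⟨hs1, hs2, hs3, hs4⟩ := side hn hK f g hf hg hW t M hM1
        (fun i => (hfR i).trans (by linarith)) (fun i => (hgR i).trans (by linarith)) htH α hα h0
      -- the primes
      have hQm := many_Sz f g n hn Q t (fun p hp => by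
        haveI : Fact p.Prime := ⟨(hQ1 p hp).1⟩
        exact card_Sz_le p f g n hf hg (hmap p (hQ1 p hp).2.2.2) t) hQ3
      set Q' := Q.filter (fun p => (Sz f g p t).Nonempty) with hQ'
      set v : ℤ := f.coeff n - t * g.coeff n with hv
      set S : Finset ℕ := (Q'.filter (fun p : ℕ => ¬ (p : ℤ) ∣ v)).filter
        (fun p : ℕ => ¬ (p : ℤ) ∣ discr K) with hS
      have hQp : ∀ p ∈ Q', p.Prime := fun p hp => (hQ1 p (mem_filter.1 hp).1).1
      have hDM : |(discr K : ℝ)| ≤ M ^ a := by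
        have h5 : 2 * ((n : ℝ) * (2 * M ^ 2)) ≤ M ^ 3 := by
          have h6 : 4 * (n : ℝ) ≤ M := by nlinarith
          calc 2 * ((n : ℝ) * (2 * M ^ 2)) = (4 * n) * M ^ 2 := by ring
            _ ≤ M * M ^ 2 := by gcongr
            _ = M ^ 3 := by ring
        calc |(discr K : ℝ)| ≤ (2 * (n * (2 * M ^ 2))) ^ (n * (n - 1)) := hs3
          _ ≤ (M ^ 3) ^ (n * (n - 1)) := by gcongr
          _ = M ^ (3 * (n * (n - 1))) := by rw [← pow_mul]
          _ ≤ M ^ (3 * n ^ 2) := by
              apply pow_le_pow_right₀ hM1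
              apply Nat.mul_le_mul_left
              rw [sq]
              exact Nat.mul_le_mul_left _ (Nat.sub_le _ _)
          _ = M ^ a := by
              rw [ha, ← Real.rpow_natCast]
              push_cast
              rfl
      have hlM : 0 ≤ Real.log M := Real.log_nonneg hM1
      have hvlog : Real.log |(v : ℝ)| ≤ a * Real.log M := by
        have h5 : 0 < |(v : ℝ)| := abs_pos.2 (by exact_mod_cast hs1)
        have h6 : |(v : ℝ)| ≤ M ^ 3 := by
          have h7 : (2 : ℝ) ≤ M := by nlinarith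
          calc |(v : ℝ)| ≤ 2 * M ^ 2 := hs2
            _ ≤ M * M ^ 2 := by gcongr
            _ = M ^ 3 := by ring
        have h7 := Real.log_le_log h5 h6
        rw [Real.log_pow] at h7
        push_cast at h7
        nlinarith
      have hD0 : discr K ≠ 0 := discr_ne_zero K
      have hDlog : Real.log |(discr K : ℝ)| ≤ a * Real.log M := by
        have h5 : 0 < |(discr K : ℝ)| := abs_pos.2 (by exact_mod_cast hD0)
        have h6 := Real.log_le_log h5 hDM
        rwa [Real.log_rpow hM0'] at h6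
      have hlogM : 4 * a * Real.log M ≤ M ^ (η * (1 - δ)) / (2 * n) := by
        rw [Real.norm_of_nonneg hlM, Real.norm_of_nonneg (by positivity)] at h3
        calc 4 * a * Real.log M ≤ 4 * a * (1 / (8 * a * n) * M ^ (η * (1 - δ))) := by gcongr
          _ = _ := by field_simp; norm_num
      have hScard : 1 / n * M ^ (η * (1 - δ)) ≤ S.card := by
        have h5 := card_dvd_le Q' hQp v hs1
        have h6 := card_filter_add_card_filter_not (s := Q') (fun p : ℕ => (p : ℤ) ∣ v)
        have h7 := card_dvd_le (Q'.filter (fun p : ℕ => ¬ (p : ℤ) ∣ v))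
          (fun p hp => hQp p (mem_filter.1 hp).1) (discr K) hD0
        have h8 := card_filter_add_card_filter_not
          (s := Q'.filter (fun p : ℕ => ¬ (p : ℤ) ∣ v)) (fun p : ℕ => (p : ℤ) ∣ discr K)
        have h9 : (Q'.card : ℝ) ≤ S.card + 4 * a * Real.log M := by
          have e1 : ((Q'.filter (fun p : ℕ => (p : ℤ) ∣ v)).card : ℝ) +
              (Q'.filter (fun p : ℕ => ¬ (p : ℤ) ∣ v)).card = Q'.card := by exact_mod_cast h6
          have e2 : (((Q'.filter (fun p : ℕ => ¬ (p : ℤ) ∣ v)).filter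
              (fun p : ℕ => (p : ℤ) ∣ discr K)).card : ℝ) + S.card =
              (Q'.filter (fun p : ℕ => ¬ (p : ℤ) ∣ v)).card := by exact_mod_cast h8
          linarith
        have h10 : 3 * (Q.card : ℝ) ≤ 4 * n * Q'.card := by exact_mod_cast hQm
        have h11 : 3 * M ^ (η * (1 - δ)) ≤ 2 * n * Q'.card := by linarith
        have h12 : 3 / (2 * n) * M ^ (η * (1 - δ)) ≤ Q'.card := by
          rw [div_mul_eq_mul_div, div_le_iff₀ (by positivity)]
          linarith
        have h13 : 3 / (2 * n) * M ^ (η * (1 - δ)) =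
            1 / n * M ^ (η * (1 - δ)) + M ^ (η * (1 - δ)) / (2 * n) := by
          field_simp
          norm_num
        linarith
      have hSall : ∀ p ∈ S, p.Prime ∧ ¬ p ∣ (discr K).natAbs ∧
          ∃ P : Ideal (𝓞 K), Ideal.absNorm P = p := by
        intro p hp
        rw [hS, mem_filter, mem_filter, hQ', mem_filter] at hp
        obtain ⟨⟨⟨p1, p2⟩, p3⟩, p4⟩ := hp
        refine ⟨(hQ1 p p1).1, ?_, hs4 p (hQ1 p p1).1 p3 p2⟩
        intro h
        exact p4 (Int.natCast_dvd.2 h)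
      have hfin := h2 K hK hDM S hSall (by
        intro p hp
        rw [hS, mem_filter, mem_filter, hQ', mem_filter] at hp
        exact (hQ1 p hp.1.1.1).2.2.1) hScard l hl
      refine hfin.trans ?_
      have h5 : M ^ (η + 2 * a * δ) ≤ M ^ ε :=
        Real.rpow_le_rpow_of_exponent_le hM1 (by linarith)
      set Z : ℝ := |(discr K : ℝ)| ^ (1 / 2 - 1 / (2 * l * (n - 1)) : ℝ) with hZ
      have hZ0 : 0 ≤ Z := by positivity
      calc C2 * Z * M ^ (η + 2 * a * δ) ≤ C2 * Z * M ^ ε := by gcongr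
        _ = (C2 * 2 ^ ε) * Z * (H : ℝ) ^ ε := by rw [hM2]; ring
        _ ≤ CC * Z * (H : ℝ) ^ ε := by gcongr

end Pool.Agent.Q122.TF
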