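import Pool.Agent.Q122.TF.Sep

/-! Mean value of products of sums over primes of periodic functions with small mean. -/

set_option autoImplicit false

namespace Pool.Agent.Q122.TF

open Finset Pool.Agent.Helper112

/-- the coefficients of one factor -/
noncomputable def CC (G : ℕ → ℤ → ℂ) (S : Finset ℕ) (r : ℕ × ℕ) : ℂ :=
  if r.1 = 1 then ∑ q ∈ S, fc (G q) q 0 else fc (G r.1) r.1 r.2

theorem sum_RR (S : Finset ℕ) (N : ℕ) (hprime : ∀ p ∈ S, p.Prime ∧ p ≤ N) (φ : ℕ × ℕ → ℂ) :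
    ∑ r ∈ RR S N, φ r = φ (1, 0) + ∑ p ∈ S, ∑ a ∈ (range p).erase 0, φ (p, a) := by
  unfold RR
  rw [sum_insert]
  · congr 1
    rw [sum_filter, sum_product]
    refine sum_congr rfl fun p hp => ?_
    rw [← sum_filter]
    refine sum_congr ?_ fun _ _ => rfl
    ext a
    have := (hprime p hp).2
    simp only [mem_filter, mem_range, mem_erase]
    omega
  · rw [mem_filter]
    rintro ⟨_, h, _⟩
    simp at h

theorem sum_RR' (S : Finset ℕ) (N : ℕ) (hprime : ∀ p ∈ S, p.Prime ∧ p ≤ N) (φ : ℕ × ℕ → ℝ) :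
    ∑ r ∈ RR S N, φ r = φ (1, 0) + ∑ p ∈ S, ∑ a ∈ (range p).erase 0, φ (p, a) := by
  unfold RR
  rw [sum_insert]
  · congr 1
    rw [sum_filter, sum_product]
    refine sum_congr rfl fun p hp => ?_
    rw [← sum_filter]
    refine sum_congr ?_ fun _ _ => rfl
    ext a
    have := (hprime p hp).2
    simp only [mem_filter, mem_range, mem_erase]
    omega
  · rw [mem_filter]
    rintro ⟨_, h, _⟩
    simp at h

theorem factor_eq (G : ℕ → ℤ → ℂ) (S : Finset ℕ) (N : ℕ) (hprime : ∀ p ∈ S, p.Prime ∧ p ≤ N)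
    (hper : ∀ p ∈ S, ∀ n : ℤ, G p (n + p) = G p n) (n : ℤ) :
    ∑ p ∈ S, G p n = ∑ r ∈ RR S N, CC G S r * ee ((n : ℝ) * ((r.2 : ℝ) / r.1)) := by
  rw [sum_RR S N hprime]
  have h1 : CC G S (1, 0) * ee ((n : ℝ) * (((1, 0) : ℕ × ℕ).2 / ((1, 0) : ℕ × ℕ).1)) =
      ∑ q ∈ S, fc (G q) q 0 := by
    unfold CC
    simp [ls_ee_zero]
  rw [h1, ← sum_add_distrib]
  refine sum_congr rfl fun p hp => ?_
  have hpp := (hprime p hp).1
  rw [← finv (G p) p hpp.one_le (hper p hp) n]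
  have h0 : 0 ∈ range p := mem_range.2 hpp.pos
  rw [← add_sum_erase _ _ h0]
  congr 1
  · simp [ls_ee_zero]
  · refine sum_congr rfl fun a _ => ?_
    unfold CC
    rw [if_neg hpp.one_lt.ne']

theorem sum_inv_sqrt (N : ℕ) : ∑ n ∈ Icc 1 N, 1 / √(n : ℝ) ≤ 2 * √(N : ℝ) := by
  induction N with
  | zero => simp
  | succ n ih =>
    rw [sum_Icc_succ_top (by omega)]
    refine (add_le_add_left ih _).trans ?_
    have h1 : (0 : ℝ) < √((n + 1 : ℕ) : ℝ) := Real.sqrt_pos.2 (by positivity)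
    have h2 : √(n : ℝ) ≤ √((n + 1 : ℕ) : ℝ) := Real.sqrt_le_sqrt (by push_cast; linarith)
    have h3 : √((n + 1 : ℕ) : ℝ) ^ 2 = n + 1 := by
      rw [Real.sq_sqrt (by positivity)]; push_cast; ring
    have h4 : √(n : ℝ) ^ 2 = n := Real.sq_sqrt (by positivity)
    have h5 : (√((n + 1 : ℕ) : ℝ) - √(n : ℝ)) * (√((n + 1 : ℕ) : ℝ) + √(n : ℝ)) = 1 := by
      nlinarith
    have h6 : 0 ≤ √(n : ℝ) := Real.sqrt_nonneg _
    have h7 : 1 / √((n + 1 : ℕ) : ℝ) ≤ 2 * (√((n + 1 : ℕ) : ℝ) - √(n : ℝ)) := by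
      rw [div_le_iff₀ h1]
      nlinarith
    linarith

theorem coeff_sq (G : ℕ → ℤ → ℂ) (S : Finset ℕ) (N : ℕ) (D : ℝ) (hD : 0 ≤ D)
    (hprime : ∀ p ∈ S, p.Prime ∧ p ≤ N)
    (hb : ∀ p ∈ S, ∀ n, ‖G p n‖ ≤ 1)
    (hs : ∀ p ∈ S, ‖∑ x ∈ range p, G p x‖ ≤ D * √p) :
    ∑ r ∈ RR S N, ‖CC G S r‖ ^ 2 ≤ (4 * D ^ 2 + 1) * N := by
  rw [sum_RR' S N hprime]
  have hS : S ⊆ Icc 1 N := fun p hp => mem_Icc.2 ⟨(hprime p hp).1.one_le, (hprime p hp).2⟩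
  have h1 : ‖CC G S (1, 0)‖ ≤ D * (2 * √(N : ℝ)) := by
    unfold CC
    rw [if_pos rfl]
    refine (norm_sum_le _ _).trans ?_
    calc ∑ q ∈ S, ‖fc (G q) q 0‖ ≤ ∑ q ∈ S, D * (1 / √(q : ℝ)) := by
          refine sum_le_sum fun q hq => ?_
          refine (fc_zero _ _ (hprime q hq).1.one_le D (hs q hq)).trans (le_of_eq ?_)
          ring
      _ ≤ ∑ q ∈ Icc 1 N, D * (1 / √(q : ℝ)) :=
          sum_le_sum_of_subset_of_nonneg hS fun _ _ _ => by positivity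
      _ = D * ∑ q ∈ Icc 1 N, 1 / √(q : ℝ) := by rw [mul_sum]
      _ ≤ _ := mul_le_mul_of_nonneg_left (sum_inv_sqrt N) hD
  have h2 : ‖CC G S (1, 0)‖ ^ 2 ≤ 4 * D ^ 2 * N := by
    calc ‖CC G S (1, 0)‖ ^ 2 ≤ (D * (2 * √(N : ℝ))) ^ 2 :=
          pow_le_pow_left₀ (norm_nonneg _) h1 2
      _ = 4 * D ^ 2 * √(N : ℝ) ^ 2 := by ring
      _ = _ := by rw [Real.sq_sqrt (by positivity)]
  have h3 : ∑ p ∈ S, ∑ a ∈ (range p).erase 0, ‖CC G S (p, a)‖ ^ 2 ≤ N := by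
    calc ∑ p ∈ S, ∑ a ∈ (range p).erase 0, ‖CC G S (p, a)‖ ^ 2
        ≤ ∑ p ∈ S, (1 : ℝ) := by
          refine sum_le_sum fun p hp => ?_
          have hpp := (hprime p hp).1
          refine le_trans ?_ (pars (G p) p hpp.one_le (hb p hp))
          calc ∑ a ∈ (range p).erase 0, ‖CC G S (p, a)‖ ^ 2
              = ∑ a ∈ (range p).erase 0, ‖fc (G p) p a‖ ^ 2 := by
                refine sum_congr rfl fun a _ => ?_
                unfold CC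
                rw [if_neg hpp.one_lt.ne']
            _ ≤ _ := sum_le_sum_of_subset_of_nonneg (erase_subset _ _) fun _ _ _ => by positivity
      _ = (S.card : ℝ) := by simp
      _ ≤ ((Icc 1 N).card : ℝ) := by exact_mod_cast card_le_card hS
      _ = N := by simp
  linarith

theorem ee_sum {ι : Type*} (s : Finset ι) (f : ι → ℝ) : ee (∑ i ∈ s, f i) = ∏ i ∈ s, ee (f i) := by
  classical
  induction s using Finset.induction_on with
  | empty => simp [ls_ee_zero]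
  | insert a s ha ih => rw [sum_insert ha, prod_insert ha, ls_ee_add, ih]

/-- The mean value theorem. -/
theorem mv {k : ℕ} (P : Fin k → Finset ℕ) (G : ℕ → ℤ → ℂ) (N : ℕ) (D : ℝ) (hN : 1 ≤ N)
    (hD : 0 ≤ D) (hprime : ∀ i, ∀ p ∈ P i, p.Prime ∧ p ≤ N)
    (hdisj : ∀ i j, i ≠ j → Disjoint (P i) (P j))
    (hper : ∀ i, ∀ p ∈ P i, ∀ n : ℤ, G p (n + p) = G p n)
    (hb : ∀ i, ∀ p ∈ P i, ∀ n, ‖G p n‖ ≤ 1)
    (hs : ∀ i, ∀ p ∈ P i, ‖∑ x ∈ range p, G p x‖ ≤ D * √p)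
    (A : ℤ) (T : ℕ) :
    ∑ n ∈ Icc 1 T, ∏ i, ‖∑ p ∈ P i, G p (A + n)‖ ^ 2 ≤
      6 * ((T : ℝ) + (N : ℝ) ^ (2 * k)) * ((4 * D ^ 2 + 1) * N) ^ k := by
  classical
  have e1 : ∀ n : ℕ, ∏ i, ∑ p ∈ P i, G p (A + n) =
      ∑ r ∈ Fintype.piFinset (fun i => RR (P i) N),
        ((∏ i, CC G (P i) (r i)) * ee ((A : ℝ) * xi r)) * ee ((n : ℝ) * xi r) := by
    intro n
    have h1 : ∀ i, ∑ p ∈ P i, G p (A + n) =
        ∑ r ∈ RR (P i) N, CC G (P i) r * ee (((A + n : ℤ) : ℝ) * ((r.2 : ℝ) / r.1)) :=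
      fun i => factor_eq G (P i) N (hprime i) (hper i) _
    rw [prod_congr rfl fun i _ => h1 i, prod_univ_sum]
    refine sum_congr rfl fun r _ => ?_
    rw [prod_mul_distrib, ← ee_sum, mul_assoc, ← ls_ee_add]
    congr 2
    unfold xi
    rw [← mul_sum]
    push_cast
    ring
  have e2 : ∀ n ∈ Icc 1 T, ∏ i, ‖∑ p ∈ P i, G p (A + n)‖ ^ 2 =
      ‖∑ r ∈ Fintype.piFinset (fun i => RR (P i) N),
        ((∏ i, CC G (P i) (r i)) * ee ((A : ℝ) * xi r)) * ee ((n : ℝ) * xi r)‖ ^ 2 := by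
    intro n _
    rw [← e1 n, norm_prod, prod_pow]
  rw [sum_congr rfl e2]
  have hK : 1 ≤ N ^ (2 * k) := Nat.one_le_pow _ _ hN
  have h := ls_dual (Fintype.piFinset (fun i => RR (P i) N)) xi (N ^ (2 * k)) T hK
    (fun r hr s hs hne => sep P N hN hprime hdisj r s
      (fun i => Fintype.mem_piFinset.1 hr i) (fun i => Fintype.mem_piFinset.1 hs i) hne)
    (fun r => (∏ i, CC G (P i) (r i)) * ee ((A : ℝ) * xi r))
  refine h.trans ?_
  push_cast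
  have h2 : ∑ r ∈ Fintype.piFinset (fun i => RR (P i) N),
      ‖(∏ i, CC G (P i) (r i)) * ee ((A : ℝ) * xi r)‖ ^ 2 ≤ ((4 * D ^ 2 + 1) * N) ^ k := by
    calc ∑ r ∈ Fintype.piFinset (fun i => RR (P i) N),
          ‖(∏ i, CC G (P i) (r i)) * ee ((A : ℝ) * xi r)‖ ^ 2
        = ∑ r ∈ Fintype.piFinset (fun i => RR (P i) N), ∏ i, ‖CC G (P i) (r i)‖ ^ 2 := by
          refine sum_congr rfl fun r _ => ?_
          rw [norm_mul, ls_norm_ee, mul_one, norm_prod, prod_pow]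
      _ = ∏ i, ∑ r ∈ RR (P i) N, ‖CC G (P i) r‖ ^ 2 := by
          rw [prod_univ_sum]
      _ ≤ ∏ _i : Fin k, ((4 * D ^ 2 + 1) * N) :=
          prod_le_prod (fun _ _ => sum_nonneg fun _ _ => by positivity)
            fun i _ => coeff_sq G (P i) N D hD (hprime i) (hb i) (hs i)
      _ = _ := by rw [prod_const, card_univ, Fintype.card_fin]
  gcongr

end Pool.Agent.Q122.TF
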