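import Pool.Agent.Q122.TF.MV

/-! Mean value of products of sums over primes: the bound with the number of the primes. -/

set_option autoImplicit false

namespace Pool.Agent.Q122.TF

open Finset Pool.Agent.Helper112

theorem coeff_sq2 (G : ℕ → ℤ → ℂ) (S : Finset ℕ) (N : ℕ) (D Λ : ℝ)
    (hprime : ∀ p ∈ S, p.Prime ∧ p ≤ N)
    (hb : ∀ p ∈ S, ∀ n, ‖G p n‖ ≤ 1)
    (hs : ∀ p ∈ S, ‖∑ x ∈ range p, G p x‖ ≤ D * √p)
    (hΛ : ∑ p ∈ S, 1 / (p : ℝ) ≤ Λ) :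
    ∑ r ∈ RR S N, ‖CC G S r‖ ^ 2 ≤ (D ^ 2 * Λ + 1) * S.card := by
  rw [sum_RR' S N hprime]
  have h1 : ‖CC G S (1, 0)‖ ≤ ∑ q ∈ S, D * (1 / √(q : ℝ)) := by
    unfold CC
    rw [if_pos rfl]
    refine (norm_sum_le _ _).trans ?_
    refine sum_le_sum fun q hq => ?_
    refine (fc_zero _ _ (hprime q hq).1.one_le D (hs q hq)).trans (le_of_eq ?_)
    ring
  have h2 : ‖CC G S (1, 0)‖ ^ 2 ≤ D ^ 2 * Λ * S.card := by
    calc ‖CC G S (1, 0)‖ ^ 2 ≤ (∑ q ∈ S, D * (1 / √(q : ℝ))) ^ 2 :=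
          pow_le_pow_left₀ (norm_nonneg _) h1 2
      _ ≤ S.card * ∑ q ∈ S, (D * (1 / √(q : ℝ))) ^ 2 := sq_sum_le_card_mul_sum_sq
      _ = S.card * (D ^ 2 * ∑ q ∈ S, 1 / (q : ℝ)) := by
          congr 1
          rw [mul_sum]
          refine sum_congr rfl fun q hq => ?_
          have hq0 : (0 : ℝ) ≤ q := by positivity
          rw [mul_pow, div_pow, Real.sq_sqrt hq0, one_pow]
      _ ≤ S.card * (D ^ 2 * Λ) := by gcongr
      _ = _ := by ring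
  have h3 : ∑ p ∈ S, ∑ a ∈ (range p).erase 0, ‖CC G S (p, a)‖ ^ 2 ≤ S.card := by
    calc ∑ p ∈ S, ∑ a ∈ (range p).erase 0, ‖CC G S (p, a)‖ ^ 2
        ≤ ∑ p ∈ S, (1 : ℝ) := by
          refine sum_le_sum fun p hp => ?_
          have hpp := (hprime p hp).1
          refine le_trans ?_ (pars (G p) p hpp.one_le (hb p hp))
          calc ∑ a ∈ (range p).erase 0, ‖CC G S (p, a)‖ ^ 2
              = ∑ a ∈ (range p).erase 0, ‖fc (G p) p a‖ ^ 2 := by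
                refine sum_congr rfl fun a _ => ?_
                unfold CC
                rw [if_neg hpp.one_lt.ne']
            _ ≤ _ := sum_le_sum_of_subset_of_nonneg (erase_subset _ _) fun _ _ _ => by positivity
      _ = (S.card : ℝ) := by simp
  linarith

/-- The mean value theorem. -/
theorem mv2 {k : ℕ} (P : Fin k → Finset ℕ) (G : ℕ → ℤ → ℂ) (N m : ℕ) (D Λ : ℝ) (hN : 1 ≤ N)
    (hprime : ∀ i, ∀ p ∈ P i, p.Prime ∧ p ≤ N)
    (hm : ∀ i, (P i).card = m)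
    (hdisj : ∀ i j, i ≠ j → Disjoint (P i) (P j))
    (hper : ∀ i, ∀ p ∈ P i, ∀ n : ℤ, G p (n + p) = G p n)
    (hb : ∀ i, ∀ p ∈ P i, ∀ n, ‖G p n‖ ≤ 1)
    (hs : ∀ i, ∀ p ∈ P i, ‖∑ x ∈ range p, G p x‖ ≤ D * √p)
    (hΛ : ∀ i, ∑ p ∈ P i, 1 / (p : ℝ) ≤ Λ)
    (A : ℤ) (T : ℕ) :
    ∑ n ∈ Icc 1 T, ∏ i, ‖∑ p ∈ P i, G p (A + n)‖ ^ 2 ≤
      6 * ((T : ℝ) + (N : ℝ) ^ (2 * k)) * ((D ^ 2 * Λ + 1) * m) ^ k := by
  classical
  have e1 : ∀ n : ℕ, ∏ i, ∑ p ∈ P i, G p (A + n) =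
      ∑ r ∈ Fintype.piFinset (fun i => RR (P i) N),
        ((∏ i, CC G (P i) (r i)) * ee ((A : ℝ) * xi r)) * ee ((n : ℝ) * xi r) := by
    intro n
    have h1 : ∀ i, ∑ p ∈ P i, G p (A + n) =
        ∑ r ∈ RR (P i) N, CC G (P i) r * ee (((A + n : ℤ) : ℝ) * ((r.2 : ℝ) / r.1)) :=
      fun i => factor_eq G (P i) N (hprime i) (hper i) _
    rw [prod_congr rfl fun i _ => h1 i, prod_univ_sum]
    refine sum_congr rfl fun r _ => ?_
    rw [prod_mul_distrib, ← ee_sum, mul_assoc, ← ls_ee_add]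
    congr 2
    unfold xi
    rw [← mul_sum]
    push_cast
    ring
  have e2 : ∀ n ∈ Icc 1 T, ∏ i, ‖∑ p ∈ P i, G p (A + n)‖ ^ 2 =
      ‖∑ r ∈ Fintype.piFinset (fun i => RR (P i) N),
        ((∏ i, CC G (P i) (r i)) * ee ((A : ℝ) * xi r)) * ee ((n : ℝ) * xi r)‖ ^ 2 := by
    intro n _
    rw [← e1 n, norm_prod, prod_pow]
  rw [sum_congr rfl e2]
  have hK : 1 ≤ N ^ (2 * k) := Nat.one_le_pow _ _ hN
  have h := ls_dual (Fintype.piFinset (fun i => RR (P i) N)) xi (N ^ (2 * k)) T hK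
    (fun r hr s hs hne => sep P N hN hprime hdisj r s
      (fun i => Fintype.mem_piFinset.1 hr i) (fun i => Fintype.mem_piFinset.1 hs i) hne)
    (fun r => (∏ i, CC G (P i) (r i)) * ee ((A : ℝ) * xi r))
  refine h.trans ?_
  push_cast
  have h2 : ∑ r ∈ Fintype.piFinset (fun i => RR (P i) N),
      ‖(∏ i, CC G (P i) (r i)) * ee ((A : ℝ) * xi r)‖ ^ 2 ≤ ((D ^ 2 * Λ + 1) * m) ^ k := by
    calc ∑ r ∈ Fintype.piFinset (fun i => RR (P i) N),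
          ‖(∏ i, CC G (P i) (r i)) * ee ((A : ℝ) * xi r)‖ ^ 2
        = ∑ r ∈ Fintype.piFinset (fun i => RR (P i) N), ∏ i, ‖CC G (P i) (r i)‖ ^ 2 := by
          refine sum_congr rfl fun r _ => ?_
          rw [norm_mul, ls_norm_ee, mul_one, norm_prod, prod_pow]
      _ = ∏ i, ∑ r ∈ RR (P i) N, ‖CC G (P i) r‖ ^ 2 := by
          rw [prod_univ_sum]
      _ ≤ ∏ _i : Fin k, ((D ^ 2 * Λ + 1) * m) := by
          refine prod_le_prod (fun _ _ => sum_nonneg fun _ _ => by positivity) fun i _ => ?_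
          have h3 := coeff_sq2 G (P i) N D Λ (hprime i) (hb i) (hs i) (hΛ i)
          rwa [hm i] at h3
      _ = _ := by rw [prod_const, card_univ, Fintype.card_fin]
  gcongr

end Pool.Agent.Q122.TF
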