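import Pool.Agent.Q122.TF.Exc4

/-! The exceptional set for the primes up to `y`. -/

set_option autoImplicit false

namespace Pool.Agent.Q122.TF

open Finset Filter Topology

theorem sum_inv_le (y : ℕ) (S : Finset ℕ) (hS : ∀ p ∈ S, p.Prime ∧ p ≤ y) :
    ∑ p ∈ S, 1 / (p : ℝ) ≤ 1 + Real.log y := by
  have h1 : ∑ p ∈ S, 1 / (p : ℝ) ≤ ∑ p ∈ Icc 1 y, 1 / (p : ℝ) := by
    apply sum_le_sum_of_subset_of_nonneg
    · intro p hp
      exact mem_Icc.2 ⟨(hS p hp).1.one_le, (hS p hp).2⟩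
    · intro _ _ _
      positivity
  refine h1.trans ?_
  have h2 := harmonic_le_one_add_log y
  rw [harmonic_eq_sum_Icc] at h2
  push_cast at h2
  simpa [one_div] using h2

theorem per_y (D η κ ρ a ε C0 : ℝ) (hη : 0 < η) (hη1 : η ≤ 1)
    (hκ : 0 < κ) (hρ1 : ρ ≤ 1) (ha0 : 0 < a) (ha : 1 < a * ρ) (hε : 0 < ε) (hε4 : ε ≤ 1 / 4)
    (hC0 : 0 < C0) :
    ∃ y0 : ℝ, 2 ≤ y0 ∧ ∀ (y T : ℕ), y0 ≤ y → (y : ℝ) ≤ (T : ℝ) ^ ε →
    Real.log T ≤ C0 * (y : ℝ) ^ (1 / a) → ∀ S : Finset ℕ, (∀ p ∈ S, p.Prime ∧ p ≤ y) →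
    κ * (y : ℝ) ^ ρ ≤ S.card * Real.log y → ∀ (G : ℕ → ℤ → ℂ),
    (∀ p ∈ S, ∀ n : ℤ, G p (n + p) = G p n) → (∀ p ∈ S, ∀ n, ‖G p n‖ ≤ 1) →
    (∀ p ∈ S, ‖∑ x ∈ range p, G p x‖ ≤ D * √p) → ∀ A : ℤ,
    (((Ioc A (A + T)).filter (fun t => η * S.card ≤ ‖∑ p ∈ S, G p t‖)).card : ℝ) ≤
      12 * (T : ℝ) ^ (1 - ρ / 2 + 1 / (2 * a) + 2 * ε) := by
  set β : ℝ := ρ - 1 / a with hβ
  have hβ0 : 0 < β := by
    rw [hβ, sub_pos, div_lt_iff₀ ha0]
    linarith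
  have hβ1 : β ≤ 1 := by
    have : 0 < 1 / a := by positivity
    linarith
  set W0 : ℝ := 96 * 2 ^ (3 / η) / η ^ 3 with hW0
  have hW00 : 0 < W0 := by positivity
  have ev1 : ∀ᶠ y : ℝ in atTop, 6 * C0 / (η ^ 2 * κ) ≤ y ^ β :=
    (tendsto_rpow_atTop hβ0).eventually_ge_atTop _
  have ev2 : ∀ᶠ y : ℝ in atTop,
      W0 * (D ^ 2 * (1 + Real.log y) + 1) * (C0 / (2 * κ)) ≤ y ^ (2 * ε) := by
    set c1 : ℝ := W0 * (C0 / (2 * κ)) with hc1
    have hc10 : 0 < c1 := by positivity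
    have e1 : ∀ᶠ y : ℝ in atTop, ‖Real.log y‖ ≤ 1 / (2 * c1 * (D ^ 2 + 1)) * ‖y ^ (2 * ε)‖ :=
      (isLittleO_log_rpow_atTop (by positivity)).bound (by positivity)
    have e2 : ∀ᶠ y : ℝ in atTop, 2 * c1 * (D ^ 2 + 1) ≤ y ^ (2 * ε) :=
      (tendsto_rpow_atTop (by positivity)).eventually_ge_atTop _
    filter_upwards [e1, e2, eventually_ge_atTop 1] with y h1 h2 h3
    have hlog : 0 ≤ Real.log y := Real.log_nonneg h3
    rw [Real.norm_of_nonneg hlog, Real.norm_of_nonneg (by positivity)] at h1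
    have h4 : 2 * c1 * (D ^ 2 + 1) * Real.log y ≤ y ^ (2 * ε) := by
      have := mul_le_mul_of_nonneg_left h1 (show 0 ≤ 2 * c1 * (D ^ 2 + 1) by positivity)
      refine this.trans (le_of_eq ?_)
      field_simp
    calc W0 * (D ^ 2 * (1 + Real.log y) + 1) * (C0 / (2 * κ))
        = c1 * (D ^ 2 + 1) + c1 * D ^ 2 * Real.log y := by rw [hc1]; ring
      _ ≤ c1 * (D ^ 2 + 1) + c1 * (D ^ 2 + 1) * Real.log y := by
          gcongr
          linarith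
      _ ≤ _ := by linarith
  obtain ⟨y1, hy1⟩ := eventually_atTop.1 (ev1.and ev2)
  refine ⟨max y1 2, le_max_right _ _, ?_⟩
  intro y T hy hyT hlogT S hS hScard G hper hb hs A
  obtain ⟨h1, h2⟩ := hy1 y ((le_max_left _ _).trans hy)
  have hy2 : (2 : ℝ) ≤ y := (le_max_right _ _).trans hy
  have hyn : 2 ≤ y := by exact_mod_cast hy2
  have hy0 : (0 : ℝ) < y := by linarith
  have hlogy : 0 < Real.log y := Real.log_pos (by linarith)
  have hT1 : 1 < (T : ℝ) := by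
    by_contra h
    have h3 : (T : ℝ) ^ ε ≤ 1 := Real.rpow_le_one (by positivity) (not_lt.1 h) hε.le
    linarith
  have hT0 : (0 : ℝ) < T := by linarith
  have hTn : T ≠ 0 := by
    rintro rfl
    simp at hT0
  -- the number of factors
  set k := Nat.log y T / 2 with hk
  have hlog4 : 4 ≤ Nat.log y T := by
    apply Nat.le_log_of_pow_le (by omega)
    have h3 : ((y ^ 4 : ℕ) : ℝ) ≤ T := by
      push_cast
      calc (y : ℝ) ^ 4 ≤ ((T : ℝ) ^ ε) ^ 4 := by gcongr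
        _ = (T : ℝ) ^ (ε * 4) := by rw [← Real.rpow_natCast, ← Real.rpow_mul hT0.le]; norm_num
        _ ≤ (T : ℝ) ^ (1 : ℝ) := Real.rpow_le_rpow_of_exponent_le hT1.le (by linarith)
        _ = T := Real.rpow_one _
    exact_mod_cast h3
  have hk1 : 1 ≤ k := by omega
  have hNT : y ^ (2 * k) ≤ T := by
    calc y ^ (2 * k) ≤ y ^ (Nat.log y T) := Nat.pow_le_pow_right (by omega) (by omega)
      _ ≤ T := Nat.pow_log_le_self y hTn
  have hNT2 : T ≤ y ^ (2 * k + 2) := by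
    have h3 := Nat.lt_pow_succ_log_self (by omega : 1 < y) T
    refine h3.le.trans (Nat.pow_le_pow_right (by omega) ?_)
    omega
  have hNTr : (y : ℝ) ^ (2 * k) ≤ T := by exact_mod_cast hNT
  have hNT2r : (T : ℝ) ≤ (y : ℝ) ^ (2 * k + 2) := by exact_mod_cast hNT2
  have hklog : (k : ℝ) * Real.log y ≤ C0 / 2 * (y : ℝ) ^ (1 / a) := by
    have h3 := Real.log_le_log (by positivity) hNTr
    rw [Real.log_pow] at h3
    push_cast at h3
    linarith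
  set s : ℝ := (S.card : ℝ) with hsd
  have hyρ : (y : ℝ) ^ ρ = (y : ℝ) ^ (1 / a) * (y : ℝ) ^ β := by
    rw [← Real.rpow_add hy0]
    congr 1
    rw [hβ]
    ring
  have hya : 0 < (y : ℝ) ^ (1 / a) := by positivity
  have hyβ : 0 < (y : ℝ) ^ β := by positivity
  have hs0 : 0 < s := by
    by_contra h
    have h3 : s * Real.log y ≤ 0 := mul_nonpos_of_nonpos_of_nonneg (not_lt.1 h) hlogy.le
    have h4 : 0 < κ * (y : ℝ) ^ ρ := by positivity
    linarith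
  have hcard : 12 * (k : ℝ) ≤ η ^ 2 * s := by
    have h3 : 12 * (k : ℝ) * Real.log y ≤ η ^ 2 * s * Real.log y := by
      calc 12 * (k : ℝ) * Real.log y = 12 * (k * Real.log y) := by ring
        _ ≤ 12 * (C0 / 2 * (y : ℝ) ^ (1 / a)) := by gcongr
        _ = (6 * C0 / (η ^ 2 * κ)) * (η ^ 2 * κ * (y : ℝ) ^ (1 / a)) := by field_simp; norm_num
        _ ≤ (y : ℝ) ^ β * (η ^ 2 * κ * (y : ℝ) ^ (1 / a)) := by gcongr
        _ = η ^ 2 * (κ * (y : ℝ) ^ ρ) := by rw [hyρ]; ring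
        _ ≤ η ^ 2 * (s * Real.log y) := by gcongr
        _ = _ := by ring
    exact le_of_mul_le_mul_right h3 hlogy
  have hmain := exc4 G D η (1 + Real.log y) y T k A S (by omega) hk1 hη hη1 (by positivity) hNT hS
    (sum_inv_le y S hS) hper hb hs hcard
  refine hmain.trans ?_
  rw [← hW0, ← hsd]
  -- the base
  have hks : (k : ℝ) / s ≤ C0 / (2 * κ) * (y : ℝ) ^ (-β) := by
    rw [div_le_iff₀ hs0]
    have h3 : (k : ℝ) * Real.log y ≤ (C0 / (2 * κ) * (y : ℝ) ^ (-β) * s) * Real.log y := by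
      calc (k : ℝ) * Real.log y ≤ C0 / 2 * (y : ℝ) ^ (1 / a) := hklog
        _ = C0 / (2 * κ) * (y : ℝ) ^ (-β) * (κ * (y : ℝ) ^ ρ) := by
            rw [hyρ, Real.rpow_neg hy0.le]
            field_simp
        _ ≤ C0 / (2 * κ) * (y : ℝ) ^ (-β) * (s * Real.log y) := by gcongr
        _ = _ := by ring
    exact le_of_mul_le_mul_right h3 hlogy
  have hbase : W0 * (D ^ 2 * (1 + Real.log y) + 1) * (k / s) ≤ (y : ℝ) ^ (2 * ε - β) := by
    calc W0 * (D ^ 2 * (1 + Real.log y) + 1) * (k / s)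
        ≤ W0 * (D ^ 2 * (1 + Real.log y) + 1) * (C0 / (2 * κ) * (y : ℝ) ^ (-β)) := by
          gcongr
      _ = W0 * (D ^ 2 * (1 + Real.log y) + 1) * (C0 / (2 * κ)) * (y : ℝ) ^ (-β) := by ring
      _ ≤ (y : ℝ) ^ (2 * ε) * (y : ℝ) ^ (-β) := by gcongr
      _ = _ := by rw [← Real.rpow_add hy0]; rfl
  have hbase0 : 0 ≤ W0 * (D ^ 2 * (1 + Real.log y) + 1) * (k / s) := by positivity
  have hpow : (W0 * (D ^ 2 * (1 + Real.log y) + 1) * (k / s)) ^ k ≤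
      (T : ℝ) ^ ε * ((T : ℝ) ^ (-(β / 2)) * (T : ℝ) ^ ε) := by
    have h3 : ((y : ℝ) ^ (2 * ε)) ^ k ≤ (T : ℝ) ^ ε := by
      calc ((y : ℝ) ^ (2 * ε)) ^ k = ((y : ℝ) ^ (2 * k)) ^ ε := by
            rw [← Real.rpow_natCast, ← Real.rpow_natCast, ← Real.rpow_mul hy0.le,
              ← Real.rpow_mul hy0.le]
            congr 1
            push_cast
            ring
        _ ≤ (T : ℝ) ^ ε := by gcongr
    have h4 : ((y : ℝ) ^ (-β)) ^ k ≤ (T : ℝ) ^ (-(β / 2)) * (T : ℝ) ^ ε := by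
      have h5 : (T : ℝ) ^ (β / 2) ≤ ((y : ℝ) ^ β) ^ k * (y : ℝ) ^ β := by
        calc (T : ℝ) ^ (β / 2) ≤ ((y : ℝ) ^ (2 * k + 2)) ^ (β / 2) := by gcongr
          _ = ((y : ℝ) ^ β) ^ k * (y : ℝ) ^ β := by
              rw [← pow_succ, ← Real.rpow_natCast, ← Real.rpow_natCast, ← Real.rpow_mul hy0.le,
                ← Real.rpow_mul hy0.le]
              congr 1
              push_cast
              ring
      have h6 : (y : ℝ) ^ β ≤ (T : ℝ) ^ ε := by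
        calc (y : ℝ) ^ β ≤ (y : ℝ) ^ (1 : ℝ) :=
              Real.rpow_le_rpow_of_exponent_le (by linarith) hβ1
          _ = y := Real.rpow_one _
          _ ≤ _ := hyT
      have h7 : (0 : ℝ) < ((y : ℝ) ^ β) ^ k := by positivity
      rw [Real.rpow_neg hy0.le, inv_pow, Real.rpow_neg hT0.le]
      rw [inv_le_iff_one_le_mul₀ h7]
      have h8 : (0 : ℝ) < (T : ℝ) ^ (β / 2) := by positivity
      calc (1 : ℝ) = (T : ℝ) ^ (β / 2) / (T : ℝ) ^ (β / 2) := (div_self h8.ne').symm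
        _ ≤ (((y : ℝ) ^ β) ^ k * (T : ℝ) ^ ε) / (T : ℝ) ^ (β / 2) := by
            gcongr
            refine h5.trans ?_
            gcongr
        _ = _ := by
            rw [div_eq_mul_inv]
            ring
    calc (W0 * (D ^ 2 * (1 + Real.log y) + 1) * (k / s)) ^ k ≤ ((y : ℝ) ^ (2 * ε - β)) ^ k :=
          pow_le_pow_left₀ hbase0 hbase k
      _ = ((y : ℝ) ^ (2 * ε)) ^ k * ((y : ℝ) ^ (-β)) ^ k := by
          rw [← mul_pow, ← Real.rpow_add hy0]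
          rfl
      _ ≤ _ := by gcongr
  calc 12 * (T : ℝ) * (W0 * (D ^ 2 * (1 + Real.log y) + 1) * (k / s)) ^ k
      ≤ 12 * (T : ℝ) * ((T : ℝ) ^ ε * ((T : ℝ) ^ (-(β / 2)) * (T : ℝ) ^ ε)) := by gcongr
    _ = 12 * ((T : ℝ) ^ (1 : ℝ) * ((T : ℝ) ^ ε * ((T : ℝ) ^ (-(β / 2)) * (T : ℝ) ^ ε))) := by
        rw [Real.rpow_one]; ring
    _ = 12 * (T : ℝ) ^ (1 - ρ / 2 + 1 / (2 * a) + 2 * ε) := by
        rw [← Real.rpow_add hT0, ← Real.rpow_add hT0, ← Real.rpow_add hT0]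
        congr 2
        rw [hβ]
        field_simp
        ring

end Pool.Agent.Q122.TF
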