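import Mathlib

/-! Reduction modulo large primes of an integer polynomial that is not a constant times a square. -/

set_option autoImplicit false

namespace Pool.Agent.Q122.TF

open Polynomial

/-- squarefree part -/
theorem sq_decomp : ∀ (n : ℕ) (f : ℚ[X]), f ≠ 0 → f.natDegree ≤ n →
    ∃ u w : ℚ[X], f = u * w ^ 2 ∧ Squarefree u := by
  intro n
  induction n with
  | zero =>
    intro f hf hn
    refine ⟨f, 1, by simp, ?_⟩
    have h1 : f.natDegree = 0 := by omega
    obtain ⟨c, hc⟩ := natDegree_eq_zero.1 h1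
    have hc0 : c ≠ 0 := by
      rintro rfl
      apply hf
      rw [← hc]
      simp
    rw [← hc]
    exact (isUnit_C.2 (isUnit_iff_ne_zero.2 hc0)).squarefree
  | succ n ih =>
    intro f hf hn
    by_cases hs : Squarefree f
    · exact ⟨f, 1, by simp, hs⟩
    · unfold Squarefree at hs
      push Not at hs
      obtain ⟨g, hg, hgu⟩ := hs
      obtain ⟨q, hq⟩ := hg
      have hq0 : q ≠ 0 := by
        rintro rfl
        apply hf
        rw [hq, mul_zero]
      have hg0 : g ≠ 0 := by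
        rintro rfl
        apply hf
        rw [hq]
        simp
      have hgd : 1 ≤ g.natDegree := by
        by_contra h
        apply hgu
        have h1 : g.natDegree = 0 := by omega
        obtain ⟨c, hc⟩ := natDegree_eq_zero.1 h1
        have hc0 : c ≠ 0 := by
          rintro rfl
          apply hg0
          rw [← hc]
          simp
        rw [← hc]
        exact isUnit_C.2 (isUnit_iff_ne_zero.2 hc0)
      have hdeg : f.natDegree = g.natDegree + g.natDegree + q.natDegree := by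
        rw [hq, natDegree_mul (mul_ne_zero hg0 hg0) hq0, natDegree_mul hg0 hg0]
      obtain ⟨u, w, huw, hu⟩ := ih q hq0 (by omega)
      refine ⟨u, w * g, ?_, hu⟩
      rw [hq, huw]
      ring

/-- clearing denominators -/
theorem clear (f : ℚ[X]) : ∃ (N : ℤ) (F : ℤ[X]), N ≠ 0 ∧
    F.map (Int.castRingHom ℚ) = (N : ℚ[X]) * f := by
  obtain ⟨b, hbm, hb⟩ := IsLocalization.integerNormalization_spec (nonZeroDivisors ℤ) f
  refine ⟨b, IsLocalization.integerNormalization (nonZeroDivisors ℤ) f,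
    nonZeroDivisors.ne_zero hbm, ?_⟩
  have h2 : (Int.castRingHom ℚ) = algebraMap ℤ ℚ := rfl
  rw [h2, hb]
  ext i
  simp [Algebra.smul_def]

/-- modulo a large prime the polynomial is not a constant times a square -/
theorem good_primes (f : ℤ[X])
    (hf : ∀ (c : ℚ) (g : ℚ[X]), f.map (Int.castRingHom ℚ) ≠ C c * g ^ 2) :
    ∃ P0 : ℕ, ∀ (p : ℕ) [Fact p.Prime], P0 < p → ∀ (c : ZMod p) (h : (ZMod p)[X]),
      f.map (Int.castRingHom (ZMod p)) ≠ C c * h ^ 2 := by
  have hinj : Function.Injective (Polynomial.map (Int.castRingHom ℚ)) :=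
    Polynomial.map_injective _ Int.cast_injective
  have hfQ0 : f.map (Int.castRingHom ℚ) ≠ 0 := by
    intro h
    exact hf 0 0 (by rw [h]; simp)
  obtain ⟨u, w, huw, hu⟩ := sq_decomp _ _ hfQ0 le_rfl
  have hud : 1 ≤ u.natDegree := by
    by_contra h
    have h1 : u.natDegree = 0 := by omega
    obtain ⟨c, hc⟩ := natDegree_eq_zero.1 h1
    exact hf c w (by rw [huw, ← hc])
  have hw0 : w ≠ 0 := by
    rintro rfl
    apply hfQ0
    rw [huw]
    simp
  have hsep : u.Separable := (PerfectField.separable_iff_squarefree).2 hu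
  obtain ⟨a, b, hab⟩ := hsep
  obtain ⟨N1, U, hN1, hU⟩ := clear u
  obtain ⟨N2, W, hN2, hW⟩ := clear w
  obtain ⟨N3, A, hN3, hA⟩ := clear a
  obtain ⟨N4, B, hN4, hB⟩ := clear b
  have e1 : (N4 : ℤ[X]) * A * U + (N3 : ℤ[X]) * B * derivative U =
      (N1 : ℤ[X]) * (N3 : ℤ[X]) * (N4 : ℤ[X]) := by
    apply hinj
    simp only [Polynomial.map_add, Polynomial.map_mul, Polynomial.map_intCast, hA, hU, hB,
      ← derivative_map, derivative_mul, derivative_intCast, zero_mul, zero_add]
    linear_combination ((N4 : ℚ[X]) * (N3 : ℚ[X]) * (N1 : ℚ[X])) * hab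
  have e2 : (N1 : ℤ[X]) * (N2 : ℤ[X]) ^ 2 * f = U * W ^ 2 := by
    apply hinj
    simp only [Polynomial.map_mul, Polynomial.map_intCast, Polynomial.map_pow, hU, hW, huw]
    ring
  have hU0 : U ≠ 0 := by
    rintro rfl
    rw [Polynomial.map_zero] at hU
    have h1 : u = 0 := by
      rcases mul_eq_zero.1 hU.symm with h | h
      · exfalso
        exact hN1 (by exact_mod_cast h)
      · exact h
    rw [h1] at hud
    simp at hud
  have hW0 : W ≠ 0 := by
    rintro rfl
    rw [Polynomial.map_zero] at hW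
    rcases mul_eq_zero.1 hW.symm with h | h
    · exact hN2 (by exact_mod_cast h)
    · exact hw0 h
  have hUd : 1 ≤ U.natDegree := by
    have h1 : (U.map (Int.castRingHom ℚ)).natDegree = U.natDegree :=
      natDegree_map_eq_of_injective Int.cast_injective U
    rw [hU, ← map_intCast (C : ℚ →+* ℚ[X]), natDegree_C_mul (by exact_mod_cast hN1)] at h1
    omega
  have hbad : N1 * N2 * N3 * N4 * U.leadingCoeff * W.leadingCoeff ≠ 0 := by
    have := leadingCoeff_ne_zero.2 hU0
    have := leadingCoeff_ne_zero.2 hW0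
    positivity
  refine ⟨(N1 * N2 * N3 * N4 * U.leadingCoeff * W.leadingCoeff).natAbs, ?_⟩
  intro p hpf hp c h hch
  have hnd : ((N1 * N2 * N3 * N4 * U.leadingCoeff * W.leadingCoeff : ℤ) : ZMod p) ≠ 0 := by
    intro h0
    rw [ZMod.intCast_zmod_eq_zero_iff_dvd] at h0
    have h1 := Int.natAbs_dvd_natAbs.2 h0
    have h2 := Nat.le_of_dvd (Int.natAbs_pos.2 hbad) h1
    simp only [Int.natAbs_natCast] at h2
    omega
  push_cast at hnd
  have q1 : (N1 : ZMod p) ≠ 0 := by
    intro h0; apply hnd; rw [h0]; ring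
  have q2 : (N2 : ZMod p) ≠ 0 := by
    intro h0; apply hnd; rw [h0]; ring
  have q3 : (N3 : ZMod p) ≠ 0 := by
    intro h0; apply hnd; rw [h0]; ring
  have q4 : (N4 : ZMod p) ≠ 0 := by
    intro h0; apply hnd; rw [h0]; ring
  have q5 : (U.leadingCoeff : ZMod p) ≠ 0 := by
    intro h0; apply hnd; rw [h0]; ring
  have q6 : (W.leadingCoeff : ZMod p) ≠ 0 := by
    intro h0; apply hnd; rw [h0]; ring
  set φ := Int.castRingHom (ZMod p) with hφ
  set Up := U.map φ with hUp
  set Wp := W.map φ with hWp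
  have hUpd : Up.natDegree = U.natDegree := by
    apply natDegree_map_of_leadingCoeff_ne_zero
    simpa [hφ] using q5
  have hWp0 : Wp ≠ 0 := by
    intro h0
    have h1 : Wp.natDegree = W.natDegree := by
      apply natDegree_map_of_leadingCoeff_ne_zero
      simpa [hφ] using q6
    have h2 : Wp.coeff W.natDegree = (W.leadingCoeff : ZMod p) := by
      rw [hWp, coeff_map]
      rfl
    rw [h0, coeff_zero] at h2
    exact q6 h2.symm
  have hsq : Squarefree Up := by
    apply Separable.squarefree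
    refine ⟨C ((N1 : ZMod p) * N3 * N4)⁻¹ * (C (N4 : ZMod p) * A.map φ),
      C ((N1 : ZMod p) * N3 * N4)⁻¹ * (C (N3 : ZMod p) * B.map φ), ?_⟩
    have e3 := congrArg (Polynomial.map φ) e1
    simp only [Polynomial.map_add, Polynomial.map_mul, Polynomial.map_intCast,
      ← derivative_map] at e3
    rw [← hUp] at e3
    have e4 : C ((N1 : ZMod p) * N3 * N4)⁻¹ * C ((N1 : ZMod p) * N3 * N4) = 1 := by
      rw [← C_mul, inv_mul_cancel₀ (mul_ne_zero (mul_ne_zero q1 q3) q4), C_1]
    have e4b : C ((N1 : ZMod p) * N3 * N4) = (N1 : (ZMod p)[X]) * (N3 : (ZMod p)[X]) *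
        (N4 : (ZMod p)[X]) := by
      simp only [C_mul, map_intCast]
    rw [← e4, e4b, ← e3]
    simp only [map_intCast]
    ring
  have e5 := congrArg (Polynomial.map φ) e2
  simp only [Polynomial.map_mul, Polynomial.map_intCast, Polynomial.map_pow] at e5
  rw [← hUp, ← hWp, hch] at e5
  have hUp0 : Up ≠ 0 := by
    intro h0
    rw [h0, natDegree_zero] at hUpd
    omega
  have hc0 : c ≠ 0 := by
    rintro rfl
    rw [C_0, zero_mul, mul_zero] at e5
    exact (mul_ne_zero hUp0 (pow_ne_zero 2 hWp0)) e5.symm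
  have hk0 : (N1 : ZMod p) * N2 ^ 2 * c ≠ 0 := mul_ne_zero (mul_ne_zero q1 (pow_ne_zero 2 q2)) hc0
  have e6 : C ((N1 : ZMod p) * N2 ^ 2 * c) * h ^ 2 = Up * Wp ^ 2 := by
    rw [← e5]
    simp only [C_mul, C_pow, map_intCast]
    ring
  have hdvd : Wp ^ 2 ∣ h ^ 2 := by
    refine ⟨C ((N1 : ZMod p) * N2 ^ 2 * c)⁻¹ * Up, ?_⟩
    have e7 : C ((N1 : ZMod p) * N2 ^ 2 * c)⁻¹ * C ((N1 : ZMod p) * N2 ^ 2 * c) = 1 := by
      rw [← C_mul, inv_mul_cancel₀ hk0, C_1]
    calc h ^ 2 = (C ((N1 : ZMod p) * N2 ^ 2 * c)⁻¹ * C ((N1 : ZMod p) * N2 ^ 2 * c)) * h ^ 2 := by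
          rw [e7, one_mul]
      _ = C ((N1 : ZMod p) * N2 ^ 2 * c)⁻¹ * (C ((N1 : ZMod p) * N2 ^ 2 * c) * h ^ 2) := by ring
      _ = _ := by rw [e6]; ring
  obtain ⟨g, hg⟩ : Wp ∣ h := (IsIntegrallyClosed.pow_dvd_pow_iff two_ne_zero).1 hdvd
  have e8 : Up = C ((N1 : ZMod p) * N2 ^ 2 * c) * g ^ 2 := by
    apply mul_right_cancel₀ (pow_ne_zero 2 hWp0)
    rw [← e6, hg]
    ring
  have hgu : IsUnit g := by
    apply hsq
    rw [e8]
    exact ⟨C ((N1 : ZMod p) * N2 ^ 2 * c), by ring⟩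
  have hg0 : g.natDegree = 0 := natDegree_eq_zero_of_isUnit hgu
  have : Up.natDegree = 0 := by
    rw [e8, natDegree_C_mul hk0, natDegree_pow, hg0]
  omega

end Pool.Agent.Q122.TF
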