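import Pool.Agent.Q122.TF.Except2
import Pool.Agent.Q122.TF.Tor2
import Pool.Agent.TH869.EVF.Quad

/-! Torsion in the class groups of the quadratic fields of a polynomial. -/

set_option autoImplicit false

namespace Pool.Agent.Q122.TF

open Polynomial Finset NumberField Filter Topology
open scoped Classical

theorem val_bound (f : ℤ[X]) : ∃ F : ℝ, 1 ≤ F ∧ ∀ (t : ℤ) (M : ℝ), 1 ≤ M → |(t : ℝ)| ≤ M →
    |((f.eval t : ℤ) : ℝ)| ≤ F * M ^ f.natDegree := by
  refine ⟨∑ i ∈ range (f.natDegree + 1), |(f.coeff i : ℝ)| + 1, ?_, ?_⟩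
  · have : 0 ≤ ∑ i ∈ range (f.natDegree + 1), |(f.coeff i : ℝ)| :=
      sum_nonneg fun _ _ => abs_nonneg _
    linarith
  · intro t M hM ht
    rw [eval_eq_sum_range]
    push_cast
    calc |∑ i ∈ range (f.natDegree + 1), (f.coeff i : ℝ) * (t : ℝ) ^ i|
        ≤ ∑ i ∈ range (f.natDegree + 1), |(f.coeff i : ℝ) * (t : ℝ) ^ i| :=
          abs_sum_le_sum_abs _ _
      _ ≤ ∑ i ∈ range (f.natDegree + 1), |(f.coeff i : ℝ)| * M ^ f.natDegree := by
          refine sum_le_sum fun i hi => ?_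
          rw [abs_mul, abs_pow]
          rw [mem_range] at hi
          refine mul_le_mul_of_nonneg_left ?_ (abs_nonneg _)
          calc |(t : ℝ)| ^ i ≤ M ^ i := by gcongr
            _ ≤ M ^ f.natDegree := pow_le_pow_right₀ hM (by omega)
      _ = (∑ i ∈ range (f.natDegree + 1), |(f.coeff i : ℝ)|) * M ^ f.natDegree := by
          rw [sum_mul]
      _ ≤ _ := by
          have : 0 ≤ M ^ f.natDegree := by positivity
          nlinarith

/-- many primes modulo which the value is a nonzero square -/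
theorem many_jac (Q : Finset ℕ) (hQ : ∀ p ∈ Q, p.Prime) (f : ℤ[X]) (t : ℤ)
    (hv : f.eval t ≠ 0) (h : ‖∑ p ∈ Q, GG f p t‖ < 1 / 4 * (Q.card : ℝ)) :
    3 / 8 * (Q.card : ℝ) ≤ ((Q.filter (fun p => jacobiSym (f.eval t) p = 1)).card : ℝ) +
      Real.log |((f.eval t : ℤ) : ℝ)| := by
  set v := f.eval t with hvd
  set U := Q.filter (fun p => jacobiSym v p = 1) with hU
  set Z := Q.filter (fun p => jacobiSym v p = 0) with hZ
  have e0 : ∑ p ∈ Q, jacobiSym v p = 2 * (U.card : ℤ) + (Z.card : ℤ) - Q.card := by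
    have h1 : ∀ p ∈ Q, jacobiSym v p = 2 * (if jacobiSym v p = 1 then 1 else 0) +
        (if jacobiSym v p = 0 then 1 else 0) - 1 := by
      intro p _
      rcases jacobiSym.trichotomy v p with h | h | h <;> rw [h] <;> simp
    rw [sum_congr rfl h1, sum_sub_distrib, sum_add_distrib, ← mul_sum, sum_boole, sum_boole,
      sum_const]
    simp [hU, hZ]
  have hZd : (Z.card : ℝ) ≤ 2 * Real.log |(v : ℝ)| := by
    refine le_trans ?_ (card_dvd_le Q hQ v hv)
    have : Z ⊆ Q.filter (fun p : ℕ => (p : ℤ) ∣ v) := by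
      intro p hp
      rw [hZ, mem_filter] at hp
      rw [mem_filter]
      refine ⟨hp.1, ?_⟩
      haveI : Fact p.Prime := ⟨hQ p hp.1⟩
      have h2 := hp.2
      rw [← jacobiSym.legendreSym.to_jacobiSym, legendreSym.eq_zero_iff,
        ZMod.intCast_zmod_eq_zero_iff_dvd] at h2
      exact h2
    exact_mod_cast card_le_card this
  have e1 : ∑ p ∈ Q, GG f p t = (((∑ p ∈ Q, jacobiSym v p : ℤ) : ℝ) : ℂ) := by
    unfold GG
    push_cast
    rfl
  rw [e1, Complex.norm_real, Real.norm_eq_abs, e0] at h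
  have h2 := (abs_lt.1 h).1
  push_cast at h2
  linarith

theorem quad_fam (f : ℤ[X]) (hf : ∀ (c : ℚ) (g : ℚ[X]), f.map (Int.castRingHom ℚ) ≠ C c * g ^ 2)
    (ε : ℝ) (hε : 0 < ε) : ∃ B : ℝ, 0 < B ∧ ∀ (A : ℤ) (T : ℕ), 1 ≤ T →
    ∃ E ⊆ Ioc A (A + T), (E.card : ℝ) ≤ B * √T * (|(A : ℝ)| + T) ^ ε ∧
      ∀ t ∈ Ioc A (A + T), t ∉ E → ∀ (K : Type) [Field K] [NumberField K],
      Module.finrank ℚ K = 2 → ∀ α : K, IntermediateField.adjoin ℚ {α} = ⊤ →
      α ^ 2 = ((f.eval t : ℤ) : K) → ∀ l : ℕ, 1 ≤ l →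
      (Nat.card {c : ClassGroup (𝓞 K) // c ^ l = 1} : ℝ) ≤
        B * |(discr K : ℝ)| ^ (1 / 2 - 1 / (2 * l) : ℝ) * (|(A : ℝ)| + T) ^ ε := by
  obtain ⟨P0, hP02, hP0⟩ := GG_sum f hf
  obtain ⟨F, hF1, hF⟩ := val_bound f
  set d := f.natDegree with hd
  set a : ℝ := d + 2 with ha
  have ha0 : 0 < a := by positivity
  have ha2 : 2 ≤ a := by
    have : (0 : ℝ) ≤ d := by positivity
    linarith
  set δ : ℝ := min (ε / (4 * a)) (1 / 2) with hδ
  have hδ0 : 0 < δ := lt_min (by positivity) (by norm_num)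
  have hδ1 : δ < 1 := (min_le_right _ _).trans_lt (by norm_num)
  have hδε : 2 * a * δ ≤ ε / 2 := by
    have h1 : δ ≤ ε / (4 * a) := min_le_left _ _
    calc 2 * a * δ ≤ 2 * a * (ε / (4 * a)) := by gcongr
      _ = ε / 2 := by field_simp; norm_num
  have hδε' : δ ≤ ε / 2 := by nlinarith
  set η : ℝ := ε / 2 with hη
  have hη0 : 0 < η := by positivity
  obtain ⟨C1, hC10, hE⟩ := except2 d (1 / 4) a η δ P0 (by positivity) (by positivity) ha0 hη0
    hδ0 hδ1
  obtain ⟨C2, hC20, hT⟩ := tor_main 2 le_rfl a (1 / 2) η δ ha0 (by positivity) (by norm_num) hη0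
    hδ0 hδ1
  have ev3 : ∀ᶠ M : ℝ in atTop, ‖Real.log M‖ ≤ 1 / (12 * a) * ‖M ^ (η * (1 - δ))‖ :=
    (isLittleO_log_rpow_atTop (mul_pos hη0 (by linarith))).bound (by positivity)
  obtain ⟨M0, hM0⟩ := eventually_atTop.1 (hE.and (hT.and (ev3.and
    (eventually_ge_atTop (4 * F)))))
  set H0 : ℝ := max M0 1 with hH0
  have hH01 : 1 ≤ H0 := le_max_right _ _
  refine ⟨max C1 (max C2 (√H0)), by positivity, ?_⟩
  set CC : ℝ := max C1 (max C2 (√H0)) with hCC
  have hCC1 : C1 ≤ CC := le_max_left _ _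
  have hCC2 : C2 ≤ CC := (le_max_left _ _).trans (le_max_right _ _)
  have hCC3 : √H0 ≤ CC := (le_max_right _ _).trans (le_max_right _ _)
  intro A T hT1
  have hTr : (1 : ℝ) ≤ T := by exact_mod_cast hT1
  set M : ℝ := |(A : ℝ)| + T with hM
  have hTM : (T : ℝ) ≤ M := by
    have := abs_nonneg (A : ℝ)
    linarith
  have hM1 : 1 ≤ M := by linarith
  have hM0' : 0 < M := by linarith
  have hMε : 1 ≤ M ^ ε := Real.one_le_rpow hM1 hε.le
  rcases lt_or_ge M H0 with hsmall | hbig
  · refine ⟨Ioc A (A + T), Finset.Subset.refl _, ?_, fun t ht htE => absurd ht htE⟩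
    rw [Int.card_Ioc]
    have e1 : (((A + T - A).toNat : ℕ) : ℝ) = T := by
      have : (A + T - A).toNat = T := by omega
      rw [this]
    rw [e1]
    calc (T : ℝ) = √T * √T := (Real.mul_self_sqrt (by positivity)).symm
      _ ≤ √H0 * √T := by
          gcongr
          linarith
      _ = √H0 * √T * 1 := by ring
      _ ≤ CC * √T * M ^ ε := by gcongr
  · obtain ⟨h1, h2, h3, h4⟩ := hM0 M ((le_max_left _ _).trans hbig)
    obtain ⟨E, hE1, hE2, hE3⟩ := h1 (GG f) 1 one_ne_zero (by
      rw [Int.cast_one, abs_one]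
      exact Real.one_le_rpow hM1 ha0.le) (fun p hp hpP _ =>
        ⟨GG_per f p, GG_norm f p, hP0 p hp hpP⟩) A T hT1 hTM
    refine ⟨E, hE1, ?_, ?_⟩
    · refine hE2.trans ?_
      have h5 : M ^ (η + δ) ≤ M ^ ε := Real.rpow_le_rpow_of_exponent_le hM1 (by linarith)
      gcongr
    · intro t ht htE K _ _ hK α hα h0 l hl
      obtain ⟨Q, hQ1, hQ2, hQ3⟩ := hE3 t ht htE
      rw [mem_Ioc] at ht
      have htM : |(t : ℝ)| ≤ M := by
        have h5 : (A : ℝ) < t := by exact_mod_cast ht.1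
        have h6 : (t : ℝ) ≤ A + T := by exact_mod_cast ht.2
        rw [abs_le]
        have h7 := neg_abs_le (A : ℝ)
        have h8 := le_abs_self (A : ℝ)
        constructor <;> linarith
      have hv0 : f.eval t ≠ 0 := by
        intro h
        rw [h, Int.cast_zero] at h0
        have hα0 : α = 0 := pow_eq_zero_iff (two_ne_zero) |>.1 h0
        rw [hα0] at hα
        have h5 : Module.finrank ℚ (IntermediateField.adjoin ℚ {(0 : K)}) = 1 := by
          rw [IntermediateField.finrank_adjoin_simple_eq_one_iff]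
          exact zero_mem _
        rw [hα, IntermediateField.finrank_top', hK] at h5
        omega
      have hvM := hF t M hM1 htM
      have hval : |((f.eval t : ℤ) : ℝ)| ≤ M ^ (d + 1) := by
        calc |((f.eval t : ℤ) : ℝ)| ≤ F * M ^ d := hvM
          _ ≤ M * M ^ d := by
              gcongr
              linarith
          _ = M ^ (d + 1) := by ring
      have hDM : |(discr K : ℝ)| ≤ M ^ a := by
        have h5 := Pool.Agent.TH869.EVF.quad_disc hK α hα (f.eval t) h0
        calc |(discr K : ℝ)| ≤ 4 * |((f.eval t : ℤ) : ℝ)| := h5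
          _ ≤ 4 * (F * M ^ d) := by gcongr
          _ = (4 * F) * M ^ d := by ring
          _ ≤ M * M ^ d := by gcongr
          _ ≤ M * M ^ d * M := le_mul_of_one_le_right (by positivity) hM1
          _ = M ^ (d + 2) := by ring
          _ = M ^ a := by
              rw [ha, ← Real.rpow_natCast]
              push_cast
              rfl
      have hlM : 0 ≤ Real.log M := Real.log_nonneg hM1
      have hvlog : Real.log |((f.eval t : ℤ) : ℝ)| ≤ a * Real.log M := by
        have h5 : 0 < |((f.eval t : ℤ) : ℝ)| := abs_pos.2 (by exact_mod_cast hv0)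
        have h7 := Real.log_le_log h5 hval
        rw [Real.log_pow] at h7
        push_cast at h7
        nlinarith
      have hD0 : discr K ≠ 0 := discr_ne_zero K
      have hDlog : Real.log |(discr K : ℝ)| ≤ a * Real.log M := by
        have h5 : 0 < |(discr K : ℝ)| := abs_pos.2 (by exact_mod_cast hD0)
        have h6 := Real.log_le_log h5 hDM
        rwa [Real.log_rpow hM0'] at h6
      have hlogM : 3 * (a * Real.log M) ≤ M ^ (η * (1 - δ)) / 4 := by
        rw [Real.norm_of_nonneg hlM, Real.norm_of_nonneg (by positivity)] at h3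
        calc 3 * (a * Real.log M) ≤ 3 * (a * (1 / (12 * a) * M ^ (η * (1 - δ)))) := by gcongr
          _ = _ := by field_simp; norm_num
      have hQp : ∀ p ∈ Q, p.Prime := fun p hp => (hQ1 p hp).1
      have hmj := many_jac Q hQp f t hv0 hQ3
      set Q' := Q.filter (fun p => jacobiSym (f.eval t) p = 1) with hQ'
      set S : Finset ℕ := Q'.filter (fun p : ℕ => ¬ (p : ℤ) ∣ discr K) with hS
      have hScard : 1 / 2 * M ^ (η * (1 - δ)) ≤ S.card := by
        have h7 := card_dvd_le Q' (fun p hp => hQp p (mem_filter.1 hp).1) (discr K) hD0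
        have h8 := card_filter_add_card_filter_not (s := Q') (fun p : ℕ => (p : ℤ) ∣ discr K)
        have e2 : ((Q'.filter (fun p : ℕ => (p : ℤ) ∣ discr K)).card : ℝ) + S.card =
            Q'.card := by exact_mod_cast h8
        linarith
      have hSall : ∀ p ∈ S, p.Prime ∧ ¬ p ∣ (discr K).natAbs ∧
          ∃ P : Ideal (𝓞 K), Ideal.absNorm P = p := by
        intro p hp
        rw [hS, mem_filter, hQ', mem_filter] at hp
        obtain ⟨⟨p1, p2⟩, p4⟩ := hp
        have p5 := hQ1 p p1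
        refine ⟨p5.1, ?_, Pool.Agent.TH869.EVF.quad_norm hK α hα (f.eval t) h0 p p5.1
          (by omega) p2⟩
        intro h
        exact p4 (Int.natCast_dvd.2 h)
      have hfin := h2 K hK hDM S hSall (by
        intro p hp
        rw [hS, mem_filter, hQ', mem_filter] at hp
        exact (hQ1 p hp.1.1).2.2.1) hScard l hl
      have h5 : M ^ (η + 2 * a * δ) ≤ M ^ ε :=
        Real.rpow_le_rpow_of_exponent_le hM1 (by linarith)
      have h6 : (1 / 2 - 1 / (2 * l * (((2 : ℕ) : ℝ) - 1)) : ℝ) = 1 / 2 - 1 / (2 * l) := by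
        push_cast
        norm_num
      rw [h6] at hfin
      refine hfin.trans ?_
      gcongr

end Pool.Agent.Q122.TF
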