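import Pool.Agent.Q122.TF.QuadFam

/-! Moments of the torsion in the quadratic fields of a polynomial. -/

set_option autoImplicit false

namespace Pool.Agent.Q122.TF

open Polynomial Finset NumberField Filter Topology
open scoped Classical

/-- the trivial bound for quadratic fields -/
theorem triv2 (σ : ℝ) (hσ : 0 < σ) : ∃ C : ℝ, 0 < C ∧ ∀ (K : Type) [Field K] [NumberField K],
    Module.finrank ℚ K = 2 → ∀ l : ℕ,
    (Nat.card {c : ClassGroup (𝓞 K) // c ^ l = 1} : ℝ) ≤ C * |(discr K : ℝ)| ^ (1 / 2 + σ) := by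
  obtain ⟨C, hC0, hC⟩ := W_le 2 le_rfl
  refine ⟨C * (1 / (σ / 2)) ^ 2, by positivity, ?_⟩
  intro K _ _ hK l
  obtain ⟨N, hN, hW⟩ := hC K hK
  have h1 := tor_trivial hK N l hN
  have hD3 : (3 : ℝ) ≤ |(discr K : ℝ)| := by
    have := abs_discr_gt_two (K := K) (by rw [hK]; omega)
    have h3 : 3 ≤ |discr K| := by omega
    exact_mod_cast h3
  set D : ℝ := |(discr K : ℝ)| with hD
  have hD0 : 0 < D := by linarith
  have hlog : Real.log D ^ 2 ≤ (1 / (σ / 2)) ^ 2 * D ^ σ := by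
    have h2 : Real.log D ≤ D ^ (σ / 2) / (σ / 2) := Real.log_le_rpow_div hD0.le (by positivity)
    have h0 : 0 ≤ Real.log D := Real.log_nonneg (by linarith)
    calc Real.log D ^ 2 ≤ (D ^ (σ / 2) / (σ / 2)) ^ 2 := pow_le_pow_left₀ h0 h2 2
      _ = (1 / (σ / 2)) ^ 2 * (D ^ (σ / 2) * D ^ (σ / 2)) := by ring
      _ = (1 / (σ / 2)) ^ 2 * D ^ σ := by
          rw [← Real.rpow_add hD0]
          congr 2
          ring
  calc (Nat.card {c : ClassGroup (𝓞 K) // c ^ l = 1} : ℝ) ≤ C * √D * Real.log D ^ 2 := h1.trans hW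
    _ ≤ C * √D * ((1 / (σ / 2)) ^ 2 * D ^ σ) := by gcongr
    _ = C * (1 / (σ / 2)) ^ 2 * (D ^ (1 / 2 : ℝ) * D ^ σ) := by
        rw [Real.sqrt_eq_rpow]
        ring
    _ = _ := by rw [← Real.rpow_add hD0]

theorem quad_mom (f : ℤ[X]) (hf : ∀ (c : ℚ) (g : ℚ[X]), f.map (Int.castRingHom ℚ) ≠ C c * g ^ 2)
    (ε : ℝ) (hε : 0 < ε) (r : ℝ) (hr : 0 ≤ r) : ∃ B : ℝ, 0 < B ∧ ∀ (A : ℤ) (T : ℕ), 1 ≤ T →
    ∀ l : ℕ, 1 ≤ l → ∀ (K : ℤ → Type) [∀ t, Field (K t)] [∀ t, NumberField (K t)] (S : Finset ℤ),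
    S ⊆ Ioc A (A + T) → (∀ t ∈ S, Module.finrank ℚ (K t) = 2 ∧ ∃ α : K t,
      IntermediateField.adjoin ℚ {α} = ⊤ ∧ α ^ 2 = ((f.eval t : ℤ) : K t)) →
    ∑ t ∈ S, (Nat.card {c : ClassGroup (𝓞 (K t)) // c ^ l = 1} : ℝ) ^ r ≤
      B * (|(A : ℝ)| + T) ^ (r * f.natDegree / 2 + ε) *
        (T * (|(A : ℝ)| + T) ^ (-(r * f.natDegree / (2 * l))) + √T) := by
  obtain ⟨F, hF1, hF⟩ := val_bound f
  set d := f.natDegree with hd
  have hd0 : (0 : ℝ) ≤ d := by positivity
  set ε' : ℝ := ε / (r + 1) with hε'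
  have hε'0 : 0 < ε' := by positivity
  set σ : ℝ := ε' / (d + 1) with hσ
  have hσ0 : 0 < σ := by positivity
  obtain ⟨B1, hB10, hB1⟩ := quad_fam f hf ε' hε'0
  obtain ⟨C2, hC20, hC2⟩ := triv2 σ hσ0
  set b1 : ℝ := (B1 * (4 * F)) ^ r with hb1
  set b2 : ℝ := (C2 * (4 * F) ^ (1 / 2 + σ)) ^ r with hb2
  refine ⟨b1 + B1 * b2, by positivity, ?_⟩
  intro A T hT l hl K _ _ S hS hSK
  obtain ⟨E, hE1, hE2, hE3⟩ := hB1 A T hT
  have hTr : (1 : ℝ) ≤ T := by exact_mod_cast hT
  have hlr : (1 : ℝ) ≤ l := by exact_mod_cast hl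
  set M : ℝ := |(A : ℝ)| + T with hM
  have hTM : (T : ℝ) ≤ M := by
    have := abs_nonneg (A : ℝ)
    linarith
  have hM1 : 1 ≤ M := by linarith
  have hM0 : 0 < M := by linarith
  have hDM : ∀ t ∈ S, |(discr (K t) : ℝ)| ≤ 4 * F * M ^ (d : ℝ) := by
    intro t ht
    obtain ⟨h1, α, h2, h3⟩ := hSK t ht
    have h4 := mem_Ioc.1 (hS ht)
    have htM : |(t : ℝ)| ≤ M := by
      have h5 : (A : ℝ) < t := by exact_mod_cast h4.1
      have h6 : (t : ℝ) ≤ A + T := by exact_mod_cast h4.2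
      rw [abs_le]
      have h7 := neg_abs_le (A : ℝ)
      have h8 := le_abs_self (A : ℝ)
      constructor <;> linarith
    have h5 := Pool.Agent.TH869.EVF.quad_disc h1 α h2 (f.eval t) h3
    have h6 := hF t M hM1 htM
    rw [Real.rpow_natCast]
    linarith
  -- the exponent
  set e : ℝ := 1 / 2 - 1 / (2 * l) with he
  have he0 : 0 ≤ e := by
    rw [he, sub_nonneg]
    apply div_le_div_of_nonneg_left (by norm_num) (by norm_num)
    linarith
  have he1 : e ≤ 1 := by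
    rw [he]
    have : 0 ≤ 1 / (2 * (l : ℝ)) := by positivity
    linarith
  have hF4 : (1 : ℝ) ≤ 4 * F := by linarith
  -- good values
  have hgood : ∀ t ∈ S, t ∉ E → (Nat.card {c : ClassGroup (𝓞 (K t)) // c ^ l = 1} : ℝ) ^ r ≤
      b1 * M ^ (r * d / 2 + ε) * M ^ (-(r * d / (2 * l))) := by
    intro t ht htE
    obtain ⟨h1, α, h2, h3⟩ := hSK t ht
    have h4 := hE3 t (hS ht) htE (K t) h1 α h2 h3 l hl
    have h5 : |(discr (K t) : ℝ)| ^ e ≤ 4 * F * M ^ (d * e) := by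
      calc |(discr (K t) : ℝ)| ^ e ≤ (4 * F * M ^ (d : ℝ)) ^ e :=
            Real.rpow_le_rpow (abs_nonneg _) (hDM t ht) he0
        _ = (4 * F) ^ e * M ^ (d * e) := by
            rw [Real.mul_rpow (by linarith) (by positivity), ← Real.rpow_mul hM0.le]
        _ ≤ (4 * F) ^ (1 : ℝ) * M ^ (d * e) := by
            gcongr
        _ = _ := by rw [Real.rpow_one]
    have h6 : (Nat.card {c : ClassGroup (𝓞 (K t)) // c ^ l = 1} : ℝ) ≤
        B1 * (4 * F) * M ^ (d * e + ε') := by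
      calc _ ≤ B1 * |(discr (K t) : ℝ)| ^ e * M ^ ε' := h4
        _ ≤ B1 * (4 * F * M ^ (d * e)) * M ^ ε' := by gcongr
        _ = _ := by rw [Real.rpow_add hM0]; ring
    calc (Nat.card {c : ClassGroup (𝓞 (K t)) // c ^ l = 1} : ℝ) ^ r
        ≤ (B1 * (4 * F) * M ^ (d * e + ε')) ^ r := Real.rpow_le_rpow (by positivity) h6 hr
      _ = b1 * M ^ ((d * e + ε') * r) := by
          rw [Real.mul_rpow (by positivity) (by positivity), ← Real.rpow_mul hM0.le]
      _ ≤ b1 * M ^ (r * d / 2 + ε + -(r * d / (2 * l))) := by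
          apply mul_le_mul_of_nonneg_left _ (by positivity)
          apply Real.rpow_le_rpow_of_exponent_le hM1
          have h7 : ε' * r ≤ ε := by
            rw [hε', div_mul_eq_mul_div, div_le_iff₀ (by positivity)]
            nlinarith
          have h8 : (d : ℝ) * e * r = r * d / 2 + -(r * d / (2 * l)) := by
            rw [he]
            field_simp
            ring
          linarith
      _ = _ := by rw [Real.rpow_add hM0]; ring
  -- all values
  have hall : ∀ t ∈ S, (Nat.card {c : ClassGroup (𝓞 (K t)) // c ^ l = 1} : ℝ) ^ r ≤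
      b2 * M ^ (r * d / 2 + r * ε') := by
    intro t ht
    obtain ⟨h1, α, h2, h3⟩ := hSK t ht
    have h4 := hC2 (K t) h1 l
    have h6 : (Nat.card {c : ClassGroup (𝓞 (K t)) // c ^ l = 1} : ℝ) ≤
        C2 * (4 * F) ^ (1 / 2 + σ) * M ^ (d / 2 + ε') := by
      calc _ ≤ C2 * |(discr (K t) : ℝ)| ^ (1 / 2 + σ) := h4
        _ ≤ C2 * (4 * F * M ^ (d : ℝ)) ^ (1 / 2 + σ) := by
            have := hDM t ht
            gcongr
        _ = C2 * (4 * F) ^ (1 / 2 + σ) * M ^ (d * (1 / 2 + σ)) := by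
            rw [Real.mul_rpow (by linarith) (by positivity), ← Real.rpow_mul hM0.le]
            ring
        _ ≤ C2 * (4 * F) ^ (1 / 2 + σ) * M ^ (d / 2 + ε') := by
            apply mul_le_mul_of_nonneg_left _ (by positivity)
            apply Real.rpow_le_rpow_of_exponent_le hM1
            have : (d : ℝ) * σ ≤ ε' := by
              rw [hσ, mul_div_assoc', div_le_iff₀ (by positivity)]
              nlinarith
            linarith
    calc (Nat.card {c : ClassGroup (𝓞 (K t)) // c ^ l = 1} : ℝ) ^ r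
        ≤ (C2 * (4 * F) ^ (1 / 2 + σ) * M ^ (d / 2 + ε')) ^ r :=
          Real.rpow_le_rpow (by positivity) h6 hr
      _ = b2 * M ^ ((d / 2 + ε') * r) := by
          rw [Real.mul_rpow (by positivity) (by positivity), ← Real.rpow_mul hM0.le]
      _ = _ := by
          congr 2
          ring
  have hcardS : (S.card : ℝ) ≤ T := by
    have h1 := card_le_card hS
    rw [Int.card_Ioc] at h1
    have : (A + T - A).toNat = T := by omega
    rw [this] at h1
    exact_mod_cast h1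
  have hsplit := sum_filter_add_sum_filter_not S (fun t => t ∈ E)
    (fun t => (Nat.card {c : ClassGroup (𝓞 (K t)) // c ^ l = 1} : ℝ) ^ r)
  rw [← hsplit]
  have hA : ∑ t ∈ S.filter (fun t => t ∈ E),
      (Nat.card {c : ClassGroup (𝓞 (K t)) // c ^ l = 1} : ℝ) ^ r ≤
      B1 * b2 * M ^ (r * d / 2 + ε) * √T := by
    calc _ ≤ ∑ t ∈ S.filter (fun t => t ∈ E), b2 * M ^ (r * d / 2 + r * ε') :=
          sum_le_sum fun t ht => hall t (mem_filter.1 ht).1
      _ = ((S.filter (fun t => t ∈ E)).card : ℝ) * (b2 * M ^ (r * d / 2 + r * ε')) := by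
          rw [sum_const, nsmul_eq_mul]
      _ ≤ (B1 * √T * M ^ ε') * (b2 * M ^ (r * d / 2 + r * ε')) := by
          apply mul_le_mul_of_nonneg_right _ (by positivity)
          refine le_trans ?_ hE2
          have : S.filter (fun t => t ∈ E) ⊆ E := fun t ht => (mem_filter.1 ht).2
          exact_mod_cast card_le_card this
      _ = B1 * b2 * (M ^ ε' * M ^ (r * d / 2 + r * ε')) * √T := by ring
      _ = B1 * b2 * M ^ (r * d / 2 + ε) * √T := by
          rw [← Real.rpow_add hM0]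
          have : ε' + (r * d / 2 + r * ε') = r * d / 2 + ε := by
            rw [hε']
            field_simp
            ring
          rw [this]
  have hB : ∑ t ∈ S.filter (fun t => ¬ t ∈ E),
      (Nat.card {c : ClassGroup (𝓞 (K t)) // c ^ l = 1} : ℝ) ^ r ≤
      T * (b1 * M ^ (r * d / 2 + ε) * M ^ (-(r * d / (2 * l)))) := by
    calc _ ≤ ∑ t ∈ S.filter (fun t => ¬ t ∈ E),
          b1 * M ^ (r * d / 2 + ε) * M ^ (-(r * d / (2 * l))) :=
          sum_le_sum fun t ht => hgood t (mem_filter.1 ht).1 (mem_filter.1 ht).2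
      _ = ((S.filter (fun t => ¬ t ∈ E)).card : ℝ) *
          (b1 * M ^ (r * d / 2 + ε) * M ^ (-(r * d / (2 * l)))) := by
          rw [sum_const, nsmul_eq_mul]
      _ ≤ _ := by
          apply mul_le_mul_of_nonneg_right _ (by positivity)
          refine le_trans ?_ hcardS
          exact_mod_cast card_filter_le _ _
  have hx : 0 ≤ M ^ (r * d / 2 + ε) := by positivity
  have hy : 0 ≤ M ^ (-(r * d / (2 * l))) := by positivity
  have hb10 : 0 ≤ b1 := by positivity
  have hb20 : 0 ≤ B1 * b2 := by positivity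
  have hsT : 0 ≤ √(T : ℝ) := Real.sqrt_nonneg _
  calc _ ≤ B1 * b2 * M ^ (r * d / 2 + ε) * √T +
        T * (b1 * M ^ (r * d / 2 + ε) * M ^ (-(r * d / (2 * l)))) := add_le_add hA hB
    _ ≤ (b1 + B1 * b2) * M ^ (r * d / 2 + ε) * (T * M ^ (-(r * d / (2 * l))) + √T) := by
        have h1 : 0 ≤ b1 * M ^ (r * d / 2 + ε) * √T := by positivity
        have h2 : 0 ≤ B1 * b2 * M ^ (r * d / 2 + ε) * (T * M ^ (-(r * d / (2 * l)))) := by
          positivity
        nlinarith

end Pool.Agent.Q122.TF
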