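import Pool.Agent.Q122.TF.Small
import Pool.Agent.Q122.TF.PerY

/-! Half of the small primes split, for the values of polynomials in short intervals. -/

set_option autoImplicit false

namespace Pool.Agent.Q122.TF

open Finset Polynomial Filter Topology
open scoped Classical Nat

/-- the primes of `Q` up to `y` -/
noncomputable def PQ (Q : Set ℕ) (y : ℕ) : Finset ℕ := (Icc 1 y).filter (fun p => p.Prime ∧ p ∈ Q)

theorem mem_PQ {Q : Set ℕ} {y p : ℕ} : p ∈ PQ Q y ↔ p.Prime ∧ p ≤ y ∧ p ∈ Q := by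
  unfold PQ
  rw [mem_filter, mem_Icc]
  constructor
  · rintro ⟨⟨_, h1⟩, h2, h3⟩
    exact ⟨h2, h1, h3⟩
  · rintro ⟨h1, h2, h3⟩
    exact ⟨⟨h1.one_le, h2⟩, h1, h3⟩

/-- the good primes of `Q` up to `y` -/
noncomputable def SQ (Q : Set ℕ) (w : ℤ) (y : ℕ) : Finset ℕ :=
  (PQ Q y).filter (fun p => 2 < p ∧ ¬ (p : ℤ) ∣ w)

theorem SQ_sub (Q : Set ℕ) (w : ℤ) (y : ℕ) : SQ Q w y ⊆ PQ Q y := filter_subset _ _

theorem SQ_diff (Q : Set ℕ) (w : ℤ) (hw : w ≠ 0) (y : ℕ) :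
    ((PQ Q y \ SQ Q w y).card : ℝ) ≤ 1 + 2 * Real.log |(w : ℝ)| := by
  have h1 : PQ Q y \ SQ Q w y ⊆ {2} ∪ (PQ Q y).filter (fun p : ℕ => (p : ℤ) ∣ w) := by
    intro p hp
    rw [Finset.mem_sdiff, SQ, mem_filter] at hp
    rw [mem_union, mem_singleton, mem_filter]
    by_cases h : 2 < p
    · right
      refine ⟨hp.1, ?_⟩
      by_contra h2
      exact hp.2 ⟨hp.1, h, h2⟩
    · left
      have := (mem_PQ.1 hp.1).1.two_le
      omega
  have h2 := (card_le_card h1).trans (card_union_le _ _)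
  have h3 := card_dvd_le (PQ Q y) (fun p hp => (mem_PQ.1 hp).1) w hw
  rw [card_singleton] at h2
  have h4 : ((PQ Q y \ SQ Q w y).card : ℝ) ≤
      1 + (((PQ Q y).filter (fun p : ℕ => (p : ℤ) ∣ w)).card : ℝ) := by exact_mod_cast h2
  linarith

/-- the error terms are small -/
theorem err_ev (a ρ C1 c1 : ℝ) (ha0 : 0 < a) (ha : 1 < a * ρ) (hc1 : 0 < c1) :
    ∀ᶠ y : ℝ in atTop, C1 * (y ^ (1 / a) + 1) * Real.log y ≤ c1 * y ^ ρ := by
  set β : ℝ := ρ - 1 / a with hβ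
  have hβ0 : 0 < β := by
    rw [hβ, sub_pos, div_lt_iff₀ ha0]
    linarith
  have hia : 0 < 1 / a := by positivity
  have e1 : ∀ᶠ y : ℝ in atTop, ‖Real.log y‖ ≤ c1 / (2 * (|C1| + 1)) * ‖y ^ β‖ :=
    (isLittleO_log_rpow_atTop hβ0).bound (by positivity)
  filter_upwards [e1, eventually_ge_atTop 1] with y h1 h2
  have hlog : 0 ≤ Real.log y := Real.log_nonneg h2
  have hy0 : 0 < y := by linarith
  rw [Real.norm_of_nonneg hlog, Real.norm_of_nonneg (by positivity)] at h1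
  have h3 : 1 ≤ y ^ (1 / a) := Real.one_le_rpow h2 hia.le
  have h4 : C1 ≤ |C1| + 1 := by
    have := le_abs_self C1
    linarith
  have h5 : y ^ ρ = y ^ (1 / a) * y ^ β := by
    rw [← Real.rpow_add hy0]
    congr 1
    rw [hβ]
    ring
  have h6 : 0 < |C1| + 1 := by positivity
  calc C1 * (y ^ (1 / a) + 1) * Real.log y ≤ (|C1| + 1) * (2 * y ^ (1 / a)) * Real.log y := by
        have h7 : C1 * (y ^ (1 / a) + 1) ≤ (|C1| + 1) * (2 * y ^ (1 / a)) := by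
          calc C1 * (y ^ (1 / a) + 1) ≤ (|C1| + 1) * (y ^ (1 / a) + 1) :=
                mul_le_mul_of_nonneg_right h4 (by positivity)
            _ ≤ _ := mul_le_mul_of_nonneg_left (by linarith) h6.le
        exact mul_le_mul_of_nonneg_right h7 hlog
    _ ≤ (|C1| + 1) * (2 * y ^ (1 / a)) * (c1 / (2 * (|C1| + 1)) * y ^ β) := by gcongr
    _ = c1 * y ^ ρ := by
        rw [h5]
        field_simp

theorem val_le (f : ℤ[X]) (D : ℕ) (hfD : f.natDegree ≤ D) (M : ℝ) (hM : 1 ≤ M)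
    (hM2 : (D + 1) * (2 : ℝ) ^ D ≤ M) (hfM : ∀ i, |(f.coeff i : ℝ)| ≤ M) (t : ℤ)
    (ht : |(t : ℝ)| ≤ 2 * M) : |((f.eval t : ℤ) : ℝ)| ≤ M ^ (D + 2) := by
  rw [eval_eq_sum_range]
  push_cast
  calc |∑ i ∈ range (f.natDegree + 1), (f.coeff i : ℝ) * (t : ℝ) ^ i|
      ≤ ∑ i ∈ range (f.natDegree + 1), |(f.coeff i : ℝ) * (t : ℝ) ^ i| := abs_sum_le_sum_abs _ _
    _ ≤ ∑ i ∈ range (f.natDegree + 1), M * (2 * M) ^ D := by
        refine sum_le_sum fun i hi => ?_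
        rw [abs_mul, abs_pow]
        rw [mem_range] at hi
        calc |(f.coeff i : ℝ)| * |(t : ℝ)| ^ i ≤ M * (2 * M) ^ i := by
              gcongr
              exact hfM i
          _ ≤ M * (2 * M) ^ D := by
              gcongr
              · linarith
              · omega
    _ = (f.natDegree + 1) * (M * (2 * M) ^ D) := by
        rw [sum_const, card_range, nsmul_eq_mul]
        push_cast
        ring
    _ ≤ (D + 1) * (M * (2 * M) ^ D) := by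
        have : (f.natDegree : ℝ) ≤ D := by exact_mod_cast hfD
        gcongr
    _ = ((D + 1) * (2 : ℝ) ^ D) * (M * M ^ D) := by rw [mul_pow]; ring
    _ ≤ M * (M * M ^ D) := by gcongr
    _ = M ^ (D + 2) := by ring

/-- the property of a value `v` with respect to its discriminants -/
def GoodV (Q : Set ℕ) (a c η : ℝ) (T : ℕ) (v : ℤ) : Prop := v ≠ 0 ∧
  ∀ d : ℤ, ((d % 4 = 1 ∧ Squarefree d) ∨
    (∃ m : ℤ, d = 4 * m ∧ (m % 4 = 2 ∨ m % 4 = 3) ∧ Squarefree m)) → IsSquare (v * d) →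
    (T : ℝ) ^ c ≤ |(d : ℝ)| ∧ ∀ y : ℕ, Real.log |(d : ℝ)| ^ a ≤ y → (y : ℝ) ≤ |(d : ℝ)| ^ c →
      |2 * (((PQ Q y).filter (fun p => Spp d p)).card : ℝ) - (PQ Q y).card| ≤
        η * (PQ Q y).card

/-- one value -/
theorem good_value (D : ℕ) (a ρ σ η κ ε1 c M : ℝ) (Q : Set ℕ) (T : ℕ) (f : ℤ[X]) (w t : ℤ)
    (ha0 : 0 < a) (hσ : 0 < σ) (hη : 0 < η) (hc : 0 < c) (hcσ : c ≤ σ) (hM1 : 4 ≤ M) (hT1 : 1 ≤ T) (hTM : (T : ℝ) ≤ M)
    (hcM : M ^ ((D + 3 : ℕ) * c) ≤ (T : ℝ) ^ ε1)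
    (hw : w ≠ 0) (hwM : |(w : ℝ)| ≤ M ^ ((2 * D + 2 : ℕ) : ℝ))
    (hv0 : f.eval t ≠ 0) (hval : |((f.eval t : ℤ) : ℝ)| ≤ M ^ (D + 2))
    (hsmall : ∀ d : ℤ, d ≠ 0 → |(d : ℝ)| ≤ M ^ σ → ∀ z : ℤ, f.eval t * d ≠ z * z)
    (hthick : ∀ y : ℕ, (σ * Real.log M) ^ a ≤ y → κ * (y : ℝ) ^ ρ ≤ (PQ Q y).card * Real.log y)
    (herr : ∀ y : ℕ, (σ * Real.log M) ^ a ≤ y →
      ((10 * D + 30 : ℕ) / σ + 10) * ((y : ℝ) ^ (1 / a) + 1) * Real.log y ≤
        η * κ / 4 * (y : ℝ) ^ ρ)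
    (hy2 : ∀ y : ℕ, (σ * Real.log M) ^ a ≤ y → 2 ≤ y)
    (hF : ∀ y : ℕ, (σ * Real.log M) ^ a ≤ y → (y : ℝ) ≤ (T : ℝ) ^ ε1 →
      ‖∑ p ∈ SQ Q w y, GG f p t‖ < η / 4 * (SQ Q w y).card) :
    GoodV Q a c η T (f.eval t) := by
  refine ⟨hv0, ?_⟩
  intro d hd hsq
  obtain ⟨z, hz⟩ := hsq
  have hM0 : 0 < M := by linarith
  have hM1' : 1 ≤ M := by linarith
  have hd0 : d ≠ 0 := by
    rcases hd with ⟨h, _⟩ | ⟨m, h, h2, _⟩ <;> omega
  have hdmod : d % 4 = 0 ∨ d % 4 = 1 := by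
    rcases hd with ⟨h, _⟩ | ⟨m, h, _⟩ <;> omega
  have hdσ : M ^ σ < |(d : ℝ)| := by
    by_contra h
    exact hsmall d hd0 (not_lt.1 h) z hz
  have hz0 : z ≠ 0 := by
    rintro rfl
    rw [mul_zero] at hz
    rcases mul_eq_zero.1 hz with h | h
    · exact hv0 h
    · exact hd0 h
  have hMσ : 1 ≤ M ^ σ := Real.one_le_rpow hM1' hσ.le
  have hd1 : 1 < |(d : ℝ)| := by linarith
  have hdp : 0 < |(d : ℝ)| := by linarith
  have hdM : |(d : ℝ)| ≤ M ^ (D + 3) := by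
    have h1 := Pool.Agent.TH869.EVF.disc_size (f.eval t) d z hv0 hz hd
    calc |(d : ℝ)| ≤ 4 * |((f.eval t : ℤ) : ℝ)| := h1
      _ ≤ M * M ^ (D + 2) := by gcongr
      _ = _ := by ring
  have hzM : |(z : ℝ)| ≤ M ^ (D + 3) := by
    have e1 : |(z : ℝ)| * |(z : ℝ)| = |((f.eval t : ℤ) : ℝ)| * |(d : ℝ)| := by
      rw [← abs_mul, ← abs_mul]
      congr 1
      exact_mod_cast hz.symm
    have e3 : |(z : ℝ)| * |(z : ℝ)| ≤ M ^ (D + 3) * M ^ (D + 3) := by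
      rw [e1]
      have e4 : |((f.eval t : ℤ) : ℝ)| ≤ M ^ (D + 3) := by
        refine hval.trans ?_
        exact pow_le_pow_right₀ hM1' (by omega)
      gcongr
    exact abs_le_of_sq_le_sq' (by nlinarith) (by positivity) |>.2
  have hlM : 0 < Real.log M := Real.log_pos (by linarith)
  have hlz : Real.log |(z : ℝ)| ≤ (D + 3) * Real.log M := by
    have h4 : 0 < |(z : ℝ)| := abs_pos.2 (by exact_mod_cast hz0)
    have h5 := Real.log_le_log h4 hzM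
    rw [Real.log_pow] at h5
    push_cast at h5
    exact h5
  have hld : Real.log |(d : ℝ)| ≤ (D + 3) * Real.log M := by
    have h5 := Real.log_le_log hdp hdM
    rw [Real.log_pow] at h5
    push_cast at h5
    exact h5
  have hlw : Real.log |(w : ℝ)| ≤ (2 * D + 2) * Real.log M := by
    have h4 : 0 < |(w : ℝ)| := abs_pos.2 (by exact_mod_cast hw)
    have h5 := Real.log_le_log h4 hwM
    rw [Real.log_rpow hM0] at h5
    push_cast at h5
    exact h5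
  have hldlow : σ * Real.log M ≤ Real.log |(d : ℝ)| := by
    have h5 := Real.log_le_log (by positivity) hdσ.le
    rwa [Real.log_rpow hM0] at h5
  refine ⟨?_, ?_⟩
  · calc (T : ℝ) ^ c ≤ M ^ c := by gcongr
      _ ≤ M ^ σ := Real.rpow_le_rpow_of_exponent_le hM1' hcσ
      _ ≤ _ := hdσ.le
  intro y hy1 hyc
  have hσl : 0 ≤ σ * Real.log M := by positivity
  have hyσ : (σ * Real.log M) ^ a ≤ y := by
    refine le_trans ?_ hy1
    gcongr
  have hyn := hy2 y hyσ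
  have hyr : (2 : ℝ) ≤ y := by exact_mod_cast hyn
  have hy0 : (0 : ℝ) < y := by linarith
  have hlogy : 0 < Real.log y := Real.log_pos (by linarith)
  have hlMy : Real.log M ≤ 1 / σ * (y : ℝ) ^ (1 / a) := by
    have h5 : σ * Real.log M ≤ (y : ℝ) ^ (1 / a) := by
      calc σ * Real.log M = ((σ * Real.log M) ^ a) ^ (1 / a) := by
            rw [← Real.rpow_mul hσl, mul_one_div_cancel ha0.ne', Real.rpow_one]
        _ ≤ _ := by gcongr
    calc Real.log M = 1 / σ * (σ * Real.log M) := by field_simp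
      _ ≤ _ := by gcongr
  have hyT : (y : ℝ) ≤ (T : ℝ) ^ ε1 := by
    refine hyc.trans (le_trans ?_ hcM)
    calc |(d : ℝ)| ^ c ≤ (M ^ (D + 3)) ^ c := by gcongr
      _ = M ^ ((D + 3 : ℕ) * c) := by rw [← Real.rpow_natCast, ← Real.rpow_mul hM0.le]
  have hFy := hF y hyσ hyT
  have hGG : ‖∑ p ∈ SQ Q w y, GG f p t‖ = |∑ p ∈ SQ Q w y, (jacobiSym (f.eval t) p : ℝ)| := by
    unfold GG
    have : (∑ p ∈ SQ Q w y, ((jacobiSym (f.eval t) p : ℤ) : ℂ)) =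
        ((∑ p ∈ SQ Q w y, ((jacobiSym (f.eval t) p : ℤ) : ℝ) : ℝ) : ℂ) := by
      push_cast
      rfl
    rw [this, Complex.norm_real, Real.norm_eq_abs]
  rw [hGG] at hFy
  have hPp : ∀ p ∈ PQ Q y, p.Prime := fun p hp => (mem_PQ.1 hp).1
  have h1 := conv1 d hdmod hd0 (PQ Q y) hPp
  have h2 := conv2 (f.eval t) d z hz hz0 (PQ Q y) (SQ Q w y) hPp (SQ_sub Q w y)
  have h3 := SQ_diff Q w hw y
  have hScard : ((SQ Q w y).card : ℝ) ≤ (PQ Q y).card := by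
    exact_mod_cast card_le_card (SQ_sub Q w y)
  have hth := hthick y hyσ
  have her := herr y hyσ
  have hP0 : (0 : ℝ) ≤ (PQ Q y).card := by positivity
  -- the error
  have herr2 : ((10 * D + 30 : ℕ) / σ + 10) * ((y : ℝ) ^ (1 / a) + 1) ≤
      η / 4 * (PQ Q y).card := by
    have h4 : ((10 * D + 30 : ℕ) / σ + 10) * ((y : ℝ) ^ (1 / a) + 1) * Real.log y ≤
        (η / 4 * (PQ Q y).card) * Real.log y := by
      refine her.trans ?_
      calc η * κ / 4 * (y : ℝ) ^ ρ = η / 4 * (κ * (y : ℝ) ^ ρ) := by ring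
        _ ≤ η / 4 * ((PQ Q y).card * Real.log y) := by gcongr
        _ = _ := by ring
    exact le_of_mul_le_mul_right h4 hlogy
  have hya : 0 ≤ (y : ℝ) ^ (1 / a) := by positivity
  have herr3 : (10 * (D : ℝ) + 30) * Real.log M + 5 ≤ η / 4 * (PQ Q y).card := by
    refine le_trans ?_ herr2
    push_cast
    calc (10 * (D : ℝ) + 30) * Real.log M + 5
        ≤ (10 * (D : ℝ) + 30) * (1 / σ * (y : ℝ) ^ (1 / a)) + 5 := by gcongr
      _ = ((10 * (D : ℝ) + 30) / σ) * (y : ℝ) ^ (1 / a) + 5 := by ring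
      _ ≤ ((10 * (D : ℝ) + 30) / σ) * ((y : ℝ) ^ (1 / a) + 1) + 10 * ((y : ℝ) ^ (1 / a) + 1) := by
          gcongr
          · linarith
          · linarith
      _ = _ := by ring
  have hDnn : (0 : ℝ) ≤ D := by positivity
  have h6 : η / 4 * (SQ Q w y).card ≤ η / 4 * (PQ Q y).card := by gcongr
  have h7 : 0 ≤ η / 4 * (PQ Q y).card := by positivity
  nlinarith

end Pool.Agent.Q122.TF
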