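import Pool.Agent.Q122.TF.Segs

/-! Half of the small primes split, for the values of polynomials in short intervals: the end of
the proof. -/

set_option autoImplicit false

namespace Pool.Agent.Q122.TF

open Finset Polynomial Filter Topology
open scoped Classical Nat

theorem segs (D : ℕ) (hD : 1 ≤ D) (a ρ τ η ε : ℝ) (Q : Set ℕ) (hρ1 : ρ ≤ 1)
    (ha0 : 0 < a) (ha : 1 < a * ρ) (hτ : 0 < τ) (hη : 0 < η) (hε : 0 < ε)
    (hQ : ∃ κ : ℝ, 0 < κ ∧ ∃ y0 : ℕ, ∀ y : ℕ, y0 ≤ y →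
      κ * (y : ℝ) ^ ρ ≤ (PQ Q y).card * Real.log y) :
    ∃ c K : ℝ, 0 < c ∧ 0 < K ∧ ∀ (f : ℤ[X]) (A : ℤ) (T : ℕ), 1 ≤ T → 1 ≤ f.natDegree →
      f.natDegree ≤ D → Squarefree (f.map (Int.castRingHom ℚ)) →
      (∀ i, |(f.coeff i : ℝ)| ^ τ ≤ T) → |(A : ℝ)| ^ τ ≤ T →
      ∃ E ⊆ Ioc A (A + T), (E.card : ℝ) ≤ K * (T : ℝ) ^ (1 - ρ / 2 + 1 / (2 * a) + ε) ∧
        ∀ t ∈ Ioc A (A + T), t ∉ E → GoodV Q a c η T (f.eval t) := by
  obtain ⟨κ, hκ, y00, hthick⟩ := hQ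
  set η0 : ℝ := min η 1 with hη0
  have hη00 : 0 < η0 := lt_min hη one_pos
  have hη01 : η0 ≤ 1 := min_le_right _ _
  have hη0η : η0 ≤ η := min_le_left _ _
  set τ' : ℝ := min τ 1 with hτ'
  have hτ'0 : 0 < τ' := lt_min hτ one_pos
  have hτ'1 : τ' ≤ 1 := min_le_right _ _
  have hτ'τ : τ' ≤ τ := min_le_left _ _
  set ε1 : ℝ := min (ε / 4) (1 / 4) with hε1
  have hε10 : 0 < ε1 := lt_min (by positivity) (by norm_num)
  have hε14 : ε1 ≤ 1 / 4 := min_le_right _ _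
  have hε1ε : ε1 ≤ ε / 4 := min_le_left _ _
  set σ : ℝ := min (ε * τ' / 3) (1 / 2) with hσ
  have hσ0 : 0 < σ := lt_min (by positivity) (by norm_num)
  have hσ2 : σ ≤ 1 / 2 := min_le_right _ _
  have hσε : 3 * σ ≤ ε * τ' := by
    have : σ ≤ ε * τ' / 3 := min_le_left _ _
    linarith
  have hDr : (1 : ℝ) ≤ D := by exact_mod_cast hD
  set c : ℝ := min σ (ε1 * τ' / (D + 3)) with hc
  have hc0 : 0 < c := lt_min hσ0 (by positivity)
  have hcσ : c ≤ σ := min_le_left _ _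
  have hcD : (D + 3) * c ≤ ε1 * τ' := by
    have h1 : c ≤ ε1 * τ' / (D + 3) := min_le_right _ _
    rw [le_div_iff₀ (by positivity)] at h1
    linarith
  obtain ⟨y0, hy02, hy0⟩ := per_y (D : ℝ) (η0 / 4) (κ / 2) ρ a ε1 (1 / σ) (by positivity)
    (by linarith) (by positivity) hρ1 ha0 ha hε10 hε14 (by positivity)
  obtain ⟨C1, hC10, hsmall⟩ := small_disc2 D σ hσ0 hσ2
  have hev := err_ev a ρ ((10 * D + 30 : ℕ) / σ + 10) (η0 * κ / 4) ha0 ha (by positivity)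
  obtain ⟨Y1, hY1⟩ := eventually_atTop.1 (hev.and ((eventually_ge_atTop y0).and
    ((eventually_ge_atTop (y00 : ℝ)).and (eventually_ge_atTop (2 : ℝ)))))
  have hlarge : ∀ᶠ M : ℝ in atTop, Y1 ≤ (σ * Real.log M) ^ a := by
    have t1 : Tendsto (fun M : ℝ => σ * Real.log M) atTop atTop :=
      Real.tendsto_log_atTop.const_mul_atTop hσ0
    exact ((tendsto_rpow_atTop ha0).comp t1).eventually_ge_atTop _
  obtain ⟨M0, hM0⟩ := eventually_atTop.1 (hsmall.and (hlarge.and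
    ((eventually_ge_atTop ((D + 1) * (2 : ℝ) ^ D)).and
    ((eventually_ge_atTop ((((2 * D)! : ℕ) : ℝ) * (D : ℝ) ^ (2 * D))).and
      (eventually_ge_atTop (4 : ℝ))))))
  set γ : ℝ := 1 - ρ / 2 + 1 / (2 * a) + ε with hγ
  have hia : 0 < 1 / (2 * a) := by positivity
  have hγ1 : 1 / 2 + ε ≤ γ := by linarith
  have hγ0 : 0 ≤ γ := by linarith
  set T0 : ℝ := max M0 1 with hT0
  refine ⟨c, D + C1 + 12 + T0, hc0, by positivity, ?_⟩
  intro f A T hT hf1 hfD hsq hfH hAH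
  have hTr : (1 : ℝ) ≤ T := by exact_mod_cast hT
  have hTpos : (0 : ℝ) < T := by linarith
  have hTγ : 1 ≤ (T : ℝ) ^ γ := Real.one_le_rpow hTr hγ0
  have hT01 : 1 ≤ T0 := le_max_right _ _
  rcases lt_or_ge (T : ℝ) M0 with hlt | hge
  · refine ⟨Ioc A (A + T), Finset.Subset.refl _, ?_, fun t ht htE => absurd ht htE⟩
    rw [Int.card_Ioc]
    have e1 : (((A + T - A).toNat : ℕ) : ℝ) = T := by
      have : (A + T - A).toNat = T := by omega
      rw [this]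
    rw [e1]
    calc (T : ℝ) ≤ T0 := hlt.le.trans (le_max_left _ _)
      _ = T0 * 1 := (mul_one _).symm
      _ ≤ (D + C1 + 12 + T0) * (T : ℝ) ^ γ := by
          apply mul_le_mul _ hTγ zero_le_one (by positivity)
          linarith
  -- the main case
  set M : ℝ := (T : ℝ) ^ (1 / τ') with hM
  have hiτ : 1 ≤ 1 / τ' := by rw [le_div_iff₀ hτ'0]; linarith
  have hTM : (T : ℝ) ≤ M := by
    calc (T : ℝ) = (T : ℝ) ^ (1 : ℝ) := (Real.rpow_one _).symm
      _ ≤ M := Real.rpow_le_rpow_of_exponent_le hTr hiτ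
  have hM1 : 1 ≤ M := hTr.trans hTM
  have hMpos : 0 < M := by linarith
  obtain ⟨m1, m2, m3, m4, m5⟩ := hM0 M (hge.trans hTM)
  have habs : ∀ x : ℝ, 0 ≤ x → x ^ τ ≤ T → x ≤ M := by
    intro x hx hxT
    rcases le_or_gt x 1 with h | h
    · exact h.trans hM1
    · have h1 : x ^ τ' ≤ T := (Real.rpow_le_rpow_of_exponent_le h.le hτ'τ).trans hxT
      calc x = (x ^ τ') ^ (1 / τ') := by
            rw [← Real.rpow_mul hx, mul_one_div_cancel hτ'0.ne', Real.rpow_one]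
        _ ≤ M := Real.rpow_le_rpow (by positivity) h1 (by positivity)
  have hfM : ∀ i, |(f.coeff i : ℝ)| ≤ M := fun i => habs _ (abs_nonneg _) (hfH i)
  have hAM : |(A : ℝ)| ≤ M := habs _ (abs_nonneg _) hAH
  have htM : ∀ t ∈ Ioc A (A + T), |(t : ℝ)| ≤ 2 * M := by
    intro t ht
    rw [mem_Ioc] at ht
    have h5 : (A : ℝ) < t := by exact_mod_cast ht.1
    have h6 : (t : ℝ) ≤ A + T := by exact_mod_cast ht.2
    rw [abs_le]
    have h7 := neg_abs_le (A : ℝ)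
    have h8 := le_abs_self (A : ℝ)
    constructor <;> linarith
  have hval : ∀ t ∈ Ioc A (A + T), |((f.eval t : ℤ) : ℝ)| ≤ M ^ (D + 2) := fun t ht =>
    val_le f D hfD M hM1 m3 hfM t (htM t ht)
  obtain ⟨w, hw0, hwM', hwns⟩ := uni_w D hD f M hM1 hf1 hfD hsq hfM
  have hwM : |(w : ℝ)| ≤ M ^ ((2 * D + 2 : ℕ) : ℝ) := by
    refine hwM'.trans ?_
    rw [Real.rpow_natCast]
    calc ((2 * D)! : ℕ) * (D : ℝ) ^ (2 * D) * M ^ (2 * D + 1) ≤ M * M ^ (2 * D + 1) := by gcongr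
      _ = M ^ (2 * D + 2) := by ring
  have hGG : ∀ p : ℕ, p.Prime → 2 < p → ¬ (p : ℤ) ∣ w →
      ‖∑ x ∈ range p, GG f p x‖ ≤ (D : ℝ) * √p := by
    intro p hp hp2 hpw
    have : Fact p.Prime := ⟨hp⟩
    exact GG_sum2 D f hfD p hp hp2 (hwns p hpw)
  have hlM : 0 ≤ Real.log M := Real.log_nonneg hM1
  have hσl : 0 ≤ σ * Real.log M := by positivity
  -- facts about the `y`
  have hy_all : ∀ y : ℕ, (σ * Real.log M) ^ a ≤ y →
      ((10 * D + 30 : ℕ) / σ + 10) * ((y : ℝ) ^ (1 / a) + 1) * Real.log y ≤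
        η0 * κ / 4 * (y : ℝ) ^ ρ ∧ y0 ≤ y ∧ (y00 : ℝ) ≤ y ∧ (2 : ℝ) ≤ y := by
    intro y hy
    exact hY1 y (m2.trans hy)
  have hth : ∀ y : ℕ, (σ * Real.log M) ^ a ≤ y →
      κ * (y : ℝ) ^ ρ ≤ (PQ Q y).card * Real.log y := by
    intro y hy
    exact hthick y (by exact_mod_cast (hy_all y hy).2.2.1)
  have hlMy : ∀ y : ℕ, (σ * Real.log M) ^ a ≤ y → Real.log M ≤ 1 / σ * (y : ℝ) ^ (1 / a) := by
    intro y hy
    have h5 : σ * Real.log M ≤ (y : ℝ) ^ (1 / a) := by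
      calc σ * Real.log M = ((σ * Real.log M) ^ a) ^ (1 / a) := by
            rw [← Real.rpow_mul hσl, mul_one_div_cancel ha0.ne', Real.rpow_one]
        _ ≤ _ := by gcongr
    calc Real.log M = 1 / σ * (σ * Real.log M) := by field_simp
      _ ≤ _ := by gcongr
  have hSQ : ∀ y : ℕ, (σ * Real.log M) ^ a ≤ y →
      κ / 2 * (y : ℝ) ^ ρ ≤ (SQ Q w y).card * Real.log y := by
    intro y hy
    obtain ⟨g1, _, _, g4⟩ := hy_all y hy
    have hlogy : 0 ≤ Real.log y := Real.log_nonneg (by linarith)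
    have h1 := SQ_diff Q w hw0 y
    have h2 : ((PQ Q y \ SQ Q w y).card : ℝ) + (SQ Q w y).card = (PQ Q y).card := by
      exact_mod_cast card_sdiff_add_card_eq_card (SQ_sub Q w y)
    have h3 : Real.log |(w : ℝ)| ≤ (2 * D + 2) * Real.log M := by
      have h4 : 0 < |(w : ℝ)| := abs_pos.2 (by exact_mod_cast hw0)
      have h5 := Real.log_le_log h4 hwM
      rw [Real.log_rpow hMpos] at h5
      push_cast at h5
      exact h5
    have h6 := hlMy y hy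
    have h7 := hth y hy
    have hya : 0 ≤ (y : ℝ) ^ (1 / a) := by positivity
    have h8 : 1 + 2 * Real.log |(w : ℝ)| ≤
        ((10 * D + 30 : ℕ) / σ + 10) * ((y : ℝ) ^ (1 / a) + 1) := by
      push_cast
      calc 1 + 2 * Real.log |(w : ℝ)| ≤ 1 + 2 * ((2 * D + 2) * Real.log M) := by linarith
        _ ≤ 1 + 2 * ((2 * D + 2) * (1 / σ * (y : ℝ) ^ (1 / a))) := by gcongr
        _ = ((4 * (D : ℝ) + 4) / σ) * (y : ℝ) ^ (1 / a) + 1 := by ring
        _ ≤ ((10 * (D : ℝ) + 30) / σ) * ((y : ℝ) ^ (1 / a) + 1) +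
            10 * ((y : ℝ) ^ (1 / a) + 1) := by
            gcongr
            · linarith
            · linarith
            · linarith
            · linarith
        _ = _ := by ring
    have h9 : (1 + 2 * Real.log |(w : ℝ)|) * Real.log y ≤ η0 * κ / 4 * (y : ℝ) ^ ρ :=
      (mul_le_mul_of_nonneg_right h8 hlogy).trans g1
    have h10 : ((PQ Q y \ SQ Q w y).card : ℝ) * Real.log y ≤ η0 * κ / 4 * (y : ℝ) ^ ρ :=
      (mul_le_mul_of_nonneg_right h1 hlogy).trans h9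
    have h11 : η0 * κ / 4 * (y : ℝ) ^ ρ ≤ κ / 2 * (y : ℝ) ^ ρ := by
      gcongr ?_ * (y : ℝ) ^ ρ
      nlinarith
    have h12 : (PQ Q y).card * Real.log y = ((PQ Q y \ SQ Q w y).card : ℝ) * Real.log y +
        (SQ Q w y).card * Real.log y := by rw [← h2]; ring
    linarith
  -- the exceptional sets
  set E0 := (Ioc A (A + T)).filter (fun t => f.eval t = 0) with hE0
  set E1 := (Ioc A (A + T)).filter (fun t => f.eval t ≠ 0 ∧ ∃ d : ℤ, d ≠ 0 ∧
      |(d : ℝ)| ≤ M ^ σ ∧ ∃ z : ℤ, f.eval t * d = z * z) with hE1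
  set Ys := (Icc 1 ⌊(T : ℝ) ^ ε1⌋₊).filter (fun y : ℕ => (σ * Real.log M) ^ a ≤ y) with hYs
  set F : ℕ → Finset ℤ := fun y => (Ioc A (A + T)).filter
    (fun t => η0 / 4 * (SQ Q w y).card ≤ ‖∑ p ∈ SQ Q w y, GG f p t‖) with hF
  have c0 : (E0.card : ℝ) ≤ D := by
    have hf0 : f ≠ 0 := by
      rintro rfl
      simp at hf1
    have h1 : E0 ⊆ f.roots.toFinset := by
      intro t ht
      rw [hE0, mem_filter] at ht
      rw [Multiset.mem_toFinset, mem_roots hf0]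
      exact ht.2
    have h2 : E0.card ≤ D := (card_le_card h1).trans
      ((Multiset.toFinset_card_le _).trans ((card_roots' _).trans hfD))
    exact_mod_cast h2
  have c1 : (E1.card : ℝ) ≤ C1 * (T : ℝ) ^ γ := by
    refine (m1 f w hw0 hwM hGG A T hT hTM hval).trans ?_
    have h1 : M ^ (3 * σ) ≤ (T : ℝ) ^ ε := by
      rw [hM, ← Real.rpow_mul hTpos.le]
      apply Real.rpow_le_rpow_of_exponent_le hTr
      rw [one_div_mul_eq_div, div_le_iff₀ hτ'0]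
      exact hσε
    calc C1 * √T * M ^ (3 * σ) ≤ C1 * √T * (T : ℝ) ^ ε := by gcongr
      _ = C1 * (T : ℝ) ^ (1 / 2 + ε) := by
          rw [Real.rpow_add hTpos, Real.sqrt_eq_rpow]
          ring
      _ ≤ _ := by
          have := Real.rpow_le_rpow_of_exponent_le hTr hγ1
          gcongr
  have c2 : ((Ys.biUnion F).card : ℝ) ≤ 12 * (T : ℝ) ^ γ := by
    have h1 : ∀ y ∈ Ys, ((F y).card : ℝ) ≤ 12 * (T : ℝ) ^ (1 - ρ / 2 + 1 / (2 * a) + 2 * ε1) := by
      intro y hy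
      rw [hYs, mem_filter, mem_Icc] at hy
      have hyT : (y : ℝ) ≤ (T : ℝ) ^ ε1 := by
        have h2 : (y : ℝ) ≤ ⌊(T : ℝ) ^ ε1⌋₊ := by exact_mod_cast hy.1.2
        exact h2.trans (Nat.floor_le (by positivity))
      have hlT : Real.log T ≤ 1 / σ * (y : ℝ) ^ (1 / a) :=
        (Real.log_le_log hTpos hTM).trans (hlMy y hy.2)
      exact hy0 y T (hy_all y hy.2).2.1 hyT hlT (SQ Q w y)
        (fun p hp => by
          have := mem_PQ.1 (SQ_sub Q w y hp)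
          exact ⟨this.1, this.2.1⟩) (hSQ y hy.2) (GG f)
        (fun p _ n => GG_per f p n) (fun p _ n => GG_norm f p n)
        (fun p hp => by
          rw [SQ, mem_filter] at hp
          exact hGG p (mem_PQ.1 hp.1).1 hp.2.1 hp.2.2) A
    calc ((Ys.biUnion F).card : ℝ) ≤ ∑ y ∈ Ys, ((F y).card : ℝ) := by
          exact_mod_cast card_biUnion_le
      _ ≤ ∑ y ∈ Ys, 12 * (T : ℝ) ^ (1 - ρ / 2 + 1 / (2 * a) + 2 * ε1) := sum_le_sum h1
      _ = (Ys.card : ℝ) * (12 * (T : ℝ) ^ (1 - ρ / 2 + 1 / (2 * a) + 2 * ε1)) := by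
          rw [sum_const, nsmul_eq_mul]
      _ ≤ (T : ℝ) ^ ε1 * (12 * (T : ℝ) ^ (1 - ρ / 2 + 1 / (2 * a) + 2 * ε1)) := by
          gcongr
          have h3 : Ys.card ≤ ⌊(T : ℝ) ^ ε1⌋₊ := by
            refine (card_filter_le _ _).trans ?_
            rw [Nat.card_Icc, Nat.add_sub_cancel]
          have h4 : (Ys.card : ℝ) ≤ ⌊(T : ℝ) ^ ε1⌋₊ := by exact_mod_cast h3
          exact h4.trans (Nat.floor_le (by positivity))
      _ = 12 * (T : ℝ) ^ (ε1 + (1 - ρ / 2 + 1 / (2 * a) + 2 * ε1)) := by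
          rw [Real.rpow_add hTpos ε1 (1 - ρ / 2 + 1 / (2 * a) + 2 * ε1)]; ring
      _ ≤ 12 * (T : ℝ) ^ γ := by
          have : (T : ℝ) ^ (ε1 + (1 - ρ / 2 + 1 / (2 * a) + 2 * ε1)) ≤ (T : ℝ) ^ γ :=
            Real.rpow_le_rpow_of_exponent_le hTr (by linarith)
          gcongr
  refine ⟨E0 ∪ (E1 ∪ Ys.biUnion F), ?_, ?_, ?_⟩
  · refine union_subset (filter_subset _ _) (union_subset (filter_subset _ _) ?_)
    rw [biUnion_subset]
    exact fun y _ => filter_subset _ _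
  · have h1 := card_union_le E0 (E1 ∪ Ys.biUnion F)
    have h2 := card_union_le E1 (Ys.biUnion F)
    have h3 : ((E0 ∪ (E1 ∪ Ys.biUnion F)).card : ℝ) ≤ E0.card + (E1.card + (Ys.biUnion F).card) := by
      exact_mod_cast h1.trans (Nat.add_le_add_left h2 _)
    calc ((E0 ∪ (E1 ∪ Ys.biUnion F)).card : ℝ)
        ≤ D + (C1 * (T : ℝ) ^ γ + 12 * (T : ℝ) ^ γ) := by linarith
      _ ≤ D * (T : ℝ) ^ γ + (C1 * (T : ℝ) ^ γ + 12 * (T : ℝ) ^ γ) + T0 * (T : ℝ) ^ γ := by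
          have h4 : (D : ℝ) ≤ D * (T : ℝ) ^ γ := le_mul_of_one_le_right (by positivity) hTγ
          have h5 : 0 ≤ T0 * (T : ℝ) ^ γ := by positivity
          linarith
      _ = _ := by ring
  · intro t ht htE
    rw [mem_union, mem_union] at htE
    push Not at htE
    obtain ⟨t0, t1, t2⟩ := htE
    have hv0 : f.eval t ≠ 0 := by
      intro h
      apply t0
      rw [hE0, mem_filter]
      exact ⟨ht, h⟩
    have hsm : ∀ d : ℤ, d ≠ 0 → |(d : ℝ)| ≤ M ^ σ → ∀ z : ℤ, f.eval t * d ≠ z * z := by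
      intro d hd0 hdσ z hz
      apply t1
      rw [hE1, mem_filter]
      exact ⟨ht, hv0, d, hd0, hdσ, z, hz⟩
    have hFt : ∀ y : ℕ, (σ * Real.log M) ^ a ≤ y → (y : ℝ) ≤ (T : ℝ) ^ ε1 →
        ‖∑ p ∈ SQ Q w y, GG f p t‖ < η0 / 4 * (SQ Q w y).card := by
      intro y hy hyT
      by_contra h
      apply t2
      rw [mem_biUnion]
      refine ⟨y, ?_, ?_⟩
      · rw [hYs, mem_filter, mem_Icc]
        refine ⟨⟨?_, Nat.le_floor hyT⟩, hy⟩
        have := (hy_all y hy).2.2.2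
        have h2 : 2 ≤ y := by exact_mod_cast this
        omega
      · rw [hF, mem_filter]
        exact ⟨ht, not_lt.1 h⟩
    have hg := good_value D a ρ σ η0 κ ε1 c M Q T f w t ha0 hσ0 hη00 hc0 hcσ m5 hT hTM (by
        rw [hM, ← Real.rpow_mul hTpos.le]
        apply Real.rpow_le_rpow_of_exponent_le hTr
        rw [one_div_mul_eq_div, div_le_iff₀ hτ'0]
        push_cast
        exact hcD) hw0 hwM hv0 (hval t ht) hsm hth (fun y hy => (hy_all y hy).1)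
      (fun y hy => by exact_mod_cast (hy_all y hy).2.2.2) hFt
    refine ⟨hg.1, fun d hd hsqd => ?_⟩
    obtain ⟨g1, g2⟩ := hg.2 d hd hsqd
    refine ⟨g1, fun y h1 h2 => (g2 y h1 h2).trans ?_⟩
    have : (0 : ℝ) ≤ (PQ Q y).card := by positivity
    gcongr

end Pool.Agent.Q122.TF
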