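import Pool.Agent.Q122.TF.SegsFin

/-! Half of the small primes split: the threshold of the question. -/

set_option autoImplicit false

namespace Pool.Agent.Q122.TF

open Finset Polynomial Filter Topology
open scoped Classical Nat

theorem thr_ev (c : ℝ) (hc : 0 < c) : ∃ L0 : ℝ, 1 ≤ L0 ∧ ∀ L : ℝ, L0 ≤ L →
    L ^ 2 ≤ L ^ 2 * Real.log L ^ 2 - 1 ∧ L ^ 2 * Real.log L ^ 2 ≤ Real.exp (c * L) := by
  have t1 := (isLittleO_pow_exp_pos_mul_atTop 4 hc).def one_pos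
  have hev : ∀ᶠ L : ℝ in atTop, 2 ≤ Real.log L ∧ L ^ 4 ≤ Real.exp (c * L) ∧ 1 ≤ L := by
    filter_upwards [Real.tendsto_log_atTop.eventually_ge_atTop 2, t1, eventually_ge_atTop (1 : ℝ)]
      with L h1 h2 h3
    refine ⟨h1, ?_, h3⟩
    rw [Real.norm_of_nonneg (by positivity), Real.norm_of_nonneg (Real.exp_pos _).le, one_mul] at h2
    exact h2
  obtain ⟨L1, hL1⟩ := eventually_atTop.mp hev
  refine ⟨max L1 1, le_max_right _ _, ?_⟩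
  intro L hL
  obtain ⟨h1, h2, h3⟩ := hL1 L ((le_max_left _ _).trans hL)
  have hL0 : 0 < L := by linarith
  have hsq : 1 ≤ L ^ 2 := one_le_pow₀ h3
  have hlog : 4 ≤ Real.log L ^ 2 := by nlinarith
  refine ⟨by nlinarith, ?_⟩
  have h6 : Real.log L ≤ L := (Real.log_le_sub_one_of_pos hL0).trans (by linarith)
  calc L ^ 2 * Real.log L ^ 2 ≤ L ^ 2 * L ^ 2 := by
        have : Real.log L ^ 2 ≤ L ^ 2 := pow_le_pow_left₀ (by linarith) h6 2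
        gcongr
    _ = L ^ 4 := by ring
    _ ≤ _ := h2

/-- the threshold of the question -/
noncomputable def thr (d : ℤ) : ℝ :=
  Real.log |(d : ℝ)| ^ 2 * Real.log (Real.log |(d : ℝ)|) ^ 2

theorem thr_good (Q : Set ℕ) (c η : ℝ) (hc : 0 < c) : ∃ L0 : ℝ, ∀ (T : ℕ) (v : ℤ), 1 ≤ T →
    L0 ≤ c * Real.log T → GoodV Q 2 c η T v → v ≠ 0 ∧
    ∀ d : ℤ, ((d % 4 = 1 ∧ Squarefree d) ∨
      (∃ m : ℤ, d = 4 * m ∧ (m % 4 = 2 ∨ m % 4 = 3) ∧ Squarefree m)) → IsSquare (v * d) →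
      (T : ℝ) ^ c ≤ |(d : ℝ)| ∧
      |2 * (((PQ Q (⌈thr d⌉₊ - 1)).filter (fun p => Spp d p)).card : ℝ) -
        (PQ Q (⌈thr d⌉₊ - 1)).card| ≤ η * (PQ Q (⌈thr d⌉₊ - 1)).card ∧ 0 < thr d := by
  obtain ⟨L0, hL01, hL0⟩ := thr_ev c hc
  refine ⟨L0, ?_⟩
  intro T v hT hTL hg
  refine ⟨hg.1, fun d hd hsq => ?_⟩
  obtain ⟨h1, h2⟩ := hg.2 d hd hsq
  refine ⟨h1, ?_⟩
  have hTr : (1 : ℝ) ≤ T := by exact_mod_cast hT
  have hT0 : (0 : ℝ) < T := by linarith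
  set L : ℝ := Real.log |(d : ℝ)| with hL
  have hTc : 0 < (T : ℝ) ^ c := by positivity
  have hd0 : 0 < |(d : ℝ)| := lt_of_lt_of_le hTc h1
  have hLL : L0 ≤ L := by
    refine hTL.trans ?_
    have := Real.log_le_log hTc h1
    rwa [Real.log_rpow hT0] at this
  obtain ⟨e1, e2⟩ := hL0 L hLL
  have hL1 : 1 ≤ L := hL01.trans hLL
  have hthr : thr d = L ^ 2 * Real.log L ^ 2 := rfl
  have hpos : 0 < thr d := by
    rw [hthr]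
    have : 1 ≤ L ^ 2 := one_le_pow₀ hL1
    linarith
  have hceil : 0 < ⌈thr d⌉₊ := Nat.ceil_pos.mpr hpos
  have hyc : ((⌈thr d⌉₊ - 1 : ℕ) : ℝ) + 1 = (⌈thr d⌉₊ : ℝ) := by
    have : (⌈thr d⌉₊ - 1) + 1 = ⌈thr d⌉₊ := by omega
    exact_mod_cast this
  refine ⟨h2 (⌈thr d⌉₊ - 1) ?_ ?_, hpos⟩
  · have h3 := Nat.le_ceil (thr d)
    have h4 : L ^ (2 : ℝ) = L ^ 2 := by norm_num
    rw [h4]
    rw [hthr] at h3 hyc
    rw [hthr]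
    linarith
  · have h3 := Nat.ceil_lt_add_one hpos.le
    have h4 : |(d : ℝ)| ^ c = Real.exp (c * L) := by
      rw [Real.rpow_def_of_pos hd0, hL, mul_comm]
    rw [h4]
    rw [hthr] at h3 hyc
    rw [hthr]
    linarith

theorem ncard_PQ (Q : Set ℕ) (y : ℕ) : Set.ncard {p : ℕ | p.Prime ∧ p ≤ y ∧ p ∈ Q} =
    (PQ Q y).card := by
  rw [← Set.ncard_coe_finset]
  congr 1
  ext p
  rw [Finset.mem_coe, mem_PQ, Set.mem_setOf_eq]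

theorem ncard_split (Q : Set ℕ) (d : ℤ) (y : ℕ) : Set.ncard {p : ℕ | p.Prime ∧ p ≤ y ∧ p ∈ Q ∧
    ¬ (p : ℤ) ∣ d ∧ ∃ x : ℤ, (4 * (p : ℤ)) ∣ x ^ 2 - d} =
    ((PQ Q y).filter (fun p => Spp d p)).card := by
  rw [← Set.ncard_coe_finset]
  congr 1
  ext p
  rw [Finset.mem_coe, mem_filter, mem_PQ, Set.mem_setOf_eq]
  unfold Spp
  tauto

theorem lt_iff_le (x : ℝ) (hx : 0 < x) (p : ℕ) : (p : ℝ) < x ↔ p ≤ ⌈x⌉₊ - 1 := by
  rw [← Nat.lt_ceil]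
  have : 0 < ⌈x⌉₊ := Nat.ceil_pos.mpr hx
  omega

theorem ncard_PQ_lt (Q : Set ℕ) (x : ℝ) (hx : 0 < x) :
    Set.ncard {p : ℕ | p.Prime ∧ p ∈ Q ∧ (p : ℝ) < x} = (PQ Q (⌈x⌉₊ - 1)).card := by
  rw [← ncard_PQ]
  congr 1
  ext p
  rw [Set.mem_setOf_eq, Set.mem_setOf_eq, lt_iff_le x hx p]
  tauto

theorem ncard_split_lt (Q : Set ℕ) (d : ℤ) (x : ℝ) (hx : 0 < x) :
    Set.ncard {p : ℕ | p.Prime ∧ p ∈ Q ∧ (p : ℝ) < x ∧ ¬ (p : ℤ) ∣ d ∧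
      ∃ x : ℤ, (4 * (p : ℤ)) ∣ x ^ 2 - d} =
    ((PQ Q (⌈x⌉₊ - 1)).filter (fun p => Spp d p)).card := by
  rw [← ncard_split]
  congr 1
  ext p
  rw [Set.mem_setOf_eq, Set.mem_setOf_eq, lt_iff_le x hx p]
  tauto

end Pool.Agent.Q122.TF
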