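import Pool.Agent.Q122.TF.Fourier

/-! Sums of fractions with prime denominators from disjoint classes are well spaced. -/

set_option autoImplicit false

namespace Pool.Agent.Q122.TF

open Finset Pool.Agent.Helper112

/-- the fractions `a / p`, `p` in the class, and `0 / 1` -/
def RR (S : Finset ℕ) (N : ℕ) : Finset (ℕ × ℕ) :=
  insert (1, 0) ((S ×ˢ range (N + 1)).filter (fun r => 1 ≤ r.2 ∧ r.2 < r.1))

theorem mem_RR {S : Finset ℕ} {N : ℕ} {r : ℕ × ℕ} :
    r ∈ RR S N ↔ r = (1, 0) ∨ (r.1 ∈ S ∧ r.2 ≤ N ∧ 1 ≤ r.2 ∧ r.2 < r.1) := by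
  unfold RR
  rw [mem_insert, mem_filter, mem_product, mem_range]
  constructor
  · rintro (h | ⟨⟨h1, h2⟩, h3⟩)
    · exact Or.inl h
    · exact Or.inr ⟨h1, by omega, h3⟩
  · rintro (h | ⟨h1, h2, h3⟩)
    · exact Or.inl h
    · exact Or.inr ⟨⟨h1, by omega⟩, h3⟩

variable {k : ℕ}

/-- the sum of the fractions -/
noncomputable def xi (r : Fin k → ℕ × ℕ) : ℝ := ∑ i, ((r i).2 : ℝ) / (r i).1

theorem not_dvd_L (P : Fin k → Finset ℕ) (N : ℕ) (hprime : ∀ i, ∀ p ∈ P i, p.Prime ∧ p ≤ N)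
    (hdisj : ∀ i j, i ≠ j → Disjoint (P i) (P j)) (r s : Fin k → ℕ × ℕ)
    (hr : ∀ i, r i ∈ RR (P i) N) (hs : ∀ i, s i ∈ RR (P i) N) (i : Fin k) (q : ℕ) (hq : q ∈ P i) :
    ¬ q ∣ ∏ j ∈ univ.erase i, ((r j).1 * (s j).1) := by
  intro h
  have hqp := (hprime i q hq).1
  rw [hqp.prime.dvd_finsetProd_iff] at h
  obtain ⟨j, hj, hd⟩ := h
  have hji : j ≠ i := ne_of_mem_erase hj
  have aux : ∀ t : Fin k → ℕ × ℕ, (∀ i, t i ∈ RR (P i) N) → ¬ q ∣ (t j).1 := by
    intro t ht hdt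
    rcases mem_RR.1 (ht j) with h1 | h1
    · rw [h1] at hdt
      exact hqp.one_lt.ne' (Nat.dvd_one.1 hdt)
    · have h2 := (hprime j _ h1.1).1
      have h3 : q = (t j).1 := (Nat.prime_dvd_prime_iff_eq hqp h2).1 hdt
      exact (disjoint_left.1 (hdisj i j (Ne.symm hji)) hq) (h3 ▸ h1.1)
  rcases (hqp.dvd_mul).1 hd with h1 | h1
  · exact aux r hr h1
  · exact aux s hs h1

theorem not_int (P : Fin k → Finset ℕ) (N : ℕ) (hprime : ∀ i, ∀ p ∈ P i, p.Prime ∧ p ≤ N)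
    (hdisj : ∀ i j, i ≠ j → Disjoint (P i) (P j)) (r s : Fin k → ℕ × ℕ)
    (hr : ∀ i, r i ∈ RR (P i) N) (hs : ∀ i, s i ∈ RR (P i) N) (hne : r ≠ s) (z : ℤ) :
    xi s - xi r ≠ z := by
  intro h
  obtain ⟨i, hi⟩ := Function.ne_iff.1 hne
  set L := ∏ j ∈ univ.erase i, ((r j).1 * (s j).1) with hL
  have hpos : ∀ t : Fin k → ℕ × ℕ, (∀ i, t i ∈ RR (P i) N) → ∀ j, 1 ≤ (t j).1 := by
    intro t ht j
    rcases mem_RR.1 (ht j) with h1 | h1
    · rw [h1]
    · exact (hprime j _ h1.1).1.one_le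
  -- the other terms
  obtain ⟨w, hw⟩ : ∃ w : ℤ, (L : ℝ) * (((s i).2 : ℝ) / (s i).1 - ((r i).2 : ℝ) / (r i).1) = w := by
    have e1 : xi s - xi r = (((s i).2 : ℝ) / (s i).1 - ((r i).2 : ℝ) / (r i).1) +
        ∑ j ∈ univ.erase i, (((s j).2 : ℝ) / (s j).1 - ((r j).2 : ℝ) / (r j).1) := by
      unfold xi
      rw [← sum_sub_distrib]
      exact (add_sum_erase univ (fun j => ((s j).2 : ℝ) / (s j).1 - ((r j).2 : ℝ) / (r j).1)
        (mem_univ i)).symm
    have e2 : ∀ j ∈ univ.erase i, ∃ w : ℤ,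
        (L : ℝ) * (((s j).2 : ℝ) / (s j).1 - ((r j).2 : ℝ) / (r j).1) = w := by
      intro j hj
      obtain ⟨M, hM⟩ : (r j).1 * (s j).1 ∣ L := dvd_prod_of_mem _ hj
      refine ⟨M * ((s j).2 * (r j).1 - (r j).2 * (s j).1), ?_⟩
      have h1 : ((r j).1 : ℝ) ≠ 0 := by
        have := hpos r hr j
        positivity
      have h2 : ((s j).1 : ℝ) ≠ 0 := by
        have := hpos s hs j
        positivity
      rw [hM]
      push_cast
      field_simp
    choose! w hw using e2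
    refine ⟨L * z - ∑ j ∈ univ.erase i, w j, ?_⟩
    push_cast
    rw [← sum_congr rfl hw, ← mul_sum, ← h, e1]
    ring
  have h1 : ((r i).1 : ℝ) ≠ 0 := by
    have := hpos r hr i
    positivity
  have h2 : ((s i).1 : ℝ) ≠ 0 := by
    have := hpos s hs i
    positivity
  have key : (L : ℤ) * ((s i).2 * (r i).1 - (r i).2 * (s i).1) = w * ((s i).1 * (r i).1) := by
    have : (L : ℝ) * ((s i).2 * (r i).1 - (r i).2 * (s i).1) = w * ((s i).1 * (r i).1) := by
      rw [← hw]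
      field_simp
    exact_mod_cast this
  -- one case
  have main : ∀ (a p a' p' : ℕ) (v : ℤ), p ∈ P i → 1 ≤ a → a < p →
      (p' = 1 ∧ a' = 0 ∨ p' ∈ P i ∧ 1 ≤ a' ∧ a' < p') → (p, a) ≠ (p', a') →
      (L : ℤ) * ((a' : ℤ) * p - a * p') = v * (p' * p) → False := by
    intro a p a' p' v hp ha1 hap hcase hne' heq
    have hpp := (hprime i p hp).1
    have hpi : Prime (p : ℤ) := Nat.prime_iff_prime_int.1 hpp
    have hnL : ¬ (p : ℤ) ∣ (L : ℤ) := by
      intro hd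
      exact not_dvd_L P N hprime hdisj r s hr hs i p hp (by exact_mod_cast hd)
    have hna : ¬ (p : ℤ) ∣ (a : ℤ) := by
      intro hd
      have := Nat.le_of_dvd (by omega) (Int.natCast_dvd_natCast.1 hd)
      omega
    by_cases hpp' : p = p'
    · subst hpp'
      have h3 : (L : ℤ) * ((a' : ℤ) - a) = v * p := by
        have hp0 : (p : ℤ) ≠ 0 := by
          have := hpp.pos
          omega
        apply mul_right_cancel₀ hp0
        linarith
      have h4 : (p : ℤ) ∣ (a' : ℤ) - a := by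
        have : (p : ℤ) ∣ (L : ℤ) * ((a' : ℤ) - a) := ⟨v, by rw [h3]; ring⟩
        exact (hpi.dvd_mul.1 this).resolve_left hnL
      have h5 : a' < p := by
        rcases hcase with ⟨h6, _⟩ | h6
        · exact absurd h6 hpp.one_lt.ne'
        · exact h6.2.2
      have := Int.eq_zero_of_abs_lt_dvd h4 (by rw [abs_lt]; constructor <;> omega)
      apply hne'
      have : a = a' := by omega
      rw [this]
    · have h3 : (p : ℤ) ∣ (L : ℤ) * (a * p') := by
        refine ⟨L * a' - v * p', ?_⟩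
        linear_combination -heq
      rcases hpi.dvd_mul.1 h3 with h4 | h4
      · exact hnL h4
      rcases hpi.dvd_mul.1 h4 with h5 | h5
      · exact hna h5
      rcases hcase with ⟨h6, _⟩ | h6
      · rw [h6] at h5
        have := Int.natCast_dvd_natCast.1 h5
        exact hpp.one_lt.ne' (Nat.dvd_one.1 this)
      · have h7 := (hprime i _ h6.1).1
        exact hpp' ((Nat.prime_dvd_prime_iff_eq hpp h7).1 (Int.natCast_dvd_natCast.1 h5))
  rcases mem_RR.1 (hr i) with hr1 | hr1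
  · rcases mem_RR.1 (hs i) with hs1 | hs1
    · exact hi (by rw [hr1, hs1])
    · refine main (s i).2 (s i).1 (r i).2 (r i).1 (-w) hs1.1 hs1.2.2.1 hs1.2.2.2
        (Or.inl ⟨by rw [hr1], by rw [hr1]⟩) (fun h => hi h.symm) ?_
      linear_combination -key
  · refine main (r i).2 (r i).1 (s i).2 (s i).1 w hr1.1 hr1.2.2.1 hr1.2.2.2 ?_ (fun h => hi h) ?_
    · rcases mem_RR.1 (hs i) with hs1 | hs1
      · exact Or.inl ⟨by rw [hs1], by rw [hs1]⟩
      · exact Or.inr ⟨hs1.1, hs1.2.2⟩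
    · linear_combination key

theorem sep (P : Fin k → Finset ℕ) (N : ℕ) (hN : 1 ≤ N)
    (hprime : ∀ i, ∀ p ∈ P i, p.Prime ∧ p ≤ N)
    (hdisj : ∀ i j, i ≠ j → Disjoint (P i) (P j)) (r s : Fin k → ℕ × ℕ)
    (hr : ∀ i, r i ∈ RR (P i) N) (hs : ∀ i, s i ∈ RR (P i) N) (hne : r ≠ s) :
    lsSep (N ^ (2 * k)) (xi s - xi r) := by
  have hpos : ∀ t : Fin k → ℕ × ℕ, (∀ i, t i ∈ RR (P i) N) → ∀ j, 1 ≤ (t j).1 ∧ (t j).1 ≤ N := by
    intro t ht j
    rcases mem_RR.1 (ht j) with h1 | h1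
    · rw [h1]
      exact ⟨le_rfl, hN⟩
    · exact ⟨(hprime j _ h1.1).1.one_le, (hprime j _ h1.1).2⟩
  set M : ℕ := ∏ j, ((r j).1 * (s j).1) with hM
  have hM1 : 1 ≤ M := Nat.one_le_iff_ne_zero.2 (prod_ne_zero_iff.2 fun j _ => by
    have := (hpos r hr j).1
    have := (hpos s hs j).1
    positivity)
  have hMN : M ≤ N ^ (2 * k) := by
    calc M ≤ ∏ _j : Fin k, N ^ 2 := prod_le_prod' fun j _ => by
          rw [pow_two]
          exact Nat.mul_le_mul (hpos r hr j).2 (hpos s hs j).2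
      _ = N ^ (2 * k) := by rw [prod_const, card_univ, Fintype.card_fin, ← pow_mul]
  obtain ⟨m, hm⟩ : ∃ m : ℤ, (M : ℝ) * (xi s - xi r) = m := by
    have e2 : ∀ j : Fin k, ∃ w : ℤ,
        (M : ℝ) * (((s j).2 : ℝ) / (s j).1 - ((r j).2 : ℝ) / (r j).1) = w := by
      intro j
      obtain ⟨M', hM'⟩ : (r j).1 * (s j).1 ∣ M := dvd_prod_of_mem _ (mem_univ j)
      refine ⟨M' * ((s j).2 * (r j).1 - (r j).2 * (s j).1), ?_⟩
      have h1 : ((r j).1 : ℝ) ≠ 0 := by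
        have := (hpos r hr j).1
        positivity
      have h2 : ((s j).1 : ℝ) ≠ 0 := by
        have := (hpos s hs j).1
        positivity
      rw [hM']
      push_cast
      field_simp
    choose w hw using e2
    refine ⟨∑ j, w j, ?_⟩
    push_cast
    rw [← sum_congr rfl fun j _ => hw j, ← mul_sum]
    unfold xi
    rw [sum_sub_distrib]
  have hMr : (0 : ℝ) < M := by exact_mod_cast hM1
  set x := xi s - xi r with hx
  have hf : Int.fract x = ((m - ⌊x⌋ * M : ℤ) : ℝ) / M := by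
    rw [eq_div_iff hMr.ne']
    push_cast
    rw [← hm, Int.fract]
    ring
  have h0 := Int.fract_nonneg x
  have h1 := Int.fract_lt_one x
  rw [hf] at h0 h1
  rw [le_div_iff₀ hMr, zero_mul] at h0
  rw [div_lt_one hMr] at h1
  have h2 : m - ⌊x⌋ * M ≠ 0 := by
    intro h3
    have : Int.fract x = 0 := by rw [hf, h3]; simp
    apply not_int P N hprime hdisj r s hr hs hne ⌊x⌋
    rw [← hx]
    have := Int.fract_add_floor x
    linarith
  have h0' : 0 ≤ m - ⌊x⌋ * M := by exact_mod_cast h0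
  have h1' : m - ⌊x⌋ * M < M := by exact_mod_cast h1
  have h3 : (1 : ℝ) ≤ ((m - ⌊x⌋ * M : ℤ) : ℝ) := by
    exact_mod_cast (by omega : 1 ≤ m - ⌊x⌋ * M)
  have h4 : ((m - ⌊x⌋ * M : ℤ) : ℝ) ≤ (M : ℝ) - 1 := by
    have : m - ⌊x⌋ * M ≤ (M : ℤ) - 1 := by omega
    exact_mod_cast this
  have h5 : 1 / ((N ^ (2 * k) : ℕ) : ℝ) ≤ 1 / (M : ℝ) :=
    one_div_le_one_div_of_le hMr (by exact_mod_cast hMN)
  unfold lsSep
  rw [hf]
  constructor
  · refine h5.trans ?_
    exact div_le_div_of_nonneg_right h3 hMr.le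
  · have h6 : ((m - ⌊x⌋ * M : ℤ) : ℝ) / M ≤ ((M : ℝ) - 1) / M :=
      div_le_div_of_nonneg_right h4 hMr.le
    have h7 : ((M : ℝ) - 1) / M = 1 - 1 / (M : ℝ) := by
      field_simp
    linarith

end Pool.Agent.Q122.TF
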