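import Pool.Agent.Q122.TF.Char

/-! Weil's bound, uniformly in the polynomial. -/

set_option autoImplicit false

namespace Pool.Agent.Q122.TF

open Finset Polynomial
open scoped Nat

/-- the bad primes of a squarefree polynomial divide a small number -/
theorem uni_w (D : ℕ) (hD : 1 ≤ D) (f : ℤ[X]) (H : ℝ) (hH : 1 ≤ H) (hf1 : 1 ≤ f.natDegree)
    (hfD : f.natDegree ≤ D) (hsq : Squarefree (f.map (Int.castRingHom ℚ)))
    (hfH : ∀ i, |(f.coeff i : ℝ)| ≤ H) :
    ∃ w : ℤ, w ≠ 0 ∧ |(w : ℝ)| ≤ ((2 * D)! : ℕ) * (D : ℝ) ^ (2 * D) * H ^ (2 * D + 1) ∧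
      ∀ (p : ℕ) [Fact p.Prime], ¬ (p : ℤ) ∣ w → ∀ (c : ZMod p) (h : (ZMod p)[X]),
        f.map (Int.castRingHom (ZMod p)) ≠ C c * h ^ 2 := by
  have hDr : (1 : ℝ) ≤ D := by exact_mod_cast hD
  set R : ℤ := resultant f (derivative f) with hR
  have hf0 : f ≠ 0 := by
    rintro rfl
    simp at hf1
  have hlc : f.leadingCoeff ≠ 0 := leadingCoeff_ne_zero.2 hf0
  have hinj : Function.Injective (Int.castRingHom ℚ) := Int.cast_injective
  have hR0 : R ≠ 0 := by
    intro h
    have h1 : resultant (f.map (Int.castRingHom ℚ)) ((derivative f).map (Int.castRingHom ℚ)) = 0 := by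
      rw [natDegree_map_eq_of_injective hinj, natDegree_map_eq_of_injective hinj,
        resultant_map_map, ← hR, h, map_zero]
    rw [resultant_eq_zero_iff] at h1
    apply h1.2
    have h2 : (f.map (Int.castRingHom ℚ)).Separable :=
      (PerfectField.separable_iff_squarefree).2 hsq
    rw [← derivative_map]
    exact h2
  refine ⟨f.leadingCoeff * R, mul_ne_zero hlc hR0, ?_, ?_⟩
  · have h1 : |(f.leadingCoeff : ℝ)| ≤ H := hfH _
    have hd2 : (derivative f).natDegree ≤ f.natDegree - 1 := natDegree_derivative_le f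
    set N := f.natDegree + (derivative f).natDegree with hN
    have hN2 : N ≤ 2 * D := by omega
    have hDH : 1 ≤ (D : ℝ) * H := by nlinarith
    have h2 : |(R : ℝ)| ≤ (N ! : ℕ) * ((D : ℝ) * H) ^ N := by
      have h3 := Matrix.det_le (A := sylvester (f.map (Int.castRingHom ℝ))
        ((derivative f).map (Int.castRingHom ℝ)) f.natDegree (derivative f).natDegree)
        (abv := AbsoluteValue.abs) (x := (D : ℝ) * H) (by
          intro i j
          have hDH0 : (0 : ℝ) ≤ D * H := by linarith
          have e1 : ∀ k, |((f.map (Int.castRingHom ℝ)).coeff k)| ≤ (D : ℝ) * H := by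
            intro k
            rw [coeff_map, eq_intCast]
            refine (hfH k).trans ?_
            nlinarith
          have e2 : ∀ k, |(((derivative f).map (Int.castRingHom ℝ)).coeff k)| ≤ (D : ℝ) * H := by
            intro k
            rw [coeff_map, eq_intCast, coeff_derivative]
            by_cases hk : k + 1 ≤ f.natDegree
            · push_cast
              rw [abs_mul]
              have h4 : |((k : ℝ) + 1)| ≤ D := by
                rw [abs_of_nonneg (by positivity)]
                exact_mod_cast hk.trans hfD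
              calc |(f.coeff (k + 1) : ℝ)| * |(k : ℝ) + 1| ≤ H * D := by
                    gcongr
                    exact hfH _
                _ = _ := by ring
            · rw [coeff_eq_zero_of_natDegree_lt (by omega)]
              simpa using hDH0
          unfold sylvester
          rw [Matrix.of_apply]
          refine Fin.addCases (fun j => ?_) (fun j => ?_) j
          · rw [Fin.addCases_left]
            split_ifs
            · exact e2 _
            · simpa using hDH0
          · rw [Fin.addCases_right]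
            split_ifs
            · exact e1 _
            · simpa using hDH0)
      rw [Fintype.card_fin, nsmul_eq_mul] at h3
      have h5 : (sylvester (f.map (Int.castRingHom ℝ))
        ((derivative f).map (Int.castRingHom ℝ)) f.natDegree (derivative f).natDegree).det =
          (R : ℝ) := by
        change resultant (f.map (Int.castRingHom ℝ)) ((derivative f).map (Int.castRingHom ℝ))
          f.natDegree (derivative f).natDegree = (R : ℝ)
        rw [resultant_map_map, hR, eq_intCast]
      rw [h5] at h3
      exact h3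
    push_cast
    rw [abs_mul]
    calc |(f.leadingCoeff : ℝ)| * |(R : ℝ)| ≤ H * ((N ! : ℕ) * ((D : ℝ) * H) ^ N) := by gcongr
      _ ≤ H * (((2 * D)! : ℕ) * ((D : ℝ) * H) ^ (2 * D)) := by
          have h6 : ((N ! : ℕ) : ℝ) ≤ (((2 * D)! : ℕ) : ℝ) := by
            exact_mod_cast Nat.factorial_le hN2
          gcongr
      _ = _ := by rw [mul_pow]; ring
  · intro p _ hp c h hch
    have hlcp : ((f.leadingCoeff : ℤ) : ZMod p) ≠ 0 := by
      intro h0
      rw [ZMod.intCast_zmod_eq_zero_iff_dvd] at h0
      exact hp (h0.mul_right _)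
    have hRp : ((R : ℤ) : ZMod p) ≠ 0 := by
      intro h0
      rw [ZMod.intCast_zmod_eq_zero_iff_dvd] at h0
      exact hp (h0.mul_left _)
    have hdeg : (f.map (Int.castRingHom (ZMod p))).natDegree = f.natDegree := by
      apply natDegree_map_of_leadingCoeff_ne_zero
      rw [eq_intCast]
      exact hlcp
    obtain ⟨u, v, -, -, huv⟩ := exists_mul_add_mul_eq_C_resultant (m := f.natDegree)
      (n := (derivative f).natDegree) f (derivative f) le_rfl le_rfl (Or.inl (by omega))
    have e1 := congrArg (Polynomial.map (Int.castRingHom (ZMod p))) huv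
    rw [Polynomial.map_add, Polynomial.map_mul, Polynomial.map_mul, ← derivative_map, map_C,
      hch, eq_intCast, ← hR] at e1
    have h1 : h ∣ C ((R : ℤ) : ZMod p) := by
      rw [← e1]
      apply dvd_add
      · exact Dvd.dvd.mul_right (Dvd.dvd.mul_left (dvd_pow_self h two_ne_zero) _) _
      · apply Dvd.dvd.mul_right
        rw [derivative_mul, derivative_C, zero_mul, zero_add, derivative_pow]
        apply Dvd.dvd.mul_left
        apply Dvd.dvd.mul_right
        apply Dvd.dvd.mul_left
        simp
    have h2 : IsUnit h := isUnit_of_dvd_unit h1 (isUnit_C.2 hRp.isUnit)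
    have h3 : h.natDegree = 0 := natDegree_eq_zero_of_isUnit h2
    have h4 : (C c * h ^ 2).natDegree = 0 := by
      have h5 := natDegree_C_mul_le c (h ^ 2)
      rw [natDegree_pow, h3] at h5
      omega
    rw [hch, h4] at hdeg
    omega

/-- Weil's bound modulo a good prime -/
theorem GG_sum2 (D : ℕ) (f : ℤ[X]) (hfD : f.natDegree ≤ D) (p : ℕ)
    (hp : p.Prime) (hp2 : 2 < p)
    (hns : ∀ (c : ZMod p) (h : (ZMod p)[X]), f.map (Int.castRingHom (ZMod p)) ≠ C c * h ^ 2) :
    ‖∑ x ∈ range p, GG f p x‖ ≤ (D : ℝ) * √p := by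
  have : Fact p.Prime := ⟨hp⟩
  set fp := f.map (Int.castRingHom (ZMod p)) with hfp
  have hchar : ringChar (ZMod p) ≠ 2 := by
    rw [ZMod.ringChar_zmod_n]
    omega
  have hd : 1 ≤ fp.natDegree := by
    by_contra h
    have h1 : fp.natDegree = 0 := by omega
    obtain ⟨c, hc⟩ := natDegree_eq_zero.1 h1
    exact hns c 1 (by rw [← hc]; simp)
  have hW := Pool.Agent.H341R2.Sharp.weil_sharp hchar fp hd hns
  rw [ZMod.card, hfp, ← sum_eq_quad] at hW
  have e1 : ‖∑ x ∈ range p, GG f p x‖ = |∑ x ∈ range p, ((jacobiSym (f.eval (x : ℤ)) p : ℤ) : ℝ)| := by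
    unfold GG
    have : (∑ x ∈ range p, ((jacobiSym (f.eval (x : ℤ)) p : ℤ) : ℂ)) =
        ((∑ x ∈ range p, ((jacobiSym (f.eval (x : ℤ)) p : ℤ) : ℝ) : ℝ) : ℂ) := by
      push_cast
      rfl
    rw [this, Complex.norm_real, Real.norm_eq_abs]
  rw [e1]
  refine hW.trans ?_
  have h1 : (f.map (Int.castRingHom (ZMod p))).natDegree ≤ f.natDegree := natDegree_map_le
  have h2 : ((f.map (Int.castRingHom (ZMod p))).natDegree : ℝ) ≤ D := by
    exact_mod_cast h1.trans hfD
  have h3 : 0 ≤ √(p : ℝ) := Real.sqrt_nonneg _
  nlinarith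

end Pool.Agent.Q122.TF
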