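import Pool.Agent.Q122.TF.Conv
import Pool.Agent.Q122.TF.Uni

/-! Few values of a polynomial belong to small discriminants. -/

set_option autoImplicit false

namespace Pool.Agent.Q122.TF

open Finset Polynomial Filter Topology
open scoped Classical

/-- the twisted symbols -/
noncomputable def GD (d : ℤ) (f : ℤ[X]) (p : ℕ) (t : ℤ) : ℂ :=
  ((jacobiSym d p : ℤ) : ℂ) * GG f p t

theorem GD_per (d : ℤ) (f : ℤ[X]) (p : ℕ) (n : ℤ) : GD d f p (n + p) = GD d f p n := by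
  unfold GD
  rw [GG_per]

theorem jac_norm (d : ℤ) (p : ℕ) : ‖((jacobiSym d p : ℤ) : ℂ)‖ ≤ 1 := by
  rw [Complex.norm_intCast]
  exact_mod_cast jac_abs _ _

theorem GD_norm (d : ℤ) (f : ℤ[X]) (p : ℕ) (n : ℤ) : ‖GD d f p n‖ ≤ 1 := by
  unfold GD
  rw [norm_mul]
  exact mul_le_one₀ (jac_norm d p) (norm_nonneg _) (GG_norm f p n)

theorem GD_sum (d : ℤ) (f : ℤ[X]) (p : ℕ) (B : ℝ) (h : ‖∑ x ∈ range p, GG f p x‖ ≤ B) :
    ‖∑ x ∈ range p, GD d f p x‖ ≤ B := by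
  unfold GD
  rw [← mul_sum, norm_mul]
  have h1 := jac_norm d p
  have h2 := norm_nonneg (∑ x ∈ range p, GG f p x)
  calc ‖((jacobiSym d p : ℤ) : ℂ)‖ * ‖∑ x ∈ range p, GG f p x‖
      ≤ 1 * ‖∑ x ∈ range p, GG f p x‖ := mul_le_mul_of_nonneg_right h1 h2
    _ ≤ B := by rw [one_mul]; exact h

theorem GD_eq (d : ℤ) (f : ℤ[X]) (p : ℕ) (t z : ℤ) (hz : f.eval t * d = z * z) :
    GD d f p t = ((jacobiSym (z * z) p : ℤ) : ℂ) := by
  unfold GD GG
  rw [← hz, jacobiSym.mul_left]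
  push_cast
  ring

theorem small_disc2 (D : ℕ) (σ : ℝ) (hσ : 0 < σ) (hσ1 : σ ≤ 1 / 2) :
    ∃ C : ℝ, 0 < C ∧ ∀ᶠ M : ℝ in atTop, ∀ (f : ℤ[X]) (w : ℤ), w ≠ 0 →
    |(w : ℝ)| ≤ M ^ ((2 * D + 2 : ℕ) : ℝ) →
    (∀ p : ℕ, p.Prime → 2 < p → ¬ (p : ℤ) ∣ w → ‖∑ x ∈ range p, GG f p x‖ ≤ (D : ℝ) * √p) →
    ∀ (A : ℤ) (T : ℕ), 1 ≤ T → (T : ℝ) ≤ M →
    (∀ t ∈ Ioc A (A + T), |((f.eval t : ℤ) : ℝ)| ≤ M ^ (D + 2)) →
    (((Ioc A (A + T)).filter (fun t => f.eval t ≠ 0 ∧ ∃ d : ℤ, d ≠ 0 ∧ |(d : ℝ)| ≤ M ^ σ ∧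
      ∃ z : ℤ, f.eval t * d = z * z)).card : ℝ) ≤ C * √T * M ^ (3 * σ) := by
  obtain ⟨C1, hC10, hE⟩ := except2 (D : ℝ) (1 / 4) ((2 * D + 2 : ℕ) : ℝ) σ σ 2 (by positivity)
    (by positivity) (by positivity) hσ hσ (by linarith)
  refine ⟨3 * C1, by positivity, ?_⟩
  have ev3 : ∀ᶠ M : ℝ in atTop, ‖Real.log M‖ ≤ 1 / (8 * (D + 3)) * ‖M ^ (σ * (1 - σ))‖ :=
    (isLittleO_log_rpow_atTop (mul_pos hσ (by linarith))).bound (by positivity)
  filter_upwards [hE, ev3, eventually_ge_atTop 1] with M h1 h3 hM1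
  intro f w hw hwM hgood A T hT1 hTM hval
  have hM0 : 0 < M := by linarith
  have hlM : 0 ≤ Real.log M := Real.log_nonneg hM1
  have hMσ : 1 ≤ M ^ σ := Real.one_le_rpow hM1 hσ.le
  have hEd : ∀ d : ℤ, ∃ E ⊆ Ioc A (A + T), (E.card : ℝ) ≤ C1 * √T * M ^ (σ + σ) ∧
      ∀ t ∈ Ioc A (A + T), t ∉ E → ∃ Q : Finset ℕ,
        (∀ p ∈ Q, p.Prime ∧ 2 < p ∧ (p : ℝ) ≤ M ^ σ ∧ ¬ (p : ℤ) ∣ w) ∧
        2 * M ^ (σ * (1 - σ)) ≤ Q.card ∧ ‖∑ p ∈ Q, GD d f p t‖ < 1 / 4 * Q.card := fun d =>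
    h1 (GD d f) w hw hwM (fun p hp hp2 hpw => ⟨GD_per d f p, GD_norm d f p,
      GD_sum d f p _ (hgood p hp hp2 hpw)⟩) A T hT1 hTM
  choose Ed hEd1 hEd2 hEd3 using hEd
  set m : ℕ := ⌊M ^ σ⌋₊ with hm
  have hmM : (m : ℝ) ≤ M ^ σ := Nat.floor_le (by positivity)
  have hsub : (Ioc A (A + T)).filter (fun t => f.eval t ≠ 0 ∧ ∃ d : ℤ, d ≠ 0 ∧
      |(d : ℝ)| ≤ M ^ σ ∧ ∃ z : ℤ, f.eval t * d = z * z) ⊆
      (Icc (-(m : ℤ)) m).biUnion Ed := by
    intro t ht
    rw [mem_filter] at ht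
    obtain ⟨htI, hv0, d, hd0, hdM, z, hz⟩ := ht
    rw [mem_biUnion]
    refine ⟨d, ?_, ?_⟩
    · have h4 : |d| ≤ (m : ℤ) := by
        have h5 : ((d.natAbs : ℕ) : ℝ) ≤ M ^ σ := by
          rw [Nat.cast_natAbs]
          push_cast
          exact hdM
        have h6 : d.natAbs ≤ m := Nat.le_floor h5
        rw [Int.abs_eq_natAbs]
        exact_mod_cast h6
      rw [mem_Icc]
      exact abs_le.1 h4
    · by_contra htE
      obtain ⟨Q, hQ1, hQ2, hQ3⟩ := hEd3 d t htI htE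
      have hz0 : z ≠ 0 := by
        rintro rfl
        rw [mul_zero] at hz
        rcases mul_eq_zero.1 hz with h | h
        · exact hv0 h
        · exact hd0 h
      have hzM : |(z : ℝ)| ≤ M ^ (D + 3) := by
        have e1 : |(z : ℝ)| * |(z : ℝ)| = |((f.eval t : ℤ) : ℝ)| * |(d : ℝ)| := by
          rw [← abs_mul, ← abs_mul]
          congr 1
          exact_mod_cast hz.symm
        have e2 : |(d : ℝ)| ≤ M := by
          refine hdM.trans ?_
          calc M ^ σ ≤ M ^ (1 : ℝ) := Real.rpow_le_rpow_of_exponent_le hM1 (by linarith)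
            _ = M := Real.rpow_one M
        have e3 : |(z : ℝ)| * |(z : ℝ)| ≤ M ^ (D + 3) * M ^ (D + 3) := by
          rw [e1]
          calc |((f.eval t : ℤ) : ℝ)| * |(d : ℝ)| ≤ M ^ (D + 2) * M := by
                gcongr
                exact hval t htI
            _ = M ^ (D + 3) * 1 := by ring
            _ ≤ M ^ (D + 3) * M ^ (D + 3) := by
                gcongr
                exact one_le_pow₀ hM1
        exact abs_le_of_sq_le_sq' (by nlinarith) (by positivity) |>.2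
      have hlz : Real.log |(z : ℝ)| ≤ (D + 3) * Real.log M := by
        have h4 : 0 < |(z : ℝ)| := abs_pos.2 (by exact_mod_cast hz0)
        have h5 := Real.log_le_log h4 hzM
        rw [Real.log_pow] at h5
        push_cast at h5
        exact h5
      rw [Real.norm_of_nonneg hlM, Real.norm_of_nonneg (by positivity)] at h3
      have hlz2 : Real.log |(z : ℝ)| ≤ M ^ (σ * (1 - σ)) / 8 := by
        refine hlz.trans ?_
        calc ((D : ℝ) + 3) * Real.log M ≤ (D + 3) * (1 / (8 * (D + 3)) * M ^ (σ * (1 - σ))) := by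
              gcongr
          _ = _ := by field_simp
      have hQp : ∀ p ∈ Q, p.Prime := fun p hp => (hQ1 p hp).1
      have hZ := card_dvd_le Q hQp z hz0
      set Z := Q.filter (fun p : ℕ => (p : ℤ) ∣ z) with hZd
      have hsum : ∑ p ∈ Q, GD d f p t = (((Q.card : ℝ) - Z.card : ℝ) : ℂ) := by
        have e1 : ∀ p ∈ Q, GD d f p t = (1 : ℂ) - (if (p : ℤ) ∣ z then 1 else 0) := by
          intro p hp
          rw [GD_eq d f p t z hz]
          have : Fact p.Prime := ⟨hQp p hp⟩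
          by_cases h : (p : ℤ) ∣ z
          · rw [if_pos h]
            have h4 : jacobiSym (z * z) p = 0 := by
              rw [← jacobiSym.legendreSym.to_jacobiSym, legendreSym.eq_zero_iff,
                ZMod.intCast_zmod_eq_zero_iff_dvd]
              exact h.mul_right _
            rw [h4]
            simp
          · rw [if_neg h]
            have hc : Int.gcd z p = 1 := by
              rw [Int.gcd_eq_natAbs, Int.natAbs_natCast]
              exact ((Nat.Prime.coprime_iff_not_dvd (hQp p hp)).mpr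
                (fun h' => h (Int.natCast_dvd.2 h'))).symm
            have h4 : jacobiSym (z * z) p = 1 := by
              rw [jacobiSym.mul_left, ← sq]
              exact jacobiSym.sq_one hc
            rw [h4]
            simp
        rw [sum_congr rfl e1, sum_sub_distrib, sum_boole]
        push_cast
        simp [hZd]
      rw [hsum, Complex.norm_real, Real.norm_eq_abs] at hQ3
      have h4 := (abs_lt.1 hQ3).2
      have h5 : 0 < M ^ (σ * (1 - σ)) := by positivity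
      linarith
  have hcardI : ((Icc (-(m : ℤ)) m).card : ℝ) ≤ 3 * M ^ σ := by
    rw [Int.card_Icc]
    have : ((m : ℤ) + 1 - -(m : ℤ)).toNat = 2 * m + 1 := by omega
    rw [this]
    push_cast
    linarith
  calc _ ≤ (((Icc (-(m : ℤ)) m).biUnion Ed).card : ℝ) := by exact_mod_cast card_le_card hsub
    _ ≤ ∑ d ∈ Icc (-(m : ℤ)) m, ((Ed d).card : ℝ) := by exact_mod_cast card_biUnion_le
    _ ≤ ∑ d ∈ Icc (-(m : ℤ)) m, C1 * √T * M ^ (σ + σ) := sum_le_sum fun d _ => hEd2 d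
    _ = ((Icc (-(m : ℤ)) m).card : ℝ) * (C1 * √T * M ^ (σ + σ)) := by
        rw [sum_const, nsmul_eq_mul]
    _ ≤ 3 * M ^ σ * (C1 * √T * M ^ (σ + σ)) := by gcongr
    _ = 3 * C1 * √T * (M ^ σ * M ^ (σ + σ)) := by ring
    _ = _ := by
        rw [← Real.rpow_add hM0]
        congr 2
        ring

end Pool.Agent.Q122.TF
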